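import Mathlib
import Pool.Agent.Lib.MP_9cfc0a_nt.SO.Defs2

set_option autoImplicit false

/-! Definitions for the uniform version (all `X ≥ q`). -/

namespace Pool.Agent.SO

open Complex MeasureTheory

/-- The window sum `∑ Λ(n) χ(n) (th_U - th_W) n^{-s}`. -/
noncomputable def AX (r : ℕ) (χ : DirichletCharacter ℂ r) (N : ℕ) (U W : ℝ) (s : ℂ) : ℂ :=
  ∑ n ∈ Finset.Icc 1 N, ((ArithmeticFunction.vonMangoldt n * (th r U n - th r W n) : ℝ) : ℂ)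
    * χ n * (n : ℂ) ^ (-s)

/-- The finite approximation of `G_U`, cut at `Y`. -/
noncomputable def Gtx (r : ℕ) (χ : DirichletCharacter ℂ r) (N : ℕ) (U Y : ℝ) (s : ℂ) : ℂ :=
  ∑ k ∈ Finset.Icc 1 N, ((cU r U k * Pool.Agent.MC.C2.vv (k / Y) : ℝ) : ℂ) * χ k *
    (k : ℂ) ^ (-s)

/-- The good pairs `(χ, t)`, with two radii. -/
def goodX (r : ℕ) [NeZero r] (b T R K : ℝ) (m : ℕ) (χ : DirichletCharacter ℂ r) (t : ℝ) : Prop :=
  Real.circleAverage (fun w => ‖χ.LFunction (pz r t w) * MM r χ (pt r b t)‖ ^ 2) 0 (T + 1)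
    ≤ Real.exp (7 * T) ∧
  Real.circleAverage (fun w => ‖χ.LFunction (pz r t w) * MM r χ (pt r b t)‖ ^ 2) 0 (R + 1)
    ≤ Real.exp (7 * R) ∧
  ‖χ.LFunction (pt r b t) * MM r χ (pt r b t) - 1‖ ≤ 1 / 2 ∧
  ‖deriv χ.LFunction (pt r b t) * MM r χ (pt r b t)‖ ≤ Real.log r / 16 ∧
  ∫ t' : ℝ, ‖χ.LFunction (pt r 0 t') * MM r χ (pt r b t)‖ ^ 2 * kw r m t t' ≤ K

end Pool.Agent.SO
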