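import Mathlib
import Pool.Agent.Lib.MP_9cfc0a_nt.SX.Defs3
import Pool.Agent.Lib.MP_9cfc0a_nt.Mg.G007

set_option autoImplicit false

namespace Pool.Agent.SO

open Complex MeasureTheory

/-- XQ3. PROOF. As `few_bad` (file SO/Q3a.lean), with `ε/5` and five conditions: `bad_a` is used for `T` and
for `R`. -/
theorem few_bad_x : ∃ m : ℕ, 6 ≤ m ∧ ∀ ε : ℝ, 0 < ε → ∃ b : ℝ, 1 ≤ b ∧ ∃ R₁ : ℝ, 1 ≤ R₁ ∧
    ∀ T : ℝ, R₁ ≤ T → ∀ R : ℝ, R₁ ≤ R → ∃ K : ℝ, 0 ≤ K ∧ ∃ r₀ : ℕ, 2 ≤ r₀ ∧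
    ∀ (r : ℕ) [NeZero r], r₀ ≤ r →
    ∀ t : ℝ, 0 ≤ t → t ≤ 1 → ∀ S : Finset (DirichletCharacter ℂ r), S ⊆ prim r →
    (∀ χ ∈ S, ¬ goodX r b T R K m χ t) → (S.card : ℝ) ≤ ε * NN r := by
  classical
  obtain ⟨m, hm, hd⟩ := bad_d
  refine ⟨m, hm, fun ε hε => ?_⟩
  have hε5 : 0 < ε / 5 := by linarith
  obtain ⟨b1, hb1, hB⟩ := bad_b (ε / 5) hε5
  obtain ⟨b2, hb2, hC⟩ := bad_c (ε / 5) hε5
  have hb0 : 0 ≤ max b1 b2 := by linarith [le_max_left b1 b2]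
  obtain ⟨R₁, hR₁, hA⟩ := bad_a (max b1 b2) (ε / 5) hb0 hε5
  refine ⟨max b1 b2, le_max_of_le_left hb1, R₁, hR₁, fun T hT R hR => ?_⟩
  obtain ⟨K, hK, r3, hr3, hD⟩ := hd (max b1 b2) (ε / 5) hb0 hε5
  obtain ⟨r0, hr0, hA'⟩ := hA R hR
  obtain ⟨r4, hr4, hA''⟩ := hA T hT
  obtain ⟨r1, hr1, hB'⟩ := hB _ (le_max_left b1 b2)
  obtain ⟨r2, hr2, hC'⟩ := hC _ (le_max_right b1 b2)
  refine ⟨K, hK, max (max r0 r1) (max r2 (max r3 r4)), le_max_of_le_left (le_max_of_le_left hr0),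
    fun r _ hr t ht0 ht1 S hS hbad => ?_⟩
  have q0 : r0 ≤ r := by omega
  have q1 : r1 ≤ r := by omega
  have q2 : r2 ≤ r := by omega
  have q3 : r3 ≤ r := by omega
  have q4 : r4 ≤ r := by omega
  set b := max b1 b2 with hbdef
  let Sa := S.filter (fun χ => Real.exp (7 * R) < Real.circleAverage
      (fun w => ‖χ.LFunction (pz r t w) * MM r χ (pt r b t)‖ ^ 2) 0 (R + 1))
  let Se := S.filter (fun χ => Real.exp (7 * T) < Real.circleAverage
      (fun w => ‖χ.LFunction (pz r t w) * MM r χ (pt r b t)‖ ^ 2) 0 (T + 1))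
  let Sb := S.filter (fun χ => 1 / 2 < ‖χ.LFunction (pt r b t) * MM r χ (pt r b t) - 1‖)
  let Sc := S.filter (fun χ => Real.log r / 16 <
      ‖deriv χ.LFunction (pt r b t) * MM r χ (pt r b t)‖)
  let Sd := S.filter (fun χ => K < ∫ t' : ℝ,
      ‖χ.LFunction (pt r 0 t') * MM r χ (pt r b t)‖ ^ 2 * kw r m t t')
  have ca := hA' r q0 t ht0 ht1 Sa ((Finset.filter_subset _ _).trans hS)
    (fun χ hχ => (Finset.mem_filter.1 hχ).2)
  have ce := hA'' r q4 t ht0 ht1 Se ((Finset.filter_subset _ _).trans hS)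
    (fun χ hχ => (Finset.mem_filter.1 hχ).2)
  have cb := hB' r q1 t ht0 ht1 Sb ((Finset.filter_subset _ _).trans hS)
    (fun χ hχ => (Finset.mem_filter.1 hχ).2)
  have cc := hC' r q2 t ht0 ht1 Sc ((Finset.filter_subset _ _).trans hS)
    (fun χ hχ => (Finset.mem_filter.1 hχ).2)
  have cd := hD r q3 t ht0 ht1 Sd ((Finset.filter_subset _ _).trans hS)
    (fun χ hχ => (Finset.mem_filter.1 hχ).2)
  have hsub : S ⊆ Se ∪ ((Sa ∪ Sb) ∪ (Sc ∪ Sd)) := by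
    intro χ hχ
    have h1 := hbad χ hχ
    unfold goodX at h1
    rw [not_and_or, not_and_or, not_and_or, not_and_or, not_le, not_le, not_le, not_le,
      not_le] at h1
    rcases h1 with h1 | h1 | h1 | h1 | h1
    · exact Finset.mem_union_left _ (Finset.mem_filter.2 ⟨hχ, h1⟩)
    · exact Finset.mem_union_right _ (Finset.mem_union_left _
        (Finset.mem_union_left _ (Finset.mem_filter.2 ⟨hχ, h1⟩)))
    · exact Finset.mem_union_right _ (Finset.mem_union_left _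
        (Finset.mem_union_right _ (Finset.mem_filter.2 ⟨hχ, h1⟩)))
    · exact Finset.mem_union_right _ (Finset.mem_union_right _
        (Finset.mem_union_left _ (Finset.mem_filter.2 ⟨hχ, h1⟩)))
    · exact Finset.mem_union_right _ (Finset.mem_union_right _
        (Finset.mem_union_right _ (Finset.mem_filter.2 ⟨hχ, h1⟩)))
  have hcard : (S.card : ℝ) ≤ Se.card + (Sa.card + Sb.card + (Sc.card + Sd.card)) := by
    have h1 := Finset.card_le_card hsub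
    have h0 := Finset.card_union_le Se ((Sa ∪ Sb) ∪ (Sc ∪ Sd))
    have h2 := Finset.card_union_le (Sa ∪ Sb) (Sc ∪ Sd)
    have h3 := Finset.card_union_le Sa Sb
    have h4 := Finset.card_union_le Sc Sd
    have h5 : S.card ≤ Se.card + (Sa.card + Sb.card + (Sc.card + Sd.card)) := by omega
    exact_mod_cast h5
  linarith

end Pool.Agent.SO
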