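import Mathlib
import Pool.Agent.Lib.MP_9cfc0a_nt.SO.Defs2
import Pool.Agent.Lib.MP_9cfc0a_nt.Mg.G001

set_option autoImplicit false

namespace Pool.Agent.SO

open Complex MeasureTheory

private lemma XF_gF {r : ℕ} [NeZero r] (χ : DirichletCharacter ℂ r) {s : ℂ} (hs : 0 < s.re) :
    DirichletCharacter.gammaFactor χ s ≠ 0 := by
  rcases χ.even_or_odd with h | h
  · rw [h.gammaFactor_def]
    exact Gammaℝ_ne_zero_of_re_pos hs
  · rw [h.gammaFactor_def]
    apply Gammaℝ_ne_zero_of_re_pos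
    rw [Complex.add_re, Complex.one_re]
    linarith

/-- XF. Symmetry of the zeros.

PROOF. `L = log r`, `z = x + y I`, `pz r t z = 1/2 + x/L + (t + y/L) I`,
`pz r t (-conj z) = 1/2 - x/L + (t + y/L) I`. Apply `funct_norm` with `x/L` (if `x ≥ 0` or not: it holds
for all `|x/L| < 1/2`) and `τ = t + y/L`: the right side is `0` iff `L(pz r t z) = 0`; the gamma
factors are nonzero at points of positive real part (`gammaFactor` is `Gammaℝ s` or `Gammaℝ (s+1)`,
`Gammaℝ_ne_zero_of_re_pos`), `r^x ≠ 0`. -/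
theorem L_zero_symm (r : ℕ) [NeZero r] (hr : 2 ≤ r) (χ : DirichletCharacter ℂ r)
    (hχ : χ.IsPrimitive) (t : ℝ) (z : ℂ) (hz : |z.re| < Real.log r / 2)
    (h : χ.LFunction (pz r t z) = 0) : χ.LFunction (pz r t (-(starRingEnd ℂ) z)) = 0 := by
  have hr1 : (1 : ℝ) < r := by exact_mod_cast (by omega : 1 < r)
  have hL : 0 < Real.log r := Real.log_pos hr1
  have hLne : ((Real.log r : ℝ) : ℂ) ≠ 0 := by exact_mod_cast hL.ne'
  have hx : |z.re / Real.log r| < 1 / 2 := by
    rw [abs_div, abs_of_pos hL, div_lt_iff₀ hL]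
    linarith
  have e1 : pz r t z = 1 / 2 + ((z.re / Real.log r : ℝ) : ℂ) +
      ((t + z.im / Real.log r : ℝ) : ℂ) * I := by
    unfold pz
    conv_lhs => rw [← Complex.re_add_im z]
    push_cast
    ring
  have e2 : pz r t (-(starRingEnd ℂ) z) = 1 / 2 - ((z.re / Real.log r : ℝ) : ℂ) +
      ((t + z.im / Real.log r : ℝ) : ℂ) * I := by
    unfold pz
    have e3 : (starRingEnd ℂ) z = (z.re : ℂ) - (z.im : ℂ) * I := by
      apply Complex.ext <;> simp
    rw [e3]
    push_cast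
    ring
  have h1 := funct_norm r hr χ hχ (z.re / Real.log r) (t + z.im / Real.log r) hx
  rw [← e1, ← e2, h, norm_zero, mul_zero, mul_zero] at h1
  rcases mul_eq_zero.1 h1 with h2 | h2
  · exfalso
    rw [norm_eq_zero] at h2
    refine XF_gF χ ?_ h2
    rw [e2]
    have h3 := (abs_lt.1 hx).2
    have h4 : ∀ a b : ℝ, ((1 : ℂ) / 2 - (a : ℂ) + (b : ℂ) * I).re = 1 / 2 - a := by
      intro a b
      simp
    rw [h4]
    linarith
  · exact norm_eq_zero.1 h2

end Pool.Agent.SO
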