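import Mathlib
import Pool.Agent.Lib.MP_9cfc0a_nt.Mg.G001

set_option autoImplicit false

namespace Pool.Agent.SO

open Complex Metric Set

/-- XL1. Minimum modulus on a circle with real centre `a`, radius in a short interval.

PROOF. As `min_modulus` (file SO/L1.lean), same scaling with base point `b`:
`lam = (R - b) * 20 / 39 > 0`, `h w = f (b + lam w)`, factorisation `h w = (∏ (w - ρ j)) g w`,
`n ≤ 20 T`, `‖g w‖ ≥ g0 > 0` for `‖w‖ ≤ 17/10` with `g0` depending on `K` only. A point `z` with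
`‖z - a‖ ≤ a + η` corresponds to `w = (z - b)/lam`,
`‖w‖ ≤ (2 a + η + b)/lam ≤ (39/20) (2a + η + b)/(8 a + 7 b + 8 η) ≤ 39/80 < 17/10`. The zeros in the `z`
coordinate are `z_j = b + lam ρ_j`, `f z = (∏ (z - z_j)/lam) * g`. Apply
`Pool.Agent.EM.radius_choice` with `J = univ`, `t j = ‖z_j - a‖ - a`, `ρ = η/2`: there is
`s ∈ [η/2, η]` with `(η/2 * exp (-2))^n ≤ ∏ |t j - s|`; the radius is `ρ = a + s ∈ [a + η/2, a + η]`, and
`|t j - s| = |‖z_j - a‖ - ρ| ≤ ‖z - z_j‖` for `‖z - a‖ = ρ`. So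
`‖f z‖ ≥ (η exp (-2)/(2 lam))^n * g0`; the base is at most `1` (`lam ≥ η`) and `n ≤ 20 T`. -/
theorem min_modulus_at (a b η R K : ℝ) (ha : 0 < a) (hb : 0 ≤ b) (hη : 0 < η)
    (hR : 8 * a + 8 * b + 8 * η ≤ R) (hK : 1 ≤ K) :
    ∃ m : ℝ, 0 < m ∧ ∀ f : ℂ → ℂ, AnalyticOnNhd ℂ f (closedBall (0 : ℂ) R) →
      (∀ z ∈ closedBall (0 : ℂ) R, ‖f z‖ ≤ K) → 1 / 2 ≤ ‖f (b : ℂ)‖ →
      ∃ ρ ∈ Icc (a + η / 2) (a + η), ∀ z : ℂ, ‖z - (a : ℂ)‖ = ρ → m ≤ ‖f z‖ := by
  -- constants
  set T : ℝ := Real.log (2 * K) + 1 with hT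
  have hlog : 0 ≤ Real.log (2 * K) := Real.log_nonneg (by linarith)
  have hT1 : 1 ≤ T := by rw [hT]; linarith
  have hexpT : Real.exp T = 2 * K * Real.exp 1 := by
    rw [hT, Real.exp_add, Real.exp_log (by linarith)]
  have he1 : (1 : ℝ) ≤ Real.exp 1 := Real.one_le_exp zero_le_one
  have hKT : K ≤ Real.exp T := by rw [hexpT]; nlinarith
  have hTK : Real.exp (-T) ≤ 1 / 2 := by
    rw [Real.exp_neg, hexpT, inv_eq_one_div]
    exact one_div_le_one_div_of_le two_pos (by nlinarith)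
  set L : ℝ := 5600 * (60 * T) with hL
  have hL0 : 0 ≤ L := by rw [hL]; positivity
  set g0 : ℝ := Real.exp (-(L * 2)) * (1 / 2 * ((7 / 4 : ℝ) ^ (20 * T))⁻¹) with hg0def
  have hg0pos : 0 < g0 := by rw [hg0def]; positivity
  set lam : ℝ := (R - b) * (20 / 39) with hlam
  have hRb : 8 * a + 7 * b + 8 * η ≤ R - b := by linarith
  have hlamη : η ≤ lam := by rw [hlam]; linarith
  have hlam0 : 0 < lam := by linarith
  set β : ℝ := η / 2 * Real.exp (-2) / lam with hβ
  have hβ0 : 0 < β := by rw [hβ]; positivity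
  have hβ1 : β ≤ 1 := by
    rw [hβ, div_le_one hlam0]
    have h1 : Real.exp (-2) ≤ 1 := Real.exp_le_one_iff.2 (by norm_num)
    have h2 : η / 2 * Real.exp (-2) ≤ η / 2 * 1 := mul_le_mul_of_nonneg_left h1 (by linarith)
    linarith
  refine ⟨β ^ (20 * T) * g0, by positivity, fun f hf hfK hfb => ?_⟩
  have hmaps : ∀ w ∈ closedBall (0 : ℂ) (39 / 20), (b : ℂ) + lam * w ∈ closedBall (0 : ℂ) R := by
    intro w hw
    rw [mem_closedBall_zero_iff] at hw ⊢
    calc ‖(b : ℂ) + lam * w‖ ≤ ‖(b : ℂ)‖ + ‖(lam : ℂ) * w‖ := norm_add_le _ _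
      _ = b + lam * ‖w‖ := by
        rw [norm_mul, Complex.norm_real, Complex.norm_real, Real.norm_of_nonneg hb,
          Real.norm_of_nonneg hlam0.le]
      _ ≤ b + lam * (39 / 20) := by
        have := mul_le_mul_of_nonneg_left hw hlam0.le
        linarith
      _ = R := by rw [hlam]; ring
  set h : ℂ → ℂ := fun w => f ((b : ℂ) + lam * w) with hh
  have hhan : AnalyticOnNhd ℂ h (closedBall (0 : ℂ) (39 / 20)) := by
    intro w hw
    have h1 : AnalyticAt ℂ (fun w : ℂ => (b : ℂ) + lam * w) w := by fun_prop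
    exact AnalyticAt.fun_comp (g := f) (f := fun w : ℂ => (b : ℂ) + lam * w) (hf _ (hmaps w hw)) h1
  have hh0 : h 0 = f (b : ℂ) := by simp [hh]
  have hhne : h 0 ≠ 0 := by
    rw [hh0]
    intro h0
    rw [h0, norm_zero] at hfb
    norm_num at hfb
  obtain ⟨n, ρ, g, hg, hfg, hρ, hgne⟩ := Pool.Agent.EM.factor_zeros h 0 (7 / 4) (39 / 20)
    (by norm_num) (by norm_num) hhan hhne
  obtain ⟨hn, hgb⟩ := Pool.Agent.EM.count_bound n h g ρ 0 T (by linarith) hg hfg hρ
    (fun z hz => (hfK _ (hmaps z hz)).trans hKT) (by rw [hh0]; exact hTK.trans hfb)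
  have hsub : ball (0 : ℂ) (7 / 4) ⊆ closedBall (0 : ℂ) (39 / 20) :=
    ball_subset_closedBall.trans (closedBall_subset_closedBall (by norm_num))
  have hld : ∀ w ∈ ball (0 : ℂ) (17 / 10), ‖deriv g w / g w‖ ≤ L := by
    intro w hw
    have h1 := Pool.Agent.MC.logDeriv_bound g 0 (7 / 4) (60 * T) (1 / 20) (by positivity)
      (by norm_num) (by norm_num) (hg.differentiableOn.mono hsub)
      (fun z hz => hgne z (ball_subset_closedBall hz)) (fun z hz => hgb z (hsub hz)) w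
      (by
        rw [mem_ball] at hw
        linarith)
    refine h1.trans (le_of_eq ?_)
    rw [hL]
    ring
  have hlow := lower_of_logDeriv g (17 / 10) L hL0
    (hg.differentiableOn.mono ((ball_subset_ball (by norm_num)).trans hsub))
    (fun z hz => hgne z (ball_subset_closedBall (ball_subset_ball (by norm_num) hz))) hld
  have hn' : (n : ℝ) ≤ 20 * T := hn
  -- lower bound for g 0
  have hg00 : 1 / 2 * ((7 / 4 : ℝ) ^ (20 * T))⁻¹ ≤ ‖g 0‖ := by
    have e1 := hfg 0 (mem_closedBall_self (by norm_num))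
    have e2 : 1 / 2 ≤ (∏ j, ‖(0 : ℂ) - ρ j‖) * ‖g 0‖ := by
      rw [← norm_prod, ← norm_mul, ← e1, hh0]
      exact hfb
    have e3 : (∏ j, ‖(0 : ℂ) - ρ j‖) ≤ (7 / 4 : ℝ) ^ n := by
      have := Finset.prod_le_prod (s := Finset.univ) (f := fun j => ‖(0 : ℂ) - ρ j‖)
        (g := fun _ : Fin n => (7 / 4 : ℝ)) (fun j _ => norm_nonneg _) (fun j _ => by
          have := hρ j
          rw [mem_closedBall, dist_eq_norm] at this
          rwa [norm_sub_rev] at this)
      rwa [Finset.prod_const, Finset.card_univ, Fintype.card_fin] at this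
    have e4 : (7 / 4 : ℝ) ^ n ≤ (7 / 4 : ℝ) ^ (20 * T) := by
      rw [← Real.rpow_natCast]
      exact Real.rpow_le_rpow_of_exponent_le (by norm_num) hn'
    have e5 : 1 / 2 ≤ (7 / 4 : ℝ) ^ (20 * T) * ‖g 0‖ :=
      e2.trans (mul_le_mul_of_nonneg_right (e3.trans e4) (norm_nonneg _))
    have hp : 0 < (7 / 4 : ℝ) ^ (20 * T) := by positivity
    rw [← div_eq_mul_inv, div_le_iff₀ hp, mul_comm]
    exact e5
  have hgw : ∀ w ∈ ball (0 : ℂ) (17 / 10), g0 ≤ ‖g w‖ := by
    intro w hw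
    refine le_trans ?_ (hlow w hw)
    rw [hg0def]
    refine mul_le_mul ?_ hg00 (by positivity) (Real.exp_pos _).le
    refine Real.exp_le_exp.2 (neg_le_neg ?_)
    refine mul_le_mul_of_nonneg_left ?_ hL0
    rw [mem_ball_zero_iff] at hw
    linarith
  -- choice of the radius
  obtain ⟨s, hs1, hs2, hs3⟩ := Pool.Agent.EM.radius_choice Finset.univ
    (fun j => ‖(b : ℂ) + lam * ρ j - a‖ - a) (η / 2) (by linarith)
  refine ⟨a + s, ⟨by linarith, by linarith⟩, fun z hz => ?_⟩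
  set w : ℂ := (z - b) / lam with hw
  have hlamC : (lam : ℂ) ≠ 0 := by exact_mod_cast hlam0.ne'
  have hzw : (b : ℂ) + lam * w = z := by
    rw [hw]
    field_simp
    ring
  have hwball : w ∈ ball (0 : ℂ) (17 / 10) := by
    rw [mem_ball_zero_iff, hw, norm_div, Complex.norm_real, Real.norm_of_nonneg hlam0.le,
      div_lt_iff₀ hlam0]
    have : ‖z - (b : ℂ)‖ ≤ (a + s) + (a + b) := by
      have e1 : z - (b : ℂ) = (z - a) + ((a : ℂ) - b) := by ring
      rw [e1]
      refine (norm_add_le _ _).trans ?_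
      rw [hz]
      have e2 : ‖(a : ℂ) - b‖ ≤ a + b := by
        refine (norm_sub_le _ _).trans ?_
        rw [Complex.norm_real, Complex.norm_real, Real.norm_of_nonneg hb, Real.norm_of_nonneg ha.le]
      linarith
    rw [hlam]
    linarith
  have hfz : f z = (∏ j, (w - ρ j)) * g w := by
    have := hfg w (ball_subset_closedBall (ball_subset_ball (by norm_num) hwball))
    rw [← this, hh]
    change f z = f ((b : ℂ) + lam * w)
    rw [hzw]
  have hprod : β ^ (20 * T) ≤ ∏ j, ‖w - ρ j‖ := by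
    have p1 : ∀ j, |‖(b : ℂ) + lam * ρ j - a‖ - a - s| ≤ lam * ‖w - ρ j‖ := by
      intro j
      have q1 : (z - a) - ((b : ℂ) + lam * ρ j - a) = lam * (w - ρ j) := by
        conv_lhs => rw [← hzw]
        ring
      have q2 := abs_norm_sub_norm_le ((b : ℂ) + lam * ρ j - a) (z - a)
      rw [hz, norm_sub_rev (((b : ℂ) + lam * ρ j - a)) (z - a), q1, norm_mul, Complex.norm_real,
        Real.norm_of_nonneg hlam0.le] at q2
      rw [sub_sub]
      exact q2
    have p2 : (η / 2 * Real.exp (-2)) ^ n ≤ lam ^ n * ∏ j, ‖w - ρ j‖ := by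
      rw [Finset.card_univ, Fintype.card_fin] at hs3
      refine hs3.trans ?_
      have := Finset.prod_le_prod (s := Finset.univ)
        (f := fun j => |‖(b : ℂ) + lam * ρ j - a‖ - a - s|) (g := fun j => lam * ‖w - ρ j‖)
        (fun j _ => abs_nonneg _) (fun j _ => p1 j)
      refine this.trans (le_of_eq ?_)
      rw [Finset.prod_mul_distrib, Finset.prod_const, Finset.card_univ, Fintype.card_fin]
    have p3 : lam ^ n * β ^ n ≤ (η / 2 * Real.exp (-2)) ^ n := by
      rw [← mul_pow]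
      refine le_of_eq (congrArg (· ^ n) ?_)
      rw [hβ]
      field_simp
    have p4 : β ^ n ≤ ∏ j, ‖w - ρ j‖ :=
      le_of_mul_le_mul_left (p3.trans p2) (by positivity)
    refine le_trans ?_ p4
    rw [← Real.rpow_natCast]
    exact Real.rpow_le_rpow_of_exponent_ge hβ0 hβ1 hn'
  rw [hfz, norm_mul, norm_prod]
  exact mul_le_mul hprod (hgw w hwball) hg0pos.le (Finset.prod_nonneg fun j _ => norm_nonneg _)

end Pool.Agent.SO
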