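import Mathlib
import Pool.Agent.Lib.MP_9cfc0a_nt.Mg.G004

set_option autoImplicit false

namespace Pool.Agent.SO

open Complex Metric Set

/-- XL2. Number of zeros in a disc with centre `a` as a contour integral (for an entire function).

PROOF. As `zero_count` (file SO/L2.lean). `f` is not identically zero, so there is a point `c` with
`‖c - a‖ < 1` and `f c ≠ 0` (identity theorem; `f` entire and nonzero on the circle).
`Pool.Agent.EM.factor_zeros f c (ρ + 1) (ρ + 3)`: `f z = (∏ (z - w j)) * g z` on
`closedBall c (ρ + 3) ⊇ closedBall a (ρ + 2)`, `g ≠ 0` on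
`closedBall c (ρ + 1) ⊇ closedBall a ρ`. On the circle `‖z - a‖ = ρ`:
`deriv f z / f z = ∑ j, (z - w j)⁻¹ + deriv g z / g z`; `∮ (z - w j)⁻¹ = 2πi` if `w j ∈ ball a ρ`
(`circleIntegral.integral_sub_inv_of_mem_ball`), `0` if `‖w j - a‖ > ρ`; `∮ deriv g z / g z = 0`.
`n = #{j | w j ∈ ball a ρ}`; if `n = 0`, `f ≠ 0` on `closedBall a ρ`. -/
theorem zero_count_at (f : ℂ → ℂ) (a : ℂ) (ρ : ℝ) (hρ : 0 < ρ) (hf : Differentiable ℂ f)
    (hne : ∀ z : ℂ, ‖z - a‖ = ρ → f z ≠ 0) :
    ∃ n : ℕ, (∮ z in C(a, ρ), deriv f z / f z) = 2 * (Real.pi : ℂ) * I * n ∧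
      (n = 0 → ∀ z ∈ closedBall a ρ, f z ≠ 0) := by
  -- a point near `a` where `f` does not vanish
  obtain ⟨c, hca, hfc⟩ : ∃ c : ℂ, ‖c - a‖ < 1 ∧ f c ≠ 0 := by
    by_contra hcon
    push Not at hcon
    have hev : f =ᶠ[nhds a] (fun _ => (0 : ℂ)) := by
      filter_upwards [ball_mem_nhds a one_pos] with y hy
      rw [mem_ball, dist_eq_norm] at hy
      exact hcon y hy
    have han : AnalyticOnNhd ℂ f univ := hf.differentiableOn.analyticOnNhd isOpen_univ
    have han0 : AnalyticOnNhd ℂ (fun _ : ℂ => (0 : ℂ)) univ := analyticOnNhd_const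
    have heq : EqOn f (fun _ => (0 : ℂ)) univ :=
      han.eqOn_of_preconnected_of_eventuallyEq han0 isPreconnected_univ (mem_univ a) hev
    have h1 : ‖(a + (ρ : ℂ)) - a‖ = ρ := by
      rw [add_sub_cancel_left, Complex.norm_real, Real.norm_of_nonneg hρ.le]
    exact hne _ h1 (heq (mem_univ _))
  have hfan : AnalyticOnNhd ℂ f (closedBall c (ρ + 3)) :=
    (hf.differentiableOn.analyticOnNhd isOpen_univ).mono (subset_univ _)
  have inc2 : closedBall a ρ ⊆ closedBall c (ρ + 1) := by
    intro z hz
    rw [mem_closedBall, dist_eq_norm] at hz ⊢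
    calc ‖z - c‖ = ‖(z - a) - (c - a)‖ := by rw [sub_sub_sub_cancel_right]
      _ ≤ ‖z - a‖ + ‖c - a‖ := norm_sub_le _ _
      _ ≤ ρ + 1 := by linarith
  obtain ⟨N, w, g, hg, hfg, hw, hg0⟩ := Pool.Agent.EM.factor_zeros f c (ρ + 1) (ρ + 3)
    (by linarith) (by linarith) hfan hfc
  have inc3 : closedBall c (ρ + 1) ⊆ ball c (ρ + 3) := closedBall_subset_ball (by linarith)
  have inc4 : closedBall a ρ ⊆ ball c (ρ + 3) := inc2.trans inc3
  have hfg' : ∀ z ∈ ball c (ρ + 3), f z = (∏ j, (z - w j)) * g z := fun z hz => hfg z (ball_subset_closedBall hz)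
  have hgd : ∀ z ∈ ball c (ρ + 3), DifferentiableAt ℂ g z := fun z hz =>
    (hg z (ball_subset_closedBall hz)).differentiableAt
  -- zeros are not on the circle
  have hwn : ∀ j, ‖w j - a‖ ≠ ρ := by
    intro j hj
    have h1 : w j ∈ ball c (ρ + 3) := inc4 (by rw [mem_closedBall, dist_eq_norm]; exact hj.le)
    apply hne (w j) hj
    rw [hfg' _ h1, Finset.prod_eq_zero (Finset.mem_univ j) (sub_self _), zero_mul]
  have hgn : ∀ z ∈ closedBall a ρ, g z ≠ 0 := fun z hz => hg0 z (inc2 hz)
  -- logarithmic derivative on the circle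
  have hlog : ∀ z : ℂ, ‖z - a‖ = ρ → deriv f z / f z = (∑ j, (z - w j)⁻¹) + deriv g z / g z := by
    intro z hz
    have hzc : z ∈ closedBall a ρ := by rw [mem_closedBall, dist_eq_norm]; exact hz.le
    have hzb : z ∈ ball c (ρ + 3) := inc4 hzc
    have hev : f =ᶠ[nhds z] fun z => (∏ j, (z - w j)) * g z := by
      filter_upwards [isOpen_ball.mem_nhds hzb] with y hy using hfg' y hy
    have hzw : ∀ j, z - w j ≠ 0 := by
      intro j h
      apply hwn j
      rw [← sub_eq_zero.1 h, hz]
    have h1 : logDeriv f z = logDeriv (fun z => (∏ j, (z - w j)) * g z) z := by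
      rw [logDeriv_apply, logDeriv_apply, hev.deriv_eq, hev.eq_of_nhds]
    have h2 : logDeriv (fun z => (∏ j, (z - w j)) * g z) z
        = logDeriv (fun z => ∏ j, (z - w j)) z + logDeriv g z := by
      apply logDeriv_mul
      · exact Finset.prod_ne_zero_iff.2 fun j _ => hzw j
      · exact hgn z hzc
      · exact DifferentiableAt.fun_finsetProd fun j _ => (differentiableAt_id.sub_const _)
      · exact hgd z hzb
    have h3 : logDeriv (fun z => ∏ j, (z - w j)) z = ∑ j, (z - w j)⁻¹ := by
      have h4 := logDeriv_prod (𝕜 := ℂ) (𝕜' := ℂ) (s := (Finset.univ : Finset (Fin N))) (f := fun j z => z - w j) (x := z)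
        (fun j _ => hzw j) (fun j _ => (differentiableAt_id.sub_const _))
      rw [h4]
      apply Finset.sum_congr rfl
      intro j _
      rw [logDeriv_apply]
      have : deriv (fun z => z - w j) z = 1 := by
        simp
      rw [this, one_div]
    have h5 : deriv f z / f z = logDeriv f z := (logDeriv_apply f z).symm
    rw [h5, h1, h2, h3, logDeriv_apply]
  -- integrability of the pieces
  have hci : ∀ j, CircleIntegrable (fun z => (z - w j)⁻¹) a ρ := by
    intro j
    apply ContinuousOn.circleIntegrable hρ.le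
    intro z hz
    rw [mem_sphere, dist_eq_norm] at hz
    apply ContinuousAt.continuousWithinAt
    apply ContinuousAt.inv₀ (by fun_prop)
    intro h
    apply hwn j
    rw [← sub_eq_zero.1 h, hz]
  have hcont : ContinuousOn (fun z => deriv g z / g z) (closedBall a ρ) := by
    intro z hz
    apply ContinuousAt.continuousWithinAt
    have h1 := hg z (ball_subset_closedBall (inc4 hz))
    exact (h1.deriv.continuousAt).div h1.continuousAt (hgn z hz)
  have hcg : CircleIntegrable (fun z => deriv g z / g z) a ρ :=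
    ContinuousOn.circleIntegrable hρ.le (hcont.mono sphere_subset_closedBall)
  have hg_int : (∮ z in C(a, ρ), deriv g z / g z) = 0 := by
    apply Complex.circleIntegral_eq_zero_of_differentiable_on_off_countable hρ.le Set.countable_empty hcont
    intro z hz
    have hzc : z ∈ closedBall a ρ := ball_subset_closedBall hz.1
    have h1 := hg z (ball_subset_closedBall (inc4 hzc))
    exact (h1.deriv.differentiableAt).div h1.differentiableAt (hgn z hzc)
  have hj_int : ∀ j, (∮ z in C(a, ρ), (z - w j)⁻¹) = if ‖w j - a‖ < ρ then 2 * (Real.pi : ℂ) * I else 0 := by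
    intro j
    split_ifs with h
    · exact circleIntegral.integral_sub_inv_of_mem_ball (by rw [mem_ball, dist_eq_norm]; exact h)
    · have hgt : ρ < ‖w j - a‖ := lt_of_le_of_ne (not_lt.1 h) (Ne.symm (hwn j))
      have hnz : ∀ z ∈ closedBall a ρ, z - w j ≠ 0 := by
        intro z hz h0
        rw [mem_closedBall, dist_eq_norm] at hz
        rw [sub_eq_zero.1 h0] at hz
        linarith
      apply Complex.circleIntegral_eq_zero_of_differentiable_on_off_countable hρ.le Set.countable_empty
      · intro z hz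
        apply ContinuousAt.continuousWithinAt
        exact ContinuousAt.inv₀ (by fun_prop) (hnz z hz)
      · intro z hz
        exact DifferentiableAt.inv (by fun_prop) (hnz z (ball_subset_closedBall hz.1))
  refine ⟨(Finset.univ.filter fun j => ‖w j - a‖ < ρ).card, ?_, ?_⟩
  · have h1 : (∮ z in C(a, ρ), deriv f z / f z) = ∮ z in C(a, ρ), ((∑ j, (z - w j)⁻¹) + deriv g z / g z) := by
      apply circleIntegral.integral_congr hρ.le
      intro z hz
      rw [mem_sphere, dist_eq_norm] at hz
      exact hlog z hz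
    have hsum : CircleIntegrable (fun z => ∑ j, (z - w j)⁻¹) a ρ := by
      have := CircleIntegrable.fun_sum (Finset.univ : Finset (Fin N)) (f := fun j z => (z - w j)⁻¹) (c := a) (R := ρ)
        (fun j _ => hci j)
      exact this
    rw [h1, circleIntegral.integral_add hsum hcg, hg_int, add_zero, circleIntegral.integral_fun_sum fun j _ => hci j,
      Finset.sum_congr rfl fun j _ => hj_int j, Finset.sum_ite, Finset.sum_const_zero, add_zero, Finset.sum_const, nsmul_eq_mul]
    ring
  · intro h0 z hz
    have hzb : z ∈ ball c (ρ + 3) := inc4 hz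
    rw [hfg' z hzb]
    apply mul_ne_zero _ (hgn z hz)
    rw [Finset.prod_ne_zero_iff]
    intro j _ hj
    rw [Finset.card_eq_zero, Finset.filter_eq_empty_iff] at h0
    have h1 := h0 (Finset.mem_univ j)
    rw [mem_closedBall, dist_eq_norm, sub_eq_zero.1 hj] at hz
    exact h1 (lt_of_le_of_ne hz (hwn j))

end Pool.Agent.SO
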