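import Mathlib
import Pool.Agent.Lib.MP_9cfc0a_nt.Mg.G005
import Pool.Agent.Lib.MP_9cfc0a_nt.SX.XL1
import Pool.Agent.Lib.MP_9cfc0a_nt.SX.XL2

set_option autoImplicit false

namespace Pool.Agent.SO

open Complex Metric Set

/-- XL4. The local lower bound with a point to the right of `re z = -η` (uses XL1, XL2, L3).

PROOF. `T₀ = 1600 b C₃ + 32 b`. For `T ≥ T₀`: `a = T²/η > 0`, `R₀ = max T (8 a + 8 b + 8 η)`. For
`R ≥ R₀`: `m` from `min_modulus_at a b η R (exp (C₃ R))`, `c₀ = m/(4 (a + η + 1))`. Suppose that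
`‖deriv f z + P z f z‖ < c₀` for all `z ∈ closedBall 0 R` with `-η ≤ re z`. Let `ρ ∈ [a+η/2, a+η]` be the
radius of `min_modulus_at`. Every `z` with `‖z - a‖ ≤ ρ` has `re z ≥ a - ρ ≥ -η` and
`‖z‖ ≤ 2 a + η ≤ R`. On the circle `‖z - a‖ = ρ`: `f z ≠ 0`, `‖deriv f z/f z + P z‖ < c₀/m`. By
`zero_count_at`, `∮ deriv f/f = 2πi n`, and `∮ P = 0`; so `2π n ≤ 2π ρ c₀/m ≤ 2π (a + η)/(4 (a+η+1)) < 2π`, `n = 0`
and `f` has no zeros in `closedBall a ρ`. If `‖z‖ ≤ T` and `re z ≥ 0` then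
`‖z - a‖² = ‖z‖² - 2 a re z + a² ≤ T² + a² = a η + a² ≤ (a + η/2)²`, so `f z ≠ 0`. If `‖z‖ ≤ T` and
`re z < 0` and `f z = 0`, then `f (-conj z) = 0` by `hsym` with `re (-conj z) > 0`, `‖-conj z‖ ≤ T`: contradiction.
So `f ≠ 0` on `ball 0 T`. Now `zero_free_growth b T (C₃ T)` (`32 b ≤ T`, `1 ≤ C₃ T`) gives
`log ‖f (-b)‖ ≤ log ‖f b‖ + b/4 + 100 b² (C₃ T + 1)/T²`, and
`100 b² (C₃ T + 1)/T² ≤ 200 b² C₃/T ≤ b/8`; contradiction with `exp (b/2) ‖f b‖ ≤ ‖f (-b)‖` as in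
`local_lower` (file SO/L4.lean). -/
theorem local_lower_strip (b C₃ η : ℝ) (hb : 1 ≤ b) (hC : 1 ≤ C₃) (hη : 0 < η) (hη1 : η ≤ 1) :
    ∃ T₀ : ℝ, 1 ≤ T₀ ∧ ∀ T : ℝ, T₀ ≤ T → ∃ R₀ : ℝ, T ≤ R₀ ∧ ∀ R : ℝ, R₀ ≤ R →
    ∃ c₀ : ℝ, 0 < c₀ ∧ ∀ f P : ℂ → ℂ, Differentiable ℂ f → Differentiable ℂ P →
      (∀ z ∈ closedBall (0 : ℂ) T, ‖f z‖ ≤ Real.exp (C₃ * T)) →
      (∀ z ∈ closedBall (0 : ℂ) R, ‖f z‖ ≤ Real.exp (C₃ * R)) →
      (∀ z ∈ closedBall (0 : ℂ) T, f z = 0 → f (-(starRingEnd ℂ) z) = 0) →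
      1 / 2 ≤ ‖f (b : ℂ)‖ → ‖deriv f (b : ℂ)‖ ≤ 1 / 16 →
      Real.exp (b / 2) * ‖f (b : ℂ)‖ ≤ ‖f (-(b : ℂ))‖ →
      ∃ z ∈ closedBall (0 : ℂ) R, -η ≤ z.re ∧ c₀ ≤ ‖deriv f z + P z * f z‖ := by
  have hbC : 1 ≤ b * C₃ := one_le_mul_of_one_le_of_one_le hb hC
  refine ⟨1600 * b * C₃ + 32 * b, by nlinarith, ?_⟩
  intro T hT0
  have hT32 : 32 * b ≤ T := by nlinarith
  have hTC : 1600 * b * C₃ ≤ T := by nlinarith
  have hTpos : 0 < T := by linarith
  have hT1 : 1 ≤ T := by linarith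
  have hCT : 1 ≤ C₃ * T := one_le_mul_of_one_le_of_one_le hC hT1
  obtain ⟨a, ha⟩ : ∃ a : ℝ, a = T ^ 2 / η := ⟨_, rfl⟩
  have haη : a * η = T ^ 2 := by rw [ha]; field_simp
  have hapos : 0 < a := by rw [ha]; positivity
  refine ⟨max T (8 * a + 8 * b + 8 * η), le_max_left _ _, ?_⟩
  intro R hR
  have hTR : T ≤ R := (le_max_left _ _).trans hR
  have hR8 : 8 * a + 8 * b + 8 * η ≤ R := (le_max_right _ _).trans hR
  have hRpos : 0 < R := by linarith
  have hCR : 1 ≤ C₃ * R := one_le_mul_of_one_le_of_one_le hC (by linarith)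
  have hK : 1 ≤ Real.exp (C₃ * R) := Real.one_le_exp (by linarith)
  obtain ⟨m, hm, hmm⟩ := min_modulus_at a b η R (Real.exp (C₃ * R)) hapos (by linarith) hη hR8 hK
  have hden : 0 < a + η + 1 := by linarith
  refine ⟨m / (4 * (a + η + 1)), by positivity, ?_⟩
  intro f P hf hP hfT hfK hsym hfb hfb' hfe
  by_contra hcon
  have hcon' : ∀ z ∈ closedBall (0 : ℂ) R, -η ≤ z.re → ‖deriv f z + P z * f z‖ < m / (4 * (a + η + 1)) := by
    intro z hz hz2
    by_contra h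
    exact hcon ⟨z, hz, hz2, not_lt.mp h⟩
  have hfa : AnalyticOnNhd ℂ f (closedBall (0 : ℂ) R) := fun z _ => hf.analyticAt z
  obtain ⟨ρ, hρ, hρm⟩ := hmm f hfa hfK hfb
  have hρ1 : a + η / 2 ≤ ρ := hρ.1
  have hρ2 : ρ ≤ a + η := hρ.2
  have hρpos : 0 < ρ := by linarith
  have hne : ∀ z : ℂ, ‖z - (a : ℂ)‖ = ρ → f z ≠ 0 := by
    intro z hz h0
    have h1 := hρm z hz
    rw [h0, norm_zero] at h1
    linarith
  obtain ⟨n, hn1, hn2⟩ := zero_count_at f (a : ℂ) ρ hρpos hf hne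
  have hfd : Continuous (deriv f) := (hf.contDiff (n := 1)).continuous_deriv le_rfl
  have hci1 : CircleIntegrable (fun z => deriv f z / f z) (a : ℂ) ρ := by
    apply ContinuousOn.circleIntegrable hρpos.le
    apply ContinuousOn.div hfd.continuousOn hf.continuous.continuousOn
    intro z hz
    apply hne
    rw [mem_sphere_iff_norm] at hz
    exact hz
  have hci2 : CircleIntegrable P (a : ℂ) ρ := (hP.continuous.continuousOn).circleIntegrable hρpos.le
  have hP0 : (∮ z in C((a : ℂ), ρ), P z) = 0 :=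
    Complex.circleIntegral_eq_zero_of_differentiable_on_off_countable hρpos.le Set.countable_empty
      hP.continuous.continuousOn (fun z _ => hP z)
  have hsum : (∮ z in C((a : ℂ), ρ), (deriv f z / f z + P z)) = 2 * (Real.pi : ℂ) * I * n := by
    rw [circleIntegral.integral_add hci1 hci2, hP0, add_zero, hn1]
  have hnorma : ‖(a : ℂ)‖ = a := by rw [Complex.norm_real, Real.norm_of_nonneg hapos.le]
  have hbound : ∀ z ∈ sphere (a : ℂ) ρ, ‖deriv f z / f z + P z‖ ≤ 1 / (4 * (a + η + 1)) := by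
    intro z hz
    rw [mem_sphere_iff_norm] at hz
    have hfz := hne z hz
    have h1 : deriv f z / f z + P z = (deriv f z + P z * f z) / f z := by
      field_simp
    rw [h1, norm_div]
    have hzR : ‖z‖ ≤ R := by
      calc ‖z‖ = ‖(z - (a : ℂ)) + (a : ℂ)‖ := by ring_nf
        _ ≤ ‖z - (a : ℂ)‖ + ‖(a : ℂ)‖ := norm_add_le _ _
        _ = ρ + a := by rw [hz, hnorma]
        _ ≤ R := by linarith
    have hzre : -η ≤ z.re := by
      have h2 : |(z - (a : ℂ)).re| ≤ ρ := by rw [← hz]; exact Complex.abs_re_le_norm _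
      rw [Complex.sub_re, Complex.ofReal_re] at h2
      have h3 := (abs_le.mp h2).1
      linarith
    have h2 := hcon' z (by rw [mem_closedBall_zero_iff]; exact hzR) hzre
    have h3 := hρm z hz
    have h4 : 0 < ‖f z‖ := norm_pos_iff.mpr hfz
    rw [div_le_iff₀ h4]
    have h5 : 1 / (4 * (a + η + 1)) * m ≤ 1 / (4 * (a + η + 1)) * ‖f z‖ :=
      mul_le_mul_of_nonneg_left h3 (by positivity)
    have h6 : 1 / (4 * (a + η + 1)) * m = m / (4 * (a + η + 1)) := by ring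
    linarith
  have hle := circleIntegral.norm_integral_le_of_norm_le_const hρpos.le hbound
  rw [hsum] at hle
  have hn0 : n = 0 := by
    by_contra hn
    have hn1' : (1 : ℝ) ≤ n := by exact_mod_cast Nat.one_le_iff_ne_zero.mpr hn
    have h1 : ‖(2 * (Real.pi : ℂ) * I * n : ℂ)‖ = 2 * Real.pi * n := by
      rw [norm_mul, norm_mul, norm_mul, Complex.norm_I, mul_one, Complex.norm_natCast, Complex.norm_real,
        Real.norm_of_nonneg Real.pi_pos.le]
      norm_num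
    rw [h1] at hle
    have h2 : ρ * (1 / (4 * (a + η + 1))) ≤ 1 / 4 := by
      rw [mul_one_div, div_le_iff₀ (by positivity)]
      linarith
    have h3 : 2 * Real.pi * ρ * (1 / (4 * (a + η + 1))) ≤ 2 * Real.pi * (1 / 4) := by
      rw [mul_assoc]
      exact mul_le_mul_of_nonneg_left h2 (by positivity)
    have h4 : 2 * Real.pi * 1 ≤ 2 * Real.pi * n := mul_le_mul_of_nonneg_left hn1' (by positivity)
    have h5 := Real.pi_pos
    linarith
  have hzf := hn2 hn0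
  -- no zeros in the right half of the disc of radius `T`
  have hright : ∀ z : ℂ, ‖z‖ ≤ T → 0 ≤ z.re → f z ≠ 0 := by
    intro z hz hzre
    apply hzf z
    rw [mem_closedBall_iff_norm]
    have h1 : ‖z - (a : ℂ)‖ ^ 2 = ‖z‖ ^ 2 - 2 * a * z.re + a ^ 2 := by
      rw [← Complex.normSq_eq_norm_sq, ← Complex.normSq_eq_norm_sq, Complex.normSq_apply,
        Complex.normSq_apply, Complex.sub_re, Complex.sub_im, Complex.ofReal_re, Complex.ofReal_im]
      ring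
    have h2 : ‖z‖ ^ 2 ≤ T ^ 2 := pow_le_pow_left₀ (norm_nonneg _) hz 2
    have h3 : 0 ≤ 2 * a * z.re := by positivity
    have h4 : ‖z - (a : ℂ)‖ ^ 2 ≤ (a + η / 2) ^ 2 := by
      rw [h1]; nlinarith [sq_nonneg η]
    have h5 : ‖z - (a : ℂ)‖ ≤ a + η / 2 := (pow_le_pow_iff_left₀ (norm_nonneg _) (by linarith) two_ne_zero).mp h4
    linarith
  have hall : ∀ z : ℂ, ‖z‖ ≤ T → f z ≠ 0 := by
    intro z hz h0
    rcases le_or_gt 0 z.re with h | h
    · exact hright z hz h h0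
    · have h1 := hsym z (by rw [mem_closedBall_zero_iff]; exact hz) h0
      refine hright (-(starRingEnd ℂ) z) ?_ ?_ h1
      · rw [norm_neg, Complex.norm_conj]; exact hz
      · rw [Complex.neg_re, Complex.conj_re]; linarith
  have hg := zero_free_growth b T (C₃ * T) (by linarith) hT32 hCT f hf.differentiableOn
    (fun z hz => hall z (by have := mem_ball_zero_iff.mp hz; linarith))
    (fun z hz => hfT z (ball_subset_closedBall hz)) hfb hfb'
  have hfbpos : 0 < ‖f (b : ℂ)‖ := by linarith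
  have hlog : b / 2 + Real.log ‖f (b : ℂ)‖ ≤ Real.log ‖f (-(b : ℂ))‖ := by
    have h1 := Real.log_le_log (by positivity) hfe
    rw [Real.log_mul (Real.exp_pos _).ne' hfbpos.ne', Real.log_exp] at h1
    exact h1
  have hsmall : 100 * b ^ 2 * (C₃ * T + 1) / T ^ 2 ≤ b / 8 := by
    rw [div_le_iff₀ (by positivity)]
    have h4 : 100 * b ^ 2 * (C₃ * T + 1) ≤ 100 * b ^ 2 * (2 * (C₃ * T)) :=
      mul_le_mul_of_nonneg_left (by linarith) (by positivity)
    have h5 : 100 * b ^ 2 * (2 * (C₃ * T)) ≤ b / 8 * T ^ 2 := by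
      have h6 : 1600 * b * C₃ * (b * T) ≤ T * (b * T) := mul_le_mul_of_nonneg_right hTC (by positivity)
      have h7 : 100 * b ^ 2 * (2 * (C₃ * T)) = (1600 * b * C₃ * (b * T)) / 8 := by ring
      have h8 : b / 8 * T ^ 2 = (T * (b * T)) / 8 := by ring
      rw [h7, h8]
      linarith
    linarith
  linarith

end Pool.Agent.SO
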