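import Mathlib
import Pool.Agent.Lib.MP_9cfc0a_nt.SX.Defs3
import Pool.Agent.Lib.MP_9cfc0a_nt.Mg.G002

set_option autoImplicit false

namespace Pool.Agent.SO

open Complex MeasureTheory

/-- XR1. PROOF. The proof of `int_AA` (file SO/R1a.lean) with `AX`. -/
theorem int_AX (r : ℕ) (hr : 2 ≤ r) (χ : DirichletCharacter ℂ r) (N : ℕ) (U W t : ℝ) (m : ℕ)
    (hm : 2 ≤ m) :
    Integrable (fun t' : ℝ => ‖AX r χ N U W (pt r 0 t')‖ ^ 2 * kw r m t t') := by
  have hr1 : (1 : ℝ) < r := by exact_mod_cast (by omega : 1 < r)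
  have hL : 0 < Real.log r := Real.log_pos hr1
  unfold kw
  refine R1a_gen (Real.log r) hL t m 0 (by omega) (fun t' => AX r χ N U W (pt r 0 t')) ?_
    (∑ n ∈ Finset.Icc 1 N, ‖((ArithmeticFunction.vonMangoldt n *
      (th r U n - th r W n) : ℝ) : ℂ)‖) ?_
  · unfold AX
    refine continuous_finsetSum _ fun n hn => ?_
    rw [Finset.mem_Icc] at hn
    refine continuous_const.mul ?_
    refine Continuous.const_cpow (R1a_cont r).neg (Or.inl ?_)
    exact_mod_cast (by omega : n ≠ 0)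
  · intro t'
    rw [pow_zero, mul_one]
    unfold AX
    refine (norm_sum_le _ _).trans (Finset.sum_le_sum fun n hn => ?_)
    rw [Finset.mem_Icc] at hn
    rw [norm_mul, norm_mul]
    have h1 : ‖χ (n : ZMod r)‖ ≤ 1 := χ.norm_le_one _
    have h2 : ‖(n : ℂ) ^ (-(pt r 0 t'))‖ ≤ 1 := by
      rw [Complex.norm_natCast_cpow_of_pos (by omega), Complex.neg_re, R1a_re]
      apply Real.rpow_le_one_of_one_le_of_nonpos
      · exact_mod_cast hn.1
      · norm_num
    calc _ ≤ ‖((ArithmeticFunction.vonMangoldt n *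
      (th r U n - th r W n) : ℝ) : ℂ)‖ * 1 * 1 := by gcongr
      _ = _ := by ring

end Pool.Agent.SO
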