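import Mathlib

set_option autoImplicit false

namespace Pool.Agent.SO

open Complex MeasureTheory

/-- the cut-off with a long plateau -/
noncomputable def XS1_phi (L v : ℝ) : ℂ :=
  ((Real.smoothTransition (v + 1) * Real.smoothTransition (L - v) : ℝ) : ℂ)

theorem XS1_contDiff (L : ℝ) : ContDiff ℝ (⊤ : ℕ∞) (XS1_phi L) := by
  unfold XS1_phi
  exact Complex.ofRealCLM.contDiff.comp
    ((Real.smoothTransition.contDiff.comp (contDiff_id.add contDiff_const)).mul
      (Real.smoothTransition.contDiff.comp (contDiff_const.sub contDiff_id)))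

theorem XS1_tsupport (L : ℝ) (k : ℕ) :
    tsupport (iteratedDeriv k (XS1_phi L)) ⊆ Set.Icc (-1) L := by
  induction k with
  | zero =>
    rw [iteratedDeriv_zero]
    refine closure_minimal (fun v hv => ?_) isClosed_Icc
    by_contra hn
    rw [Set.mem_Icc, not_and_or, not_le, not_le] at hn
    refine hv ?_
    unfold XS1_phi
    rcases hn with h | h
    · rw [Real.smoothTransition.zero_of_nonpos (by linarith), zero_mul, Complex.ofReal_zero]
    · rw [Real.smoothTransition.zero_of_nonpos (x := L - v) (by linarith), mul_zero,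
        Complex.ofReal_zero]
  | succ k ih =>
    rw [iteratedDeriv_succ]
    exact closure_minimal (support_deriv_subset.trans ih) isClosed_Icc

theorem XS1_hcs (L : ℝ) (k : ℕ) : HasCompactSupport (iteratedDeriv k (XS1_phi L)) :=
  isCompact_Icc.of_isClosed_subset (isClosed_tsupport _) (XS1_tsupport L k)

theorem XS1_cont (L : ℝ) (k : ℕ) : Continuous (iteratedDeriv k (XS1_phi L)) :=
  (XS1_contDiff L).continuous_iteratedDeriv k (by exact_mod_cast le_top)

/-- Laplace transforms of the derivatives of the cut-off -/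
noncomputable def XS1_G (L : ℝ) (k : ℕ) (z : ℂ) : ℂ :=
  ∫ w : ℝ, iteratedDeriv k (XS1_phi L) w * Complex.exp (-(z * w))

theorem XS1_integrable (L : ℝ) (k : ℕ) (z : ℂ) :
    Integrable fun w : ℝ => iteratedDeriv k (XS1_phi L) w * Complex.exp (-(z * w)) := by
  refine Continuous.integrable_of_hasCompactSupport ?_ (XS1_hcs L k).mul_right
  exact (XS1_cont L k).mul (by fun_prop)

theorem XS1_step (L : ℝ) (k : ℕ) (z : ℂ) : z * XS1_G L k z = XS1_G L (k + 1) z := by
  have hd : ∀ w : ℝ, HasDerivAt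
      (fun w : ℝ => iteratedDeriv k (XS1_phi L) w * Complex.exp (-(z * w)))
      (iteratedDeriv (k + 1) (XS1_phi L) w * Complex.exp (-(z * w)) -
        z * (iteratedDeriv k (XS1_phi L) w * Complex.exp (-(z * w)))) w := by
    intro w
    have h1 : HasDerivAt (iteratedDeriv k (XS1_phi L)) (iteratedDeriv (k + 1) (XS1_phi L) w) w := by
      rw [iteratedDeriv_succ]
      have hdiff : Differentiable ℝ (iteratedDeriv k (XS1_phi L)) :=
        (XS1_contDiff L).differentiable_iteratedDeriv k (by exact_mod_cast WithTop.coe_lt_top k)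
      exact (hdiff w).hasDerivAt
    have h2 : HasDerivAt (fun w : ℝ => Complex.exp (-(z * w)))
        (Complex.exp (-(z * w)) * (-(z * 1))) w := by
      have h3 : HasDerivAt (fun w : ℝ => -(z * (w : ℂ))) (-(z * 1)) w :=
        ((Complex.ofRealCLM.hasDerivAt (x := w)).const_mul z).neg
      exact h3.cexp
    have h4 := h1.mul h2
    refine h4.congr_deriv ?_
    ring
  have h0 := integral_eq_zero_of_hasDerivAt_of_integrable hd
    ((XS1_integrable L (k + 1) z).sub ((XS1_integrable L k z).const_mul z)) (XS1_integrable L k z)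
  rw [integral_sub (XS1_integrable L (k + 1) z) ((XS1_integrable L k z).const_mul z),
    integral_const_mul] at h0
  unfold XS1_G
  exact (sub_eq_zero.1 h0).symm

theorem XS1_pow (L : ℝ) (k : ℕ) (z : ℂ) : z ^ k * XS1_G L 0 z = XS1_G L k z := by
  induction k with
  | zero => rw [pow_zero, one_mul]
  | succ k ih => rw [pow_succ', mul_assoc, ih, XS1_step]

/-- the `L¹` norm of the derivatives -/
noncomputable def XS1_A (L : ℝ) (k : ℕ) : ℝ := ∫ w : ℝ, ‖iteratedDeriv k (XS1_phi L) w‖

theorem XS1_A_nonneg (L : ℝ) (k : ℕ) : 0 ≤ XS1_A L k := integral_nonneg fun _ => norm_nonneg _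

theorem XS1_bound (L : ℝ) (k : ℕ) (z : ℂ) (U E : ℝ)
    (hE : ∀ w ∈ Set.Icc (-1) L, Real.exp (-(z.re * (w + U))) ≤ E) :
    ‖Complex.exp (-(z * U))‖ * ‖XS1_G L k z‖ ≤ E * XS1_A L k := by
  unfold XS1_G XS1_A
  refine (mul_le_mul_of_nonneg_left (norm_integral_le_integral_norm _) (norm_nonneg _)).trans ?_
  rw [← integral_const_mul, ← integral_const_mul]
  refine integral_mono ((XS1_integrable L k z).norm.const_mul _)
    (((XS1_cont L k).integrable_of_hasCompactSupport (XS1_hcs L k)).norm.const_mul _) fun w => ?_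
  change ‖Complex.exp (-(z * U))‖ * ‖iteratedDeriv k (XS1_phi L) w * Complex.exp (-(z * w))‖ ≤
    E * ‖iteratedDeriv k (XS1_phi L) w‖
  by_cases hw : iteratedDeriv k (XS1_phi L) w = 0
  · rw [hw, zero_mul, norm_zero, mul_zero, mul_zero]
  · have hmem := XS1_tsupport L k (subset_tsupport _ hw)
    have h1 : ‖Complex.exp (-(z * U))‖ * ‖Complex.exp (-(z * w))‖ =
        Real.exp (-(z.re * (w + U))) := by
      rw [Complex.norm_exp, Complex.norm_exp, ← Real.exp_add, Complex.neg_re, Complex.neg_re,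
        Complex.re_mul_ofReal, Complex.re_mul_ofReal]
      congr 1
      ring
    calc ‖Complex.exp (-(z * U))‖ * ‖iteratedDeriv k (XS1_phi L) w * Complex.exp (-(z * w))‖
        = (‖Complex.exp (-(z * U))‖ * ‖Complex.exp (-(z * w))‖) *
            ‖iteratedDeriv k (XS1_phi L) w‖ := by
          rw [norm_mul]
          ring
      _ = Real.exp (-(z.re * (w + U))) * ‖iteratedDeriv k (XS1_phi L) w‖ := by rw [h1]
      _ ≤ _ := mul_le_mul_of_nonneg_right (hE w hmem) (norm_nonneg _)

/-- All derivatives of the smooth transition are bounded. -/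
theorem XS1_st_bdd (k : ℕ) : ∃ D : ℝ, 0 ≤ D ∧
    ∀ v : ℝ, |iteratedDeriv k Real.smoothTransition v| ≤ D := by
  have hc : Continuous (iteratedDeriv k Real.smoothTransition) :=
    (Real.smoothTransition.contDiff (n := (⊤ : ℕ∞))).continuous_iteratedDeriv k
      (by exact_mod_cast le_top)
  obtain ⟨D, hD⟩ := (isCompact_Icc (a := (0 : ℝ)) (b := 1)).exists_bound_of_continuousOn
    hc.continuousOn
  refine ⟨|D| + 1, by positivity, fun v => ?_⟩
  by_cases h : v ∈ Set.Icc (0 : ℝ) 1
  · have h1 := hD v h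
    rw [Real.norm_eq_abs] at h1
    linarith [le_abs_self D]
  · have hD0 := abs_nonneg D
    rw [Set.mem_Icc, not_and_or, not_le, not_le] at h
    rcases h with h | h
    · have h1 : Real.smoothTransition =ᶠ[nhds v] fun _ => (0 : ℝ) := by
        filter_upwards [Iio_mem_nhds h] with w hw
        exact Real.smoothTransition.zero_of_nonpos (le_of_lt hw)
      rw [h1.iteratedDeriv_eq k, iteratedDeriv_const]
      split_ifs <;> simp <;> linarith
    · have h1 : Real.smoothTransition =ᶠ[nhds v] fun _ => (1 : ℝ) := by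
        filter_upwards [Ioi_mem_nhds h] with w hw
        exact Real.smoothTransition.one_of_one_le (le_of_lt hw)
      rw [h1.iteratedDeriv_eq k, iteratedDeriv_const]
      split_ifs <;> simp <;> linarith

/-- The cut-off as a sum; its derivatives. -/
theorem XS1_iter (L : ℝ) (hL : 1 ≤ L) (k : ℕ) : iteratedDeriv k (XS1_phi L) = fun v =>
    ((iteratedDeriv k Real.smoothTransition (v + 1) +
      (-1) ^ k * iteratedDeriv k Real.smoothTransition (L - v) - (if k = 0 then 1 else 0) : ℝ) :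
        ℂ) := by
  induction k with
  | zero =>
    rw [iteratedDeriv_zero]
    funext v
    unfold XS1_phi
    rw [iteratedDeriv_zero, if_pos rfl, pow_zero, one_mul]
    congr 1
    rcases le_total v 0 with h | h
    · rw [Real.smoothTransition.one_of_one_le (x := L - v) (by linarith)]
      ring
    · rw [Real.smoothTransition.one_of_one_le (x := v + 1) (by linarith)]
      ring
  | succ k ih =>
    rw [iteratedDeriv_succ, ih]
    funext v
    have hst : ∀ w, HasDerivAt (iteratedDeriv k Real.smoothTransition)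
        (iteratedDeriv (k + 1) Real.smoothTransition w) w := by
      intro w
      rw [iteratedDeriv_succ]
      have hdiff : Differentiable ℝ (iteratedDeriv k Real.smoothTransition) :=
        (Real.smoothTransition.contDiff (n := (⊤ : ℕ∞))).differentiable_iteratedDeriv k
          (by exact_mod_cast WithTop.coe_lt_top k)
      exact (hdiff w).hasDerivAt
    have h1 : HasDerivAt (fun v : ℝ => iteratedDeriv k Real.smoothTransition (v + 1))
        (iteratedDeriv (k + 1) Real.smoothTransition (v + 1)) v :=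
      (hst (v + 1)).comp_add_const v 1
    have h2 : HasDerivAt (fun v : ℝ => iteratedDeriv k Real.smoothTransition (L - v))
        (-iteratedDeriv (k + 1) Real.smoothTransition (L - v)) v :=
      (hst (L - v)).comp_const_sub L v
    have h3 := ((h1.add (h2.const_mul ((-1 : ℝ) ^ k))).sub_const
      (if k = 0 then (1 : ℝ) else 0)).ofReal_comp
    refine h3.deriv.trans ?_
    rw [if_neg (Nat.succ_ne_zero k), pow_succ]
    congr 1
    ring

theorem XS1_A_le (k : ℕ) : ∃ D : ℝ, 0 ≤ D ∧ ∀ L : ℝ, 1 ≤ L → XS1_A L k ≤ D * (L + 1) := by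
  obtain ⟨D, hD0, hD⟩ := XS1_st_bdd k
  refine ⟨2 * D + 1, by positivity, fun L hL => ?_⟩
  have hb : ∀ v, ‖iteratedDeriv k (XS1_phi L) v‖ ≤ 2 * D + 1 := by
    intro v
    rw [XS1_iter L hL k, Complex.norm_real, Real.norm_eq_abs]
    have h1 := abs_le.1 (hD (v + 1))
    have h2 : |(-1 : ℝ) ^ k * iteratedDeriv k Real.smoothTransition (L - v)| ≤ D := by
      rw [abs_mul, abs_pow, abs_neg, abs_one, one_pow, one_mul]
      exact hD _
    have h3 := abs_le.1 h2
    rw [abs_le]
    split_ifs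
    · constructor <;> linarith [h1.1, h1.2, h3.1, h3.2]
    · constructor <;> linarith [h1.1, h1.2, h3.1, h3.2]
  unfold XS1_A
  rw [← setIntegral_eq_integral_of_forall_compl_eq_zero (s := Set.Icc (-1) L) fun v hv => ?_]
  · have h1 : ∫ w in Set.Icc (-1) L, ‖iteratedDeriv k (XS1_phi L) w‖ ≤
        ∫ _ in Set.Icc (-1) L, (2 * D + 1) := by
      refine integral_mono_of_nonneg (Filter.Eventually.of_forall fun _ => norm_nonneg _) ?_
        (Filter.Eventually.of_forall hb)
      exact integrableOn_const (by simp)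
    refine h1.trans (le_of_eq ?_)
    rw [setIntegral_const, smul_eq_mul, Real.volume_real_Icc_of_le (by linarith)]
    ring
  · rw [norm_eq_zero]
    by_contra hne
    exact hv (XS1_tsupport L k (subset_tsupport _ hne))

/-- the function whose Fourier transform is the kernel -/
noncomputable def XS1_f (L U x v : ℝ) : ℂ := XS1_phi L (v - U) * Complex.exp (-((x * v : ℝ) : ℂ))

theorem XS1_phi_cont (L : ℝ) : Continuous (XS1_phi L) := by
  have := XS1_cont L 0
  rwa [iteratedDeriv_zero] at this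

theorem XS1_f_cont (L U x : ℝ) : Continuous (XS1_f L U x) := by
  unfold XS1_f
  exact ((XS1_phi_cont L).comp (continuous_id.sub continuous_const)).mul (by fun_prop)

theorem XS1_f_integrable (L U x : ℝ) : Integrable (XS1_f L U x) := by
  refine (XS1_f_cont L U x).integrable_of_hasCompactSupport ?_
  refine HasCompactSupport.of_support_subset_isCompact (K := Set.Icc (U - 1) (U + L))
    isCompact_Icc fun v hv => ?_
  have h1 : XS1_phi L (v - U) ≠ 0 := left_ne_zero_of_mul hv
  have h2 := XS1_tsupport L 0 (by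
    rw [iteratedDeriv_zero]
    exact subset_tsupport _ h1)
  exact ⟨by linarith [h2.1], by linarith [h2.2]⟩

open FourierTransform in
/-- The Fourier transform in terms of `XS1_G`. -/
theorem XS1_fourier (L U x ξ : ℝ) : 𝓕 (XS1_f L U x) ξ =
    Complex.exp (-(((x : ℂ) + 2 * Real.pi * ξ * I) * U)) *
      XS1_G L 0 ((x : ℂ) + 2 * Real.pi * ξ * I) := by
  rw [Real.fourier_real_eq_integral_exp_smul]
  unfold XS1_G
  rw [iteratedDeriv_zero, ← integral_const_mul]
  rw [← integral_sub_right_eq_self (fun w : ℝ =>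
    Complex.exp (-(((x : ℂ) + 2 * Real.pi * ξ * I) * U)) *
      (XS1_phi L w * Complex.exp (-(((x : ℂ) + 2 * Real.pi * ξ * I) * w)))) U]
  refine integral_congr_ae (Filter.Eventually.of_forall fun v => ?_)
  change Complex.exp (((-2 * Real.pi * v * ξ : ℝ) : ℂ) * I) •
      (XS1_phi L (v - U) * Complex.exp (-((x * v : ℝ) : ℂ))) =
    Complex.exp (-(((x : ℂ) + 2 * Real.pi * ξ * I) * U)) *
      (XS1_phi L (v - U) * Complex.exp (-(((x : ℂ) + 2 * Real.pi * ξ * I) * ((v - U : ℝ) : ℂ))))
  rw [smul_eq_mul]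
  have e : Complex.exp (((-2 * Real.pi * v * ξ : ℝ) : ℂ) * I) * Complex.exp (-((x * v : ℝ) : ℂ)) =
      Complex.exp (-(((x : ℂ) + 2 * Real.pi * ξ * I) * U)) *
        Complex.exp (-(((x : ℂ) + 2 * Real.pi * ξ * I) * ((v - U : ℝ) : ℂ))) := by
    rw [← Complex.exp_add, ← Complex.exp_add]
    congr 1
    push_cast
    ring
  linear_combination XS1_phi L (v - U) * e

open FourierTransform in
theorem XS1_decay (L U x E : ℝ)
    (hE : ∀ w ∈ Set.Icc (-1) L, Real.exp (-(x * (w + U))) ≤ E) (k : ℕ) (ξ : ℝ) :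
    |2 * Real.pi * ξ| ^ k * ‖𝓕 (XS1_f L U x) ξ‖ ≤ E * XS1_A L k := by
  set z : ℂ := (x : ℂ) + 2 * Real.pi * ξ * I with hz
  have hz' : z = (x : ℂ) + ((2 * Real.pi * ξ : ℝ) : ℂ) * I := by
    rw [hz]
    push_cast
    ring
  have hre : z.re = x := by rw [hz']; simp
  have him : z.im = 2 * Real.pi * ξ := by rw [hz']; simp
  have h1 : |2 * Real.pi * ξ| ≤ ‖z‖ := by
    rw [← him]
    exact Complex.abs_im_le_norm z
  have h2 := XS1_bound L k z U E (by rw [hre]; exact hE)
  rw [← XS1_pow, norm_mul, norm_pow] at h2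
  rw [XS1_fourier, ← hz, norm_mul]
  calc |2 * Real.pi * ξ| ^ k * (‖Complex.exp (-(z * U))‖ * ‖XS1_G L 0 z‖)
      ≤ ‖z‖ ^ k * (‖Complex.exp (-(z * U))‖ * ‖XS1_G L 0 z‖) :=
        mul_le_mul_of_nonneg_right (pow_le_pow_left₀ (abs_nonneg _) h1 k) (by positivity)
    _ = ‖Complex.exp (-(z * U))‖ * (‖z‖ ^ k * ‖XS1_G L 0 z‖) := by ring
    _ ≤ _ := h2

open FourierTransform in
theorem XS1_fourier_cont (L U x : ℝ) : Continuous (𝓕 (XS1_f L U x)) :=
  VectorFourier.fourierIntegral_continuous Real.continuous_fourierChar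
    (by exact continuous_inner) (XS1_f_integrable L U x)

open FourierTransform in
theorem XS1_fourier_integrable (L U x : ℝ) : Integrable (𝓕 (XS1_f L U x)) := by
  obtain ⟨C, hC0, hC⟩ : ∃ C : ℝ, 0 ≤ C ∧ ∀ ξ : ℝ, ‖𝓕 (XS1_f L U x) ξ‖ ≤ C * (1 + ξ ^ 2)⁻¹ := by
    have hE : ∀ w ∈ Set.Icc (-1) L, Real.exp (-(x * (w + U))) ≤
        Real.exp (|x| * (1 + |L| + |U|)) := by
      intro w hw
      rw [Real.exp_le_exp]
      have h1 : |w| ≤ 1 + |L| := by
        rw [abs_le]
        exact ⟨by linarith [hw.1, abs_nonneg L], by linarith [hw.2, le_abs_self L]⟩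
      have h2 : |x * (w + U)| ≤ |x| * (1 + |L| + |U|) := by
        rw [abs_mul]
        exact mul_le_mul_of_nonneg_left ((abs_add_le w U).trans (by linarith)) (abs_nonneg x)
      linarith [neg_abs_le (x * (w + U))]
    have hb := XS1_decay L U x _ hE
    refine ⟨Real.exp (|x| * (1 + |L| + |U|)) * XS1_A L 0 +
      Real.exp (|x| * (1 + |L| + |U|)) * XS1_A L 2, ?_, fun ξ => ?_⟩
    · have := XS1_A_nonneg L 0
      have := XS1_A_nonneg L 2
      positivity
    · have h0 := hb 0 ξ
      have h2 := hb 2 ξ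
      rw [pow_zero, one_mul] at h0
      rw [← div_eq_mul_inv, le_div_iff₀ (by positivity), mul_comm, add_mul, one_mul]
      refine add_le_add h0 (le_trans ?_ h2)
      refine mul_le_mul_of_nonneg_right ?_ (norm_nonneg _)
      rw [sq_abs]
      have hpi := Real.pi_gt_three
      have : (1 : ℝ) ≤ (2 * Real.pi) ^ 2 := by nlinarith
      calc ξ ^ 2 = 1 * ξ ^ 2 := by ring
        _ ≤ (2 * Real.pi) ^ 2 * ξ ^ 2 := mul_le_mul_of_nonneg_right this (sq_nonneg _)
        _ = _ := by ring
  exact (integrable_inv_one_add_sq.const_mul C).mono' (XS1_fourier_cont L U x).aestronglyMeasurable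
    (Filter.Eventually.of_forall hC)

theorem XS1_exp_le {η δ R U x : ℝ} (hη : 0 < η) (hη1 : η ≤ 1) (hδ1 : δ ≤ 1)
    (hR : 0 ≤ R) (hU : 0 ≤ U) (hx : -η ≤ x) (hx2 : x ≤ R) :
    ∀ w ∈ Set.Icc (-1) (δ * U + 11), Real.exp (-(x * (w + U))) ≤
      Real.exp (R + 11) * Real.exp (2 * η * U) := by
  intro w hw
  rw [← Real.exp_add, Real.exp_le_exp]
  have hw1 := hw.1
  have hw2 := hw.2
  have hδU : δ * U ≤ U := by nlinarith
  have hηU : 0 ≤ η * U := by positivity
  rcases le_total 0 x with h | h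
  · have h1 : x * (-1) ≤ x * (w + U) := mul_le_mul_of_nonneg_left (by linarith) h
    nlinarith
  · rcases le_total 0 (w + U) with h2 | h2
    · have h3 : (-x) * (w + U) ≤ η * (w + U) := mul_le_mul_of_nonneg_right (by linarith) h2
      have h4 : η * (w + U) ≤ η * (2 * U + 11) := mul_le_mul_of_nonneg_left (by linarith) hη.le
      nlinarith
    · have h3 : 0 ≤ x * (w + U) := mul_nonneg_of_nonpos_of_nonpos h h2
      nlinarith

/-- XS1. The frequency separating kernel, uniformly in `U ≥ 0`.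

PROOF. As `kernel` (file SO/S1.lean). Now
`Φ v = Real.smoothTransition (v - U + 1) * Real.smoothTransition ((1 + δ) * U + 11 - v)`: `= 1` on
`[U, (1+δ)U + 10]`, `= 0` for `v ≤ U - 1` and for `v ≥ (1+δ)U + 11`; `φ v = Φ v * exp (-x v)`,
`κ y = (1/(2π)) ∫ φ v exp (-I y v) dv`; Fourier inversion gives the values of `∫ κ y exp (I y v) dy = φ v`.
Bound: `2π |κ y| (1 + |y|)^m ≤ 2^m ∫ (|φ| + |φ^{(m)}|)`. All derivatives of `smoothTransition` up to order `m`
are bounded (by `D`, depending on `m` only: continuous and zero outside `[0,1]`), so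
`|φ^{(k)} v| ≤ D' (1 + |x|)^k exp (-x v)` on the support `[U - 1, (1+δ)U + 11]` (Leibniz), where
`exp (-x v) ≤ exp R` if `x ≥ 0` (`v ≥ -1`), `≤ exp (η ((1+δ)U + 11)) ≤ exp (2 η U + 11)` if `-η ≤ x < 0`
(and `v ≤ 0` or not). The length of the support is `δ U + 12 ≤ 12 (1 + U) ≤ (12/η) exp (η U)`
(`1 + U ≤ (1 + η U)/η ≤ exp (η U)/η`). So `|κ y| ≤ C exp (3 η U)/(1 + |y|)^m` with `C` depending on
`η, R, m` only. -/
theorem kernel_strip (η δ R : ℝ) (m : ℕ) (hη : 0 < η) (hη1 : η ≤ 1) (hδ : 0 < δ) (hδ1 : δ ≤ 1)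
    (hR : 0 ≤ R) : ∃ C : ℝ, 0 ≤ C ∧ ∀ U x : ℝ, 0 ≤ U → -η ≤ x → x ≤ R →
    ∃ κ : ℝ → ℂ, Continuous κ ∧
      (∀ y, ‖κ y‖ ≤ C * Real.exp (3 * η * U) / (1 + |y|) ^ m) ∧
      (∀ v : ℝ, U ≤ v → v ≤ (1 + δ) * U + 6 →
        ∫ y : ℝ, κ y * Complex.exp (I * y * v) = Complex.exp (-((x * v : ℝ) : ℂ))) ∧
      (∀ v : ℝ, (1 + δ) * U + 11 ≤ v → ∫ y : ℝ, κ y * Complex.exp (I * y * v) = 0) := by
  obtain ⟨D0, hD00, hD0⟩ := XS1_A_le 0
  obtain ⟨Dm, hDm0, hDm⟩ := XS1_A_le m
  have hpi := Real.pi_pos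
  refine ⟨2 ^ m * (12 / η * Real.exp (R + 11) * (D0 + Dm)), by positivity,
    fun U x hU hx hx2 => ?_⟩
  set L : ℝ := δ * U + 11 with hL
  have hδU : 0 ≤ δ * U := by positivity
  have hδU' : δ * U ≤ U := by nlinarith
  have hL1 : 1 ≤ L := by linarith
  have hinv : ∀ v : ℝ, ∫ y : ℝ, (((1 / (2 * Real.pi) : ℝ) : ℂ) *
      FourierTransform.fourier (XS1_f L U x) (y / (2 * Real.pi))) * Complex.exp (I * y * v) =
        XS1_f L U x v := by
    intro v
    have h1 := Measure.integral_comp_div (fun ξ : ℝ => ((1 / (2 * Real.pi) : ℝ) : ℂ) *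
      FourierTransform.fourier (XS1_f L U x) ξ * Complex.exp (I * ((2 * Real.pi * ξ : ℝ) : ℂ) * v))
      (2 * Real.pi)
    have h2 : ∀ y : ℝ, 2 * Real.pi * (y / (2 * Real.pi)) = y := by
      intro y
      field_simp
    simp only [h2] at h1
    rw [h1]
    have h3 := (XS1_f_integrable L U x).fourierInv_fourier_eq (XS1_fourier_integrable L U x)
      (v := v) (XS1_f_cont L U x).continuousAt
    rw [← h3, Real.fourierInv_eq', ← integral_smul]
    refine integral_congr_ae (Filter.Eventually.of_forall fun ξ => ?_)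
    change |2 * Real.pi| • (((1 / (2 * Real.pi) : ℝ) : ℂ) *
      FourierTransform.fourier (XS1_f L U x) ξ *
        Complex.exp (I * ((2 * Real.pi * ξ : ℝ) : ℂ) * v)) =
      Complex.exp (((2 * Real.pi * inner ℝ ξ v : ℝ) : ℂ) * I) •
        FourierTransform.fourier (XS1_f L U x) ξ
    have e1 : inner ℝ ξ v = ξ * v := by
      simp [mul_comm]
    have e2 : Complex.exp (I * ((2 * Real.pi * ξ : ℝ) : ℂ) * v) =
        Complex.exp (((2 * Real.pi * (ξ * v) : ℝ) : ℂ) * I) := by
      congr 1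
      push_cast
      ring
    rw [e1, e2, abs_of_pos (by positivity), Complex.real_smul, smul_eq_mul]
    have e3 : ((2 * Real.pi : ℝ) : ℂ) * ((1 / (2 * Real.pi) : ℝ) : ℂ) = 1 := by
      rw [← Complex.ofReal_mul, mul_one_div_cancel (by positivity), Complex.ofReal_one]
    linear_combination (FourierTransform.fourier (XS1_f L U x) ξ *
      Complex.exp (((2 * Real.pi * (ξ * v) : ℝ) : ℂ) * I)) * e3
  have hE := XS1_exp_le hη hη1 hδ1 hR hU hx hx2
  have hlen : L + 1 ≤ 12 / η * Real.exp (η * U) := by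
    have h1 : L + 1 ≤ 12 * (1 + U) := by linarith
    have h2 : 1 + U ≤ (1 + η * U) / η := by
      rw [le_div_iff₀ hη]
      nlinarith
    have h3 : η * U + 1 ≤ Real.exp (η * U) := Real.add_one_le_exp _
    calc L + 1 ≤ 12 * (1 + U) := h1
      _ ≤ 12 * ((1 + η * U) / η) := by linarith
      _ = 12 / η * (η * U + 1) := by ring
      _ ≤ _ := mul_le_mul_of_nonneg_left h3 (by positivity)
  have hdec : ∀ k (D : ℝ), 0 ≤ D → (∀ L : ℝ, 1 ≤ L → XS1_A L k ≤ D * (L + 1)) → ∀ ξ : ℝ,
      |2 * Real.pi * ξ| ^ k * ‖FourierTransform.fourier (XS1_f L U x) ξ‖ ≤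
        12 / η * Real.exp (R + 11) * D * Real.exp (3 * η * U) := by
    intro k D hDn hDk ξ
    refine (XS1_decay L U x _ hE k ξ).trans ?_
    have h1 : XS1_A L k ≤ D * (12 / η * Real.exp (η * U)) :=
      (hDk L hL1).trans (mul_le_mul_of_nonneg_left hlen hDn)
    refine (mul_le_mul_of_nonneg_left h1 (by positivity)).trans (le_of_eq ?_)
    have h2 : Real.exp (3 * η * U) = Real.exp (2 * η * U) * Real.exp (η * U) := by
      rw [← Real.exp_add]
      congr 1
      ring
    rw [h2]
    ring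
  refine ⟨fun y => ((1 / (2 * Real.pi) : ℝ) : ℂ) *
    FourierTransform.fourier (XS1_f L U x) (y / (2 * Real.pi)), ?_, fun y => ?_,
    fun v hv hv' => ?_, fun v hv => ?_⟩
  · exact continuous_const.mul ((XS1_fourier_cont L U x).comp (continuous_id.div_const _))
  · have h0 := hdec 0 D0 hD00 hD0 (y / (2 * Real.pi))
    have hm := hdec m Dm hDm0 hDm (y / (2 * Real.pi))
    have h2 : 2 * Real.pi * (y / (2 * Real.pi)) = y := by field_simp
    rw [pow_zero, one_mul] at h0
    rw [h2] at hm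
    have hc : ‖((1 / (2 * Real.pi) : ℝ) : ℂ)‖ ≤ 1 := by
      rw [Complex.norm_real, Real.norm_of_nonneg (by positivity), div_le_one (by positivity)]
      linarith [Real.pi_gt_three]
    rw [le_div_iff₀ (by positivity)]
    have hadd : (1 + |y|) ^ m ≤ 2 ^ m * (1 + |y| ^ m) := by
      rcases le_total |y| 1 with h | h
      · calc (1 + |y|) ^ m ≤ (2 : ℝ) ^ m := pow_le_pow_left₀ (by positivity) (by linarith) m
          _ ≤ 2 ^ m * (1 + |y| ^ m) := by
            have : (0 : ℝ) ≤ |y| ^ m := by positivity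
            nlinarith [pow_pos (two_pos : (0 : ℝ) < 2) m]
      · calc (1 + |y|) ^ m ≤ (2 * |y|) ^ m := pow_le_pow_left₀ (by positivity) (by linarith) m
          _ = 2 ^ m * |y| ^ m := mul_pow _ _ _
          _ ≤ 2 ^ m * (1 + |y| ^ m) := by
            have := pow_pos (two_pos : (0 : ℝ) < 2) m
            nlinarith
    change ‖((1 / (2 * Real.pi) : ℝ) : ℂ) *
      FourierTransform.fourier (XS1_f L U x) (y / (2 * Real.pi))‖ * (1 + |y|) ^ m ≤ _
    rw [norm_mul]
    set F : ℝ := ‖FourierTransform.fourier (XS1_f L U x) (y / (2 * Real.pi))‖ with hF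
    have hF0 : 0 ≤ F := norm_nonneg _
    calc ‖((1 / (2 * Real.pi) : ℝ) : ℂ)‖ * F * (1 + |y|) ^ m
        ≤ 1 * F * (2 ^ m * (1 + |y| ^ m)) := by
          refine mul_le_mul (mul_le_mul_of_nonneg_right hc hF0) hadd (by positivity) (by positivity)
      _ = 2 ^ m * (F + |y| ^ m * F) := by ring
      _ ≤ 2 ^ m * (12 / η * Real.exp (R + 11) * D0 * Real.exp (3 * η * U) +
            12 / η * Real.exp (R + 11) * Dm * Real.exp (3 * η * U)) :=
          mul_le_mul_of_nonneg_left (add_le_add h0 hm) (by positivity)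
      _ = _ := by ring
  · rw [hinv v]
    unfold XS1_f XS1_phi
    rw [Real.smoothTransition.one_of_one_le (x := v - U + 1) (by linarith),
      Real.smoothTransition.one_of_one_le (x := L - (v - U)) (by linarith)]
    simp
  · rw [hinv v]
    unfold XS1_f XS1_phi
    rw [Real.smoothTransition.zero_of_nonpos (x := L - (v - U)) (by linarith)]
    simp

end Pool.Agent.SO
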