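import Mathlib
import Pool.Agent.Lib.MP_9cfc0a_nt.Mg.G002
import Pool.Agent.Lib.MP_9cfc0a_nt.SX.Defs3

set_option autoImplicit false

namespace Pool.Agent.SO

open Complex MeasureTheory Pool.Agent.MC.C2

/-- XS3a. The finite rearrangement of `Gtx`. PROOF. The proof of `Gt_eq` (file SO/S3.lean) with `Y` in
place of `r^(U+4)`. -/
theorem Gtx_eq (r : ℕ) (hr : 2 ≤ r) (χ : DirichletCharacter ℂ r) (N : ℕ) (U Y : ℝ) (hY : 1 ≤ Y)
    (hN : 2 * Y ≤ N) (s : ℂ) :
    Gtx r χ N U Y s =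
      (∑ k ∈ Finset.Icc 1 N, χ k * ((vv (k / Y) * Real.log k : ℝ) : ℂ) * (k : ℂ) ^ (-s)) -
      ∑ d ∈ Finset.Icc 1 N, ((ArithmeticFunction.vonMangoldt d * (1 - th r U d) : ℝ) : ℂ) * χ d *
        (d : ℂ) ^ (-s) *
        ∑ m ∈ Finset.Icc 1 N, χ m * ((vv (m / (Y / d)) : ℝ) : ℂ) * (m : ℂ) ^ (-s) := by
  have hYpos : 0 < Y := by linarith
  set c : ℕ → ℂ := fun d => ((ArithmeticFunction.vonMangoldt d * (1 - th r U d) : ℝ) : ℂ) with hc
  set φ : ℕ → ℂ := fun k => χ k * ((vv (k / Y) : ℝ) : ℂ) * (k : ℂ) ^ (-s) with hφ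
  have hφ0 : ∀ k, N < k → φ k = 0 := by
    intro k hk
    have h1 : vv ((k : ℝ) / Y) = 0 := by
      apply S3_vv_zero
      rw [le_div_iff₀ hYpos]
      refine hN.trans ?_
      exact_mod_cast hk.le
    simp only [hφ]
    rw [h1]
    simp
  have h2 : ∀ d ∈ Finset.Icc 1 N, c d * χ d * (d : ℂ) ^ (-s) *
        ∑ m ∈ Finset.Icc 1 N, χ m * ((vv (m / (Y / d)) : ℝ) : ℂ) * (m : ℂ) ^ (-s) =
      ∑ k ∈ Finset.Icc 1 N, if d ∣ k then c d * φ k else 0 := by
    intro d hd
    rw [Finset.mem_Icc] at hd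
    have hd0 : (d : ℝ) ≠ 0 := by exact_mod_cast (by omega : d ≠ 0)
    have h3 : ∑ k ∈ Finset.Icc 1 N, (if d ∣ k then c d * φ k else 0) =
        c d * ∑ k ∈ Finset.Icc 1 N, if d ∣ k then φ k else 0 := by
      rw [Finset.mul_sum]
      refine Finset.sum_congr rfl fun k _ => ?_
      split_ifs
      · rfl
      · rw [mul_zero]
    rw [h3, ← S3_reindex N d hd.1 φ hφ0, Finset.mul_sum, Finset.mul_sum]
    refine Finset.sum_congr rfl fun m hm => ?_
    have h4 : ((d * m : ℕ) : ℝ) / Y = m / (Y / d) := by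
      push_cast
      field_simp
    have h5 : ((d * m : ℕ) : ℂ) ^ (-s) = (d : ℂ) ^ (-s) * (m : ℂ) ^ (-s) := by
      rw [Nat.cast_mul, Complex.natCast_mul_natCast_cpow]
    have h6 : χ ((d * m : ℕ) : ZMod r) = χ (d : ZMod r) * χ (m : ZMod r) := by
      rw [Nat.cast_mul, map_mul]
    simp only [hφ]
    rw [h4, h5, h6]
    ring
  rw [Finset.sum_congr rfl h2, Finset.sum_comm, ← Finset.sum_sub_distrib]
  unfold Gtx
  refine Finset.sum_congr rfl fun k hk => ?_
  rw [Finset.mem_Icc] at hk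
  have hk0 : k ≠ 0 := by omega
  have h7 : ∑ d ∈ Finset.Icc 1 N, (if d ∣ k then c d * φ k else 0) =
      (∑ d ∈ k.divisors, c d) * φ k := by
    rw [← Finset.sum_filter, Finset.sum_mul]
    refine Finset.sum_congr ?_ fun _ _ => rfl
    ext d
    rw [Finset.mem_filter, Finset.mem_Icc, Nat.mem_divisors]
    constructor
    · rintro ⟨_, h⟩
      exact ⟨h, hk0⟩
    · rintro ⟨h, _⟩
      refine ⟨⟨Nat.pos_of_dvd_of_pos h hk.1, (Nat.le_of_dvd hk.1 h).trans hk.2⟩, h⟩
  have h8 : ((Real.log k : ℝ) : ℂ) - ∑ d ∈ k.divisors, c d = ((cU r U k : ℝ) : ℂ) := by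
    rw [← ArithmeticFunction.vonMangoldt_sum]
    unfold cU
    simp only [hc]
    rw [← Complex.ofReal_sum, ← Complex.ofReal_sub, ← Finset.sum_sub_distrib]
    congr 1
    refine Finset.sum_congr rfl fun d _ => ?_
    ring
  rw [h7, Complex.ofReal_mul, ← h8, Complex.ofReal_mul]
  simp only [hφ]
  ring

/-- XS3b. PROOF. The proof of `Gt_support` (file SO/S3.lean) with `Z` in place of `U + 4`. -/
theorem Gtx_support (r : ℕ) (hr : 2 ≤ r) (U Z : ℝ) (k : ℕ) (hk : 1 ≤ k)
    (h : cU r U k * vv (k / (r : ℝ) ^ Z) ≠ 0) :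
    U ≤ Real.log k / Real.log r ∧ Real.log k / Real.log r ≤ Z + 1 := by
  have hr1 : (1 : ℝ) < r := by exact_mod_cast (by omega : 1 < r)
  have hr0 : (0 : ℝ) < r := by linarith
  have hL : 0 < Real.log r := Real.log_pos hr1
  have hkpos : (0 : ℝ) < k := by exact_mod_cast hk
  constructor
  · by_contra hlt
    rw [not_le] at hlt
    apply h
    have h1 : cU r U k = 0 := by
      unfold cU
      refine Finset.sum_eq_zero fun d hd => ?_
      have hdk : d ≤ k := Nat.divisor_le hd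
      have hd1 : 1 ≤ d := Nat.pos_of_mem_divisors hd
      have hd0 : (0 : ℝ) < d := by exact_mod_cast hd1
      have h2 : Real.log d ≤ Real.log k := Real.log_le_log hd0 (by exact_mod_cast hdk)
      have h3 : Real.log d / Real.log r ≤ Real.log k / Real.log r :=
        div_le_div_of_nonneg_right h2 hL.le
      have h4 : th r U d = 0 := by
        unfold th
        exact Real.smoothTransition.zero_of_nonpos (by linarith)
      rw [h4, mul_zero]
    rw [h1, zero_mul]
  · by_contra hlt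
    rw [not_le] at hlt
    apply h
    have h1 : vv ((k : ℝ) / (r : ℝ) ^ (Z)) = 0 := by
      apply S3_vv_zero
      have hp : 0 < (r : ℝ) ^ (Z) := Real.rpow_pos_of_pos hr0 _
      rw [le_div_iff₀ hp]
      have h2 : (r : ℝ) ^ (Z + 1) ≤ k := by
        rw [lt_div_iff₀ hL] at hlt
        rw [Real.rpow_def_of_pos hr0]
        have h3 : Real.exp (Real.log r * (Z + 1)) ≤ Real.exp (Real.log k) := by
          apply Real.exp_le_exp.2
          rw [mul_comm]
          exact hlt.le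
        rwa [Real.exp_log hkpos] at h3
      have h3 : (r : ℝ) ^ (Z + 1) = r * (r : ℝ) ^ (Z) := by
        rw [show Z + 1 = 1 + Z by ring, Real.rpow_add hr0, Real.rpow_one]
      have h4 : (2 : ℝ) ≤ r := by exact_mod_cast hr
      nlinarith
    rw [h1, mul_zero]

end Pool.Agent.SO
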