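import Mathlib
import Pool.Agent.Lib.MP_9cfc0a_nt.Mg.G006
import Pool.Agent.Lib.MP_9cfc0a_nt.SX.Defs3
import Pool.Agent.Lib.MP_9cfc0a_nt.SX.XS3

set_option autoImplicit false

namespace Pool.Agent.SO

open Complex MeasureTheory Pool.Agent.MC.C2

/-- XS4. `G_U` is `Gtx` (cut at `Y = r^((1+δ)U+5)`) up to a tiny error, uniformly in `U ≥ 0`.

PROOF. As `GG_approx` (file SO/S4.lean). Let `k` be an integer with `k ≥ 4` and `k δ ≥ 3`, `J = k + 1`,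
`Y = r^((1+δ)U+5)`. By `Gtx_eq` (`r^((1+δ)U+6) ≥ 2 Y`)
`GG - Gtx = -[L'(s) + ∑ χ(k') vv(k'/Y) log k' k'^(-s)] - ∑_d c_d χ(d) d^(-s) [L(s) - ∑_m χ(m) vv(m/(Y/d)) m^(-s)]`,
`0 ≤ c_d ≤ d`, `c_d = 0` for `d ≥ r^(U+1)`. First bracket (`smooth_approx_deriv k`): at most
`C (r (‖s‖+1))^(k+1) Y^(-k) = C (‖s‖+1)^(k+1) r^(k + 1 - k((1+δ)U + 5))`. Second (`smooth_approx k`; `Y/d ≥ r^(δU+4)` for
`d < r^(U+1)`, the sum of the `c_d` is at most `r^(2U+2)`):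
`C (‖s‖+1)^(k+1) r^(2U + 2 + k + 1 - k (δ U + 4))`. Exponents: `k + 1 - 5k - k(1+δ) U ≤ -1 - U` and
`2U + 3 - 3k - kδ U ≤ 3 - 3k - U ≤ -1 - U`. -/
theorem GG_approx_x (δ : ℝ) (hδ : 0 < δ) (hδ1 : δ ≤ 1) : ∃ (J : ℕ) (C : ℝ), 0 ≤ C ∧
    ∀ (r : ℕ) [NeZero r], 2 ≤ r → ∀ χ : DirichletCharacter ℂ r, χ ≠ 1 → ∀ U : ℝ, 0 ≤ U → ∀ N : ℕ,
    (r : ℝ) ^ ((1 + δ) * U + 6) ≤ N → ∀ s : ℂ, 1 / 4 ≤ s.re → s.re ≤ 1 →
    ‖GG r χ N U s - Gtx r χ N U ((r : ℝ) ^ ((1 + δ) * U + 5)) s‖ ≤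
      C * (‖s‖ + 1) ^ J * (r : ℝ) ^ (-(U + 1)) := by
  obtain ⟨C₁, hC₁, h₁⟩ := smooth_approx_deriv (⌈3 / δ⌉₊ + 4)
  obtain ⟨C₂, hC₂, h₂⟩ := smooth_approx (⌈3 / δ⌉₊ + 4)
  set k : ℕ := ⌈3 / δ⌉₊ + 4 with hk
  have hkB : 3 / δ + 4 ≤ (k : ℝ) := by
    rw [hk]; push_cast
    linarith [Nat.le_ceil (3 / δ)]
  have hk4 : (4 : ℝ) ≤ k := by
    have : 0 < 3 / δ := by positivity
    linarith
  have hkd : 3 ≤ (k : ℝ) * δ := by
    have h1 : 3 / δ ≤ (k : ℝ) := by linarith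
    rwa [div_le_iff₀ hδ] at h1
  refine ⟨k + 1, C₁ + C₂, by positivity, ?_⟩
  intro r _ hr χ hχ U hU0 N hN s hs1 hs2
  have hx2 : (2 : ℝ) ≤ r := by exact_mod_cast hr
  have hx0 : (0 : ℝ) < r := by linarith
  have hx1 : (1 : ℝ) ≤ r := by linarith
  have hlr : 0 < Real.log r := Real.log_pos (by linarith)
  set x : ℝ := (r : ℝ) with hx
  set Y : ℝ := x ^ ((1 + δ) * U + 5) with hY
  have hk0 : (0 : ℝ) ≤ k := Nat.cast_nonneg k
  have hY1 : 1 ≤ Y := Real.one_le_rpow hx1 (by positivity)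
  have hY0 : 0 < Y := by linarith
  have hN2 : 2 * Y ≤ N := by
    refine le_trans ?_ hN
    have e1 : x ^ ((1 + δ) * U + 6) = x * x ^ ((1 + δ) * U + 5) := by
      rw [show (1 + δ) * U + 6 = 1 + ((1 + δ) * U + 5) by ring, Real.rpow_add hx0, Real.rpow_one]
    rw [e1]
    exact mul_le_mul_of_nonneg_right hx2 hY0.le
  have hns : 0 ≤ ‖s‖ := norm_nonneg s
  set σ : ℝ := (‖s‖ + 1) ^ (k + 1) with hσ
  have hσ0 : 0 ≤ σ := by positivity
  have hpow : (x * (‖s‖ + 1)) ^ (k + 1) = x ^ ((k : ℝ) + 1) * σ := by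
    rw [mul_pow, ← Real.rpow_natCast x (k + 1)]
    push_cast
    rfl
  -- first bracket
  set E1 : ℂ := deriv χ.LFunction s + ∑ n ∈ Finset.Icc 1 N,
        χ n * ((vv (n / Y) * Real.log n : ℝ) : ℂ) * (n : ℂ) ^ (-s) with hE1
  have b1 : ‖E1‖ ≤ C₁ * σ * x ^ (-(U + 1)) := by
    have e1 := h₁ r χ hχ s hs1 (by linarith) Y hY1 N hN2
    rw [hpow] at e1
    refine e1.trans ?_
    have e2 : x ^ ((k : ℝ) + 1) * Y ^ (-(k : ℝ)) ≤ x ^ (-(U + 1)) := by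
      rw [hY, ← Real.rpow_mul hx0.le, ← Real.rpow_add hx0]
      apply Real.rpow_le_rpow_of_exponent_le hx1
      have e3 : 0 ≤ U * ((k : ℝ) - 1) := mul_nonneg hU0 (by linarith)
      have e4 : 0 ≤ U * ((k : ℝ) * δ) := mul_nonneg hU0 (by linarith)
      nlinarith
    calc C₁ * (x ^ ((k : ℝ) + 1) * σ) * Y ^ (-(k : ℝ)) = C₁ * σ * (x ^ ((k : ℝ) + 1) * Y ^ (-(k : ℝ))) := by ring
      _ ≤ C₁ * σ * x ^ (-(U + 1)) := by gcongr
  -- the terms of the second sum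
  have hth : ∀ d : ℕ, 0 ≤ th r U d ∧ th r U d ≤ 1 := fun d =>
    ⟨Real.smoothTransition.nonneg _, Real.smoothTransition.le_one _⟩
  set bd : ℝ := x ^ (U + 1) * (C₂ * σ * x ^ ((k : ℝ) + 1 - (δ * U + 4) * k)) with hbd
  have hbd0 : 0 ≤ bd := by positivity
  have hterm : ∀ d ∈ Finset.Icc 1 N,
      ‖((ArithmeticFunction.vonMangoldt d * (1 - th r U d) : ℝ) : ℂ) * χ d * (d : ℂ) ^ (-s) *
        (χ.LFunction s - ∑ m ∈ Finset.Icc 1 N, χ m * ((vv (m / (Y / d)) : ℝ) : ℂ) * (m : ℂ) ^ (-s))‖ ≤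
        if (d : ℝ) ≤ x ^ (U + 1) then bd else 0 := by
    intro d hd
    obtain ⟨hd1, hdN⟩ := Finset.mem_Icc.mp hd
    have hd0 : (0 : ℝ) < d := by exact_mod_cast hd1
    split_ifs with hdx
    · have hYd : x ^ (δ * U + 4) ≤ Y / d := by
        rw [le_div_iff₀ hd0]
        calc x ^ (δ * U + 4) * d ≤ x ^ (δ * U + 4) * x ^ (U + 1) := by gcongr
          _ = Y := by rw [← Real.rpow_add hx0, hY]; congr 1; ring
      have hYd1 : 1 ≤ Y / d := (Real.one_le_rpow hx1 (by positivity)).trans hYd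
      have hYdN : 2 * (Y / d) ≤ N := by
        refine le_trans ?_ hN2
        have : Y / d ≤ Y := div_le_self hY0.le (by exact_mod_cast hd1)
        linarith
      have e1 := h₂ r χ hχ s (by linarith) (by linarith) (Y / d) hYd1 N hYdN
      rw [hpow] at e1
      have e2 : (Y / d) ^ (-(k : ℝ)) ≤ x ^ (-((δ * U + 4) * (k : ℝ))) := by
        calc (Y / d) ^ (-(k : ℝ)) ≤ (x ^ (δ * U + 4)) ^ (-(k : ℝ)) :=
              Real.rpow_le_rpow_of_nonpos (by positivity) hYd (by linarith)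
          _ = x ^ (-((δ * U + 4) * (k : ℝ))) := by rw [← Real.rpow_mul hx0.le]; congr 1; ring
      have e3 : ‖χ.LFunction s - ∑ m ∈ Finset.Icc 1 N, χ m * ((vv (m / (Y / d)) : ℝ) : ℂ) * (m : ℂ) ^ (-s)‖ ≤
          C₂ * σ * x ^ ((k : ℝ) + 1 - (δ * U + 4) * k) := by
        refine e1.trans ?_
        calc C₂ * (x ^ ((k : ℝ) + 1) * σ) * (Y / d) ^ (-(k : ℝ)) ≤ C₂ * (x ^ ((k : ℝ) + 1) * σ) * x ^ (-((δ * U + 4) * (k : ℝ))) := by gcongr
          _ = C₂ * σ * (x ^ ((k : ℝ) + 1) * x ^ (-((δ * U + 4) * (k : ℝ)))) := by ring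
          _ = C₂ * σ * x ^ ((k : ℝ) + 1 - (δ * U + 4) * k) := by
              rw [← Real.rpow_add hx0]; congr 2
      have e4 : ‖((ArithmeticFunction.vonMangoldt d * (1 - th r U d) : ℝ) : ℂ) * χ d * (d : ℂ) ^ (-s)‖ ≤ x ^ (U + 1) := by
        rw [norm_mul, norm_mul, Complex.norm_real, Real.norm_of_nonneg
          (mul_nonneg ArithmeticFunction.vonMangoldt_nonneg (by linarith [(hth d).2]))]
        have f1 : ‖χ d‖ ≤ 1 := χ.norm_le_one _
        have f2 : ‖(d : ℂ) ^ (-s)‖ ≤ 1 := by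
          rw [Complex.norm_natCast_cpow_of_pos hd1]
          apply Real.rpow_le_one_of_one_le_of_nonpos (by exact_mod_cast hd1)
          rw [Complex.neg_re]; linarith
        have f3 : ArithmeticFunction.vonMangoldt d ≤ d := by
          refine ArithmeticFunction.vonMangoldt_le_log.trans ?_
          have := Real.log_le_sub_one_of_pos hd0
          linarith
        have f4 : ArithmeticFunction.vonMangoldt d * (1 - th r U d) ≤ d := by
          have g1 : (0 : ℝ) ≤ ArithmeticFunction.vonMangoldt d := ArithmeticFunction.vonMangoldt_nonneg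
          nlinarith [(hth d).1, (hth d).2]
        calc ArithmeticFunction.vonMangoldt d * (1 - th r U d) * ‖χ d‖ * ‖(d : ℂ) ^ (-s)‖ ≤ (d : ℝ) * 1 * 1 := by
              gcongr
          _ ≤ x ^ (U + 1) := by linarith
      rw [norm_mul, hbd]
      exact mul_le_mul e4 e3 (norm_nonneg _) (by positivity)
    · push Not at hdx
      have : th r U d = 1 := by
        unfold th
        apply Real.smoothTransition.one_of_one_le
        have e1 : (U + 1) * Real.log r < Real.log d := by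
          rw [← Real.log_rpow hx0]
          exact Real.log_lt_log (by positivity) hdx
        have e2 : U + 1 < Real.log d / Real.log r := by
          rw [lt_div_iff₀ hlr]; exact e1
        linarith
      rw [this]
      simp
  have hsum2 : ∑ d ∈ Finset.Icc 1 N, (if (d : ℝ) ≤ x ^ (U + 1) then bd else 0) ≤ x ^ (U + 1) * bd := by
    rw [← Finset.sum_filter, Finset.sum_const, nsmul_eq_mul]
    refine mul_le_mul_of_nonneg_right ?_ hbd0
    have hsub : (Finset.Icc 1 N).filter (fun d : ℕ => (d : ℝ) ≤ x ^ (U + 1)) ⊆ Finset.Icc 1 ⌊x ^ (U + 1)⌋₊ := by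
      intro d hd
      rw [Finset.mem_filter, Finset.mem_Icc] at hd
      rw [Finset.mem_Icc]
      exact ⟨hd.1.1, Nat.le_floor hd.2⟩
    have h3 := Finset.card_le_card hsub
    rw [Nat.card_Icc, Nat.add_sub_cancel] at h3
    calc (((Finset.Icc 1 N).filter (fun d : ℕ => (d : ℝ) ≤ x ^ (U + 1))).card : ℝ) ≤ (⌊x ^ (U + 1)⌋₊ : ℝ) := by exact_mod_cast h3
      _ ≤ x ^ (U + 1) := Nat.floor_le (by positivity)
  have hfin : x ^ (U + 1) * bd ≤ C₂ * σ * x ^ (-(U + 1)) := by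
    have e1 : x ^ (U + 1) * bd =
        C₂ * σ * (x ^ (U + 1) * x ^ (U + 1) * x ^ ((k : ℝ) + 1 - (δ * U + 4) * k)) := by
      rw [hbd]; ring
    rw [e1, ← Real.rpow_add hx0, ← Real.rpow_add hx0]
    have e2 : x ^ (U + 1 + (U + 1) + ((k : ℝ) + 1 - (δ * U + 4) * k)) ≤ x ^ (-(U + 1)) := by
      apply Real.rpow_le_rpow_of_exponent_le hx1
      have e4 : 3 * U ≤ U * ((k : ℝ) * δ) := by
        have := mul_le_mul_of_nonneg_left hkd hU0
        linarith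
      nlinarith
    gcongr
  have hdec : GG r χ N U s - Gtx r χ N U Y s = -E1 - ∑ d ∈ Finset.Icc 1 N,
      ((ArithmeticFunction.vonMangoldt d * (1 - th r U d) : ℝ) : ℂ) * χ d * (d : ℂ) ^ (-s) *
        (χ.LFunction s - ∑ m ∈ Finset.Icc 1 N, χ m * ((vv (m / (Y / d)) : ℝ) : ℂ) * (m : ℂ) ^ (-s)) := by
    rw [Gtx_eq r hr χ N U Y hY1 hN2 s, hE1]
    unfold GG PP
    simp only [mul_sub, Finset.sum_sub_distrib]
    rw [← Finset.sum_mul]
    ring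
  rw [hdec]
  calc ‖-E1 - ∑ d ∈ Finset.Icc 1 N,
      ((ArithmeticFunction.vonMangoldt d * (1 - th r U d) : ℝ) : ℂ) * χ d * (d : ℂ) ^ (-s) *
        (χ.LFunction s - ∑ m ∈ Finset.Icc 1 N, χ m * ((vv (m / (Y / d)) : ℝ) : ℂ) * (m : ℂ) ^ (-s))‖
      ≤ ‖E1‖ + x ^ (U + 1) * bd := by
        refine (norm_sub_le _ _).trans ?_
        rw [norm_neg]
        exact add_le_add le_rfl ((norm_sum_le _ _).trans ((Finset.sum_le_sum hterm).trans hsum2))
    _ ≤ C₁ * σ * x ^ (-(U + 1)) + C₂ * σ * x ^ (-(U + 1)) := add_le_add b1 hfin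
    _ = (C₁ + C₂) * σ * x ^ (-(U + 1)) := by ring

end Pool.Agent.SO
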