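import Mathlib
import Pool.Agent.Lib.MP_9cfc0a_nt.Mg.G004
import Pool.Agent.Lib.MP_9cfc0a_nt.Mg.G002
import Pool.Agent.Lib.MP_9cfc0a_nt.SX.Defs3
import Pool.Agent.Lib.MP_9cfc0a_nt.SX.XS3

set_option autoImplicit false

namespace Pool.Agent.SO

open Complex MeasureTheory Pool.Agent.MC.C2

/-- XS5a.0. PROOF. `AX = PP W - PP U` term by term; unfold `GG`, `ring` (compare `L_mul_AA`, SO/S5a.lean). -/
theorem L_mul_AX (r : ℕ) [NeZero r] (χ : DirichletCharacter ℂ r) (N : ℕ) (U W : ℝ) (s : ℂ) :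
    χ.LFunction s * AX r χ N U W s = GG r χ N U s - GG r χ N W s := by
  have h : AX r χ N U W s = PP r χ N W s - PP r χ N U s := by
    unfold AX PP
    rw [← Finset.sum_sub_distrib]
    refine Finset.sum_congr rfl fun n _ => ?_
    push_cast
    ring
  rw [h]
  unfold GG
  ring

/-- XS5a.1. PROOF. As the first claim of `conv_Gt` (SO/S5a.lean): `conv_dirichlet` with
`c k = cU r U k * vv (k/r^Z) * χ k` and `Gtx_support`: only `k` with `log k/log r ∈ [U, Z + 1]` contribute, there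
the multiplier is `exp (-x log k/log r)`. -/
theorem conv_Gtx (r : ℕ) (hr : 2 ≤ r) (χ : DirichletCharacter ℂ r) (N : ℕ) (U Z x : ℝ)
    (κ : ℝ → ℂ) (hκ : Continuous κ) (C : ℝ) (m : ℕ) (hm : 2 ≤ m)
    (hb : ∀ y, ‖κ y‖ ≤ C / (1 + |y|) ^ m)
    (h1 : ∀ v : ℝ, U ≤ v → v ≤ Z + 1 →
        ∫ y : ℝ, κ y * Complex.exp (I * y * v) = Complex.exp (-((x * v : ℝ) : ℂ)))
    (t y₀ : ℝ) :
    (∫ t' : ℝ, Gtx r χ N U ((r : ℝ) ^ Z) (pt r 0 t') * ((Real.log r : ℂ) *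
        κ (Real.log r * (t + y₀ / Real.log r - t')))) =
      Gtx r χ N U ((r : ℝ) ^ Z) (pz r t (x + y₀ * I)) := by
  have hGt : (∫ t' : ℝ, Gtx r χ N U ((r : ℝ) ^ Z) (pt r 0 t') * ((Real.log r : ℂ) *
        κ (Real.log r * (t + y₀ / Real.log r - t')))) =
      ∑ k ∈ Finset.Icc 1 N, (((cU r U k * vv (k / (r : ℝ) ^ Z) : ℝ) : ℂ) * χ k) *
        (k : ℂ) ^ (-(pt r 0 (t + y₀ / Real.log r))) *
        ∫ y : ℝ, κ y * Complex.exp (I * y * ((Real.log k / Real.log r : ℝ) : ℂ)) :=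
    conv_dirichlet r hr κ hκ C m hm hb N
      (fun k => ((cU r U k * vv (k / (r : ℝ) ^ Z) : ℝ) : ℂ) * χ k) (t + y₀ / Real.log r)
  rw [hGt]
  unfold Gtx
  refine Finset.sum_congr rfl fun k hk => ?_
  rw [Finset.mem_Icc] at hk
  by_cases h : cU r U k * vv (k / (r : ℝ) ^ Z) = 0
  · rw [h]
    simp
  · obtain ⟨h3, h4⟩ := Gtx_support r hr U Z k hk.1 h
    rw [h1 _ h3 h4, mul_assoc, S5a_term r hr t x y₀ k hk.1]

/-- XS5a.2. PROOF. As the second claim of `conv_Gt`: only `log k/log r ≥ W` contribute, where the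
multiplier is `0`. -/
theorem conv_Gtx_zero (r : ℕ) (hr : 2 ≤ r) (χ : DirichletCharacter ℂ r) (N : ℕ) (W Z : ℝ)
    (κ : ℝ → ℂ) (hκ : Continuous κ) (C : ℝ) (m : ℕ) (hm : 2 ≤ m)
    (hb : ∀ y, ‖κ y‖ ≤ C / (1 + |y|) ^ m)
    (h2 : ∀ v : ℝ, W ≤ v → ∫ y : ℝ, κ y * Complex.exp (I * y * v) = 0) (t y₀ : ℝ) :
    (∫ t' : ℝ, Gtx r χ N W ((r : ℝ) ^ Z) (pt r 0 t') * ((Real.log r : ℂ) *
        κ (Real.log r * (t + y₀ / Real.log r - t')))) = 0 := by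
  have hGt : (∫ t' : ℝ, Gtx r χ N W ((r : ℝ) ^ Z) (pt r 0 t') * ((Real.log r : ℂ) *
        κ (Real.log r * (t + y₀ / Real.log r - t')))) =
      ∑ k ∈ Finset.Icc 1 N, (((cU r W k * vv (k / (r : ℝ) ^ Z) : ℝ) : ℂ) * χ k) *
        (k : ℂ) ^ (-(pt r 0 (t + y₀ / Real.log r))) *
        ∫ y : ℝ, κ y * Complex.exp (I * y * ((Real.log k / Real.log r : ℝ) : ℂ)) :=
    conv_dirichlet r hr κ hκ C m hm hb N
      (fun k => ((cU r W k * vv (k / (r : ℝ) ^ Z) : ℝ) : ℂ) * χ k) (t + y₀ / Real.log r)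
  rw [hGt]
  refine Finset.sum_eq_zero fun k hk => ?_
  rw [Finset.mem_Icc] at hk
  by_cases h : cU r W k * vv (k / (r : ℝ) ^ Z) = 0
  · rw [h]
    simp
  · obtain ⟨h3, h4⟩ := Gtx_support r hr W Z k hk.1 h
    rw [h2 _ h3, mul_zero]

end Pool.Agent.SO
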