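import Mathlib
import Pool.Agent.Lib.MP_9cfc0a_nt.EMLfun
import Pool.Agent.Lib.MP_9cfc0a_nt.SX.Defs3
import Pool.Agent.Lib.MP_9cfc0a_nt.SX.XS1
import Pool.Agent.Lib.MP_9cfc0a_nt.SX.XS4
import Pool.Agent.Lib.MP_9cfc0a_nt.SX.XS5a
import Pool.Agent.Lib.MP_9cfc0a_nt.Mg.G007

set_option autoImplicit false

namespace Pool.Agent.SO

open Complex MeasureTheory Pool.Agent.MC.C2

/-- XS5b. The separation theorem, uniform in `U ≥ 0`, for `re z ≥ -η`.

PROOF. As `separation` (file SO/S5b.lean; helper lemmas of that file may be used). `W = (1+δ)U + 11`,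
`J, C₁` from `GG_approx_x δ`, applied to `U` (cut `Z = (1+δ)U + 5`, `N ≥ r^((1+δ)U+6)`) and to `W`
(cut `Z' = (1+δ)W + 5`; `(1+δ)W + 6 ≤ 4 U + 28`, so `N ≥ r^(4U+40)` suffices), `m' = m + J + 2`,
`κ` from `kernel_strip η δ R m'` with `x = re z ∈ [-η, R]`, `z = x + y₀ I`,
`K(t') = L κ(L(t + y₀/L - t'))`, `L = log r`. `L_mul_AX`, `conv_Gtx` (`Z + 1 = (1+δ)U + 6`) and `conv_Gtx_zero` give
`Gtx_U(s) = ∫ (L AX)(pt 0 t') K - ∫ (E_U - E_W)(pt 0 t') K` and so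
`‖GG_U(s)‖ ≤ ‖E_U(s)‖ + ∫ ‖L‖ ‖AX‖ ‖K‖ + ∫ (‖E_U‖ + ‖E_W‖) ‖K‖`. `‖K(t')‖ ≤ C₂ e^(3ηU) (1+R)^m' kw r m t t'`,
and the errors are `≤ C₁ (‖s'‖+1)^J r^(-(U+1))`, so the error terms are at most
`C e^(3ηU) (1+|t|)^J r^(-(U+1)) ≤ C (1+|t|)^J / r` when `log r ≥ 3 η` (`e^(3ηU) ≤ r^U`). -/
theorem separation_x (η δ R : ℝ) (hη : 0 < η) (hη1 : η ≤ 1) (hδ : 0 < δ) (hδ1 : δ ≤ 1)
    (hR : 0 ≤ R) (m : ℕ) (hm : 4 ≤ m) :
    ∃ (J : ℕ) (C : ℝ) (r₀ : ℕ), 0 ≤ C ∧ 2 ≤ r₀ ∧ ∀ (r : ℕ) [NeZero r], r₀ ≤ r →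
    ∀ χ : DirichletCharacter ℂ r, χ ≠ 1 → ∀ U : ℝ, 0 ≤ U → ∀ N : ℕ,
    (r : ℝ) ^ (4 * U + 40) ≤ N → ∀ (t : ℝ) (z : ℂ), ‖z‖ ≤ R → -η ≤ z.re →
    ‖GG r χ N U (pz r t z)‖ ≤
      C * Real.exp (3 * η * U) * (∫ t' : ℝ, ‖χ.LFunction (pt r 0 t')‖ *
        ‖AX r χ N U ((1 + δ) * U + 11) (pt r 0 t')‖ * kw r m t t') +
        C * (1 + |t|) ^ J / r := by
  obtain ⟨J, C₁, hC₁, hGG⟩ := GG_approx_x δ hδ hδ1
  obtain ⟨C₂, hC₂, hker⟩ := kernel_strip η δ R (m + J + 2) hη hη1 hδ hδ1 hR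
  set A1 : ℝ := C₂ * (1 + R) ^ (m + J + 2) with hA1
  have hA10 : 0 ≤ A1 := by positivity
  set C₃ : ℝ := 2 ^ (J + 1) * C₁ * A1 with hC₃
  have hC₃0 : 0 ≤ C₃ := by positivity
  have hpi := Real.pi_pos
  refine ⟨J, A1 + C₁ * 2 ^ J + C₃ * Real.pi, max 3 ⌈Real.exp (4 * R + 3)⌉₊, by positivity, by
    exact le_trans (by norm_num) (le_max_left _ _), ?_⟩
  intro r _ hr χ hχ U hU0 N hN t z hz hzre
  have hr3 : 3 ≤ r := (le_max_left _ _).trans hr
  have hr0 : (0 : ℝ) < r := by exact_mod_cast (by omega : 0 < r)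
  have hr1 : (1 : ℝ) ≤ r := by exact_mod_cast (by omega : 1 ≤ r)
  set L : ℝ := Real.log r with hL
  have hLR : 4 * R + 3 ≤ L := by
    rw [hL, Real.le_log_iff_exp_le hr0]
    exact (Nat.le_ceil _).trans (by exact_mod_cast (le_max_right _ _).trans hr)
  have hL1 : 1 ≤ L := by linarith
  have hL0 : 0 < L := by linarith
  set x : ℝ := z.re with hx
  set y₀ : ℝ := z.im with hy₀
  have hxR : |x| ≤ R := (Complex.abs_re_le_norm z).trans hz
  have hyR : |y₀| ≤ R := (Complex.abs_im_le_norm z).trans hz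
  have hzxy : z = (x : ℂ) + (y₀ : ℂ) * I := (Complex.re_add_im z).symm
  obtain ⟨κ, hκ, hκb, hκ1, hκ2⟩ := hker U x hU0 hzre ((le_abs_self x).trans hxR)
  obtain ⟨W, hW⟩ : ∃ W : ℝ, W = (1 + δ) * U + 11 := ⟨_, rfl⟩
  rw [← hW] at hκ2 ⊢
  have hUW : U ≤ W := by rw [hW]; nlinarith
  have hW2 : W ≤ 2 * U + 11 := by rw [hW]; nlinarith
  have g1 := conv_Gtx r (by omega) χ N U ((1 + δ) * U + 5) x κ hκ (C₂ * Real.exp (3 * η * U))
    (m + J + 2) (by omega) hκb (fun v hv1 hv2 => hκ1 v hv1 (by linarith)) t y₀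
  have g2 := conv_Gtx_zero r (by omega) χ N W ((1 + δ) * W + 5) κ hκ (C₂ * Real.exp (3 * η * U))
    (m + J + 2) (by omega) hκb hκ2 t y₀
  rw [← hzxy] at g1
  rw [← hL] at g1 g2
  obtain ⟨E, hE⟩ : ∃ E : ℝ, E = Real.exp (3 * η * U) := ⟨_, rfl⟩
  rw [← hE] at hκb ⊢
  have hE0 : 0 < E := by rw [hE]; exact Real.exp_pos _
  have hE1 : 1 ≤ E := by rw [hE]; exact Real.one_le_exp (by positivity)
  obtain ⟨ν, hν⟩ : ∃ ν : ℝ, ν = (r : ℝ) ^ (-(U + 1)) := ⟨_, rfl⟩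
  have hν0 : 0 < ν := by rw [hν]; exact Real.rpow_pos_of_pos hr0 _
  have hEν : E * ν ≤ 1 / r := by
    have e1 : ν = (r : ℝ) ^ (-U) * (1 / r) := by
      rw [hν, neg_add, Real.rpow_add hr0, Real.rpow_neg_one, one_div]
    have e2 : E * (r : ℝ) ^ (-U) ≤ 1 := by
      rw [hE, Real.rpow_def_of_pos hr0, ← Real.exp_add, ← hL]
      apply Real.exp_le_one_iff.2
      have e3 : 3 * η ≤ L := by linarith
      nlinarith
    rw [e1, ← mul_assoc]
    exact mul_le_of_le_one_left (by positivity) e2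
  have hν1 : ν ≤ 1 / r := by
    refine le_trans ?_ hEν
    nlinarith
  set s : ℂ := pz r t z with hs
  -- exponents
  have hN1 : (r : ℝ) ^ ((1 + δ) * U + 6) ≤ N :=
    (Real.rpow_le_rpow_of_exponent_le hr1 (by nlinarith)).trans hN
  have hN2 : (r : ℝ) ^ ((1 + δ) * W + 6) ≤ N := by
    refine (Real.rpow_le_rpow_of_exponent_le hr1 ?_).trans hN
    have e1 : (1 + δ) * W ≤ 2 * (2 * U + 11) := by
      have : 0 ≤ W := by linarith
      nlinarith
    linarith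
  -- the point s
  have hsre : s.re = 1 / 2 + x / L := by
    rw [hs]
    unfold pz
    rw [← hL]
    simp [Complex.add_re, Complex.div_ofReal_re, hx]
  have hxL : |x / L| ≤ 1 / 4 := by
    rw [abs_div, abs_of_pos hL0, div_le_iff₀ hL0]
    linarith
  have hs1 : 1 / 4 ≤ s.re := by rw [hsre]; linarith [(abs_le.mp hxL).1]
  have hs2 : s.re ≤ 1 := by rw [hsre]; linarith [(abs_le.mp hxL).2]
  have hsn : ‖s‖ + 1 ≤ 2 * (1 + |t|) := by
    have e1 : ‖s‖ ≤ 1 / 2 + |t| + R / L := by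
      rw [hs]
      unfold pz
      rw [← hL]
      refine (norm_add_le _ _).trans (add_le_add ((norm_add_le _ _).trans (add_le_add ?_ ?_)) ?_)
      · norm_num
      · rw [norm_mul, Complex.norm_I, mul_one, Complex.norm_real, Real.norm_eq_abs]
      · rw [norm_div, Complex.norm_real, Real.norm_of_nonneg hL0.le]
        gcongr
    have e2 : R / L ≤ 1 / 4 := by
      rw [div_le_iff₀ hL0]; linarith
    linarith [abs_nonneg t]
  -- the kernel bound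
  have hK : ∀ t' : ℝ, ‖(L : ℂ) * κ (L * (t + y₀ / L - t'))‖ ≤ A1 * E * (L / (1 + L * |t' - t|) ^ (m + J + 2)) := by
    intro t'
    have hb := hκb (L * (t + y₀ / L - t'))
    rw [norm_mul, Complex.norm_real, Real.norm_of_nonneg hL0.le]
    set w : ℝ := |L * (t + y₀ / L - t')| with hw
    have hw0 : 0 ≤ w := abs_nonneg _
    have e1 : 1 + L * |t' - t| ≤ (1 + R) * (1 + w) := by
      have e2 : L * (t' - t) = y₀ - L * (t + y₀ / L - t') := by field_simp; ring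
      have e3 : L * |t' - t| ≤ |y₀| + w := by
        have e31 : L * |t' - t| = |L * (t' - t)| := by rw [abs_mul, abs_of_pos hL0]
        rw [e31, e2]
        exact abs_sub _ _
      nlinarith
    have e4 : 0 < 1 + L * |t' - t| := by positivity
    have e5 : (1 + L * |t' - t|) ^ (m + J + 2) ≤ (1 + R) ^ (m + J + 2) * (1 + w) ^ (m + J + 2) := by
      rw [← mul_pow]
      exact pow_le_pow_left₀ e4.le e1 _
    have e6 : C₂ * E / (1 + w) ^ (m + J + 2) ≤ A1 * E / (1 + L * |t' - t|) ^ (m + J + 2) := by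
      rw [div_le_div_iff₀ (by positivity) (by positivity), hA1]
      calc C₂ * E * (1 + L * |t' - t|) ^ (m + J + 2) ≤
            C₂ * E * ((1 + R) ^ (m + J + 2) * (1 + w) ^ (m + J + 2)) := by gcongr
        _ = C₂ * (1 + R) ^ (m + J + 2) * E * (1 + w) ^ (m + J + 2) := by ring
    calc L * ‖κ (L * (t + y₀ / L - t'))‖ ≤ L * (A1 * E / (1 + L * |t' - t|) ^ (m + J + 2)) := by
          gcongr
          exact hb.trans e6
      _ = A1 * E * (L / (1 + L * |t' - t|) ^ (m + J + 2)) := by ring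
  have hAE0 : 0 ≤ A1 * E := by positivity
  obtain ⟨hWi, hWint⟩ := S5b_W L t hL0
  have hKc : Continuous (fun t' : ℝ => (L : ℂ) * κ (L * (t + y₀ / L - t'))) :=
    continuous_const.mul (hκ.comp (by fun_prop))
  -- integrability of Gt * K
  have hGtK : ∀ U' Y : ℝ, Integrable (fun t' : ℝ => Gtx r χ N U' Y (pt r 0 t') * ((L : ℂ) * κ (L * (t + y₀ / L - t')))) := by
    intro U' Y
    obtain ⟨c1, c2⟩ := S5b_poly r N (fun k => ((cU r U' k * vv (k / Y) : ℝ) : ℂ) * χ k)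
    set G₀ : ℝ := ∑ k ∈ Finset.Icc 1 N, ‖((cU r U' k * vv (k / Y) : ℝ) : ℂ) * χ k‖ with hG₀
    have hG₀0 : 0 ≤ G₀ := Finset.sum_nonneg fun _ _ => norm_nonneg _
    refine Integrable.mono' (hWi.const_mul (G₀ * (A1 * E))) (Continuous.mul c1 hKc).aestronglyMeasurable
      (Filter.Eventually.of_forall fun t' => ?_)
    rw [norm_mul]
    have e1 := c2 t'
    have e2 := hK t'
    have e3 := S5b_W_ge L t t' hL0 (m + J + 2) (by omega)
    calc ‖Gtx r χ N U' Y (pt r 0 t')‖ * ‖(L : ℂ) * κ (L * (t + y₀ / L - t'))‖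
        ≤ G₀ * (A1 * E * (L * (1 + (L * (t' - t)) ^ 2)⁻¹)) := by
          refine mul_le_mul e1 (e2.trans ?_) (norm_nonneg _) hG₀0
          exact mul_le_mul_of_nonneg_left e3 hAE0
      _ = G₀ * (A1 * E) * (L * (1 + (L * (t' - t)) ^ 2)⁻¹) := by ring
  obtain ⟨YU, hYU⟩ : ∃ YU : ℝ, YU = (r : ℝ) ^ ((1 + δ) * U + 5) := ⟨_, rfl⟩
  obtain ⟨YW, hYW⟩ : ∃ YW : ℝ, YW = (r : ℝ) ^ ((1 + δ) * W + 5) := ⟨_, rfl⟩
  rw [← hYU] at g1
  rw [← hYW] at g2
  have hdiff : Gtx r χ N U YU s = ∫ t' : ℝ, (Gtx r χ N U YU (pt r 0 t') - Gtx r χ N W YW (pt r 0 t')) *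
      ((L : ℂ) * κ (L * (t + y₀ / L - t'))) := by
    have e1 : (fun t' : ℝ => (Gtx r χ N U YU (pt r 0 t') - Gtx r χ N W YW (pt r 0 t')) *
      ((L : ℂ) * κ (L * (t + y₀ / L - t')))) = fun t' : ℝ =>
        Gtx r χ N U YU (pt r 0 t') * ((L : ℂ) * κ (L * (t + y₀ / L - t'))) -
        Gtx r χ N W YW (pt r 0 t') * ((L : ℂ) * κ (L * (t + y₀ / L - t'))) := by
      funext t'; ring
    rw [e1, integral_sub (hGtK U YU) (hGtK W YW), g1, g2, sub_zero]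
  -- integrability of the main function
  obtain ⟨a1, a2⟩ := S5b_poly r N (fun n => ((ArithmeticFunction.vonMangoldt n * (th r U n - th r W n) : ℝ) : ℂ) * χ n)
  set A₀ : ℝ := ∑ n ∈ Finset.Icc 1 N, ‖((ArithmeticFunction.vonMangoldt n * (th r U n - th r W n) : ℝ) : ℂ) * χ n‖ with hA₀
  have hA₀0 : 0 ≤ A₀ := Finset.sum_nonneg fun _ _ => norm_nonneg _
  have hptn : ∀ t' : ℝ, ‖pt r 0 t'‖ ≤ 1 + |t'| := by
    intro t'
    unfold pt
    rw [Complex.ofReal_zero, zero_div, add_zero]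
    refine (norm_add_le _ _).trans ?_
    rw [norm_mul, Complex.norm_I, mul_one, Complex.norm_real, Real.norm_eq_abs]
    norm_num
  have hptre : ∀ t' : ℝ, (pt r 0 t').re = 1 / 2 := by
    intro t'; unfold pt; simp
  have hLc : Continuous (fun t' : ℝ => χ.LFunction (pt r 0 t')) := by
    refine (DirichletCharacter.differentiable_LFunction hχ).continuous.comp ?_
    unfold pt
    fun_prop
  have htt : ∀ t' : ℝ, 1 + |t'| ≤ (1 + |t|) * (1 + L * |t' - t|) := by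
    intro t'
    have e1 : |t'| ≤ |t| + |t' - t| := by
      have := abs_add_le t (t' - t)
      rwa [add_sub_cancel] at this
    have e2 : |t' - t| ≤ L * |t' - t| := by nlinarith [abs_nonneg (t' - t)]
    nlinarith [abs_nonneg t, abs_nonneg (t' - t)]
  have hmainint : Integrable (fun t' : ℝ => ‖χ.LFunction (pt r 0 t')‖ * ‖AX r χ N U W (pt r 0 t')‖ * kw r m t t') := by
    have hkc : Continuous (fun t' : ℝ => kw r m t t') := by
      unfold kw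
      refine Continuous.div continuous_const (by fun_prop) fun t' => ?_
      have : 0 ≤ Real.log r * |t' - t| := by rw [← hL]; positivity
      positivity
    refine Integrable.mono' (hWi.const_mul (20 * (2 * r + 1) * (1 + |t|) * A₀))
      ((hLc.norm.mul a1.norm).mul hkc).aestronglyMeasurable (Filter.Eventually.of_forall fun t' => ?_)
    have e1 : ‖χ.LFunction (pt r 0 t')‖ ≤ 20 * (2 * r + 1) * (1 + |t'|) := by
      refine (EM.L_growth r χ hχ (pt r 0 t') (by rw [hptre]; norm_num)).trans ?_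
      gcongr
      exact hptn t'
    have e2 : ‖AX r χ N U W (pt r 0 t')‖ ≤ A₀ := a2 t'
    have hkw0 : 0 ≤ kw r m t t' := by
      unfold kw; rw [← hL]; positivity
    have e3 : (1 + L * |t' - t|) * kw r m t t' ≤ L * (1 + (L * (t' - t)) ^ 2)⁻¹ := by
      refine le_trans ?_ (S5b_W_ge L t t' hL0 (m - 1) (by omega))
      unfold kw
      rw [← hL]
      have e4 : 0 < 1 + L * |t' - t| := by positivity
      have e5 : (1 + L * |t' - t|) ^ m = (1 + L * |t' - t|) ^ (m - 1) * (1 + L * |t' - t|) := by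
        rw [← pow_succ]; congr 1; omega
      rw [e5]
      apply le_of_eq
      field_simp
    rw [Real.norm_of_nonneg (by positivity)]
    calc ‖χ.LFunction (pt r 0 t')‖ * ‖AX r χ N U W (pt r 0 t')‖ * kw r m t t'
        ≤ (20 * (2 * r + 1) * ((1 + |t|) * (1 + L * |t' - t|))) * A₀ * kw r m t t' := by
          gcongr
          refine e1.trans ?_
          gcongr
          exact htt t'
      _ = 20 * (2 * r + 1) * (1 + |t|) * A₀ * ((1 + L * |t' - t|) * kw r m t t') := by ring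
      _ ≤ 20 * (2 * r + 1) * (1 + |t|) * A₀ * (L * (1 + (L * (t' - t)) ^ 2)⁻¹) := by gcongr
  -- pointwise bound
  have hpoint : ∀ t' : ℝ, ‖(Gtx r χ N U YU (pt r 0 t') - Gtx r χ N W YW (pt r 0 t')) *
      ((L : ℂ) * κ (L * (t + y₀ / L - t')))‖ ≤
      A1 * E * (‖χ.LFunction (pt r 0 t')‖ * ‖AX r χ N U W (pt r 0 t')‖ * kw r m t t') +
      (C₃ * (1 + |t|) ^ J / r) * (L * (1 + (L * (t' - t)) ^ 2)⁻¹) := by
    intro t'
    set w : ℂ := pt r 0 t' with hw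
    set a : ℝ := L * |t' - t| with ha
    have ha0 : 0 ≤ a := by positivity
    have e1 : Gtx r χ N U YU w - Gtx r χ N W YW w = χ.LFunction w * AX r χ N U W w -
        ((GG r χ N U w - Gtx r χ N U YU w) - (GG r χ N W w - Gtx r χ N W YW w)) := by
      rw [L_mul_AX]; ring
    have hwre : w.re = 1 / 2 := hptre t'
    have e2 := hGG r (by omega) χ hχ U hU0 N hN1 w (by rw [hwre]; norm_num) (by rw [hwre]; norm_num)
    have e3 := hGG r (by omega) χ hχ W (by linarith) N hN2 w (by rw [hwre]; norm_num) (by rw [hwre]; norm_num)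
    rw [← hYU, ← hν] at e2
    rw [← hYW] at e3
    have e30 : (r : ℝ) ^ (-(W + 1)) ≤ ν := by
      rw [hν]
      exact Real.rpow_le_rpow_of_exponent_le hr1 (by linarith)
    have e4 : ‖w‖ + 1 ≤ 2 * ((1 + |t|) * (1 + a)) := by
      have := hptn t'
      have := htt t'
      linarith [abs_nonneg t']
    have e5 : (‖w‖ + 1) ^ J ≤ 2 ^ J * (1 + |t|) ^ J * (1 + a) ^ J := by
      calc (‖w‖ + 1) ^ J ≤ (2 * ((1 + |t|) * (1 + a))) ^ J := by gcongr
        _ = 2 ^ J * (1 + |t|) ^ J * (1 + a) ^ J := by rw [mul_pow, mul_pow]; ring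
    have e6 : ‖Gtx r χ N U YU w - Gtx r χ N W YW w‖ ≤ ‖χ.LFunction w‖ * ‖AX r χ N U W w‖ +
        2 * (C₁ * (2 ^ J * (1 + |t|) ^ J * (1 + a) ^ J) * ν) := by
      rw [e1]
      refine (norm_sub_le _ _).trans ?_
      rw [norm_mul]
      refine add_le_add le_rfl ((norm_sub_le _ _).trans ?_)
      have e7 : C₁ * (‖w‖ + 1) ^ J * ν ≤ C₁ * (2 ^ J * (1 + |t|) ^ J * (1 + a) ^ J) * ν := by gcongr
      have e70 : C₁ * (‖w‖ + 1) ^ J * (r : ℝ) ^ (-(W + 1)) ≤ C₁ * (‖w‖ + 1) ^ J * ν := by gcongr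
      linarith
    have hKt := hK t'
    rw [← ha] at hKt
    have hK1 : ‖(L : ℂ) * κ (L * (t + y₀ / L - t'))‖ ≤ A1 * E * kw r m t t' := by
      refine hKt.trans (mul_le_mul_of_nonneg_left ?_ hAE0)
      unfold kw
      rw [← hL, ← ha]
      have : (1 + a) ^ m ≤ (1 + a) ^ (m + J + 2) := pow_le_pow_right₀ (by linarith) (by omega)
      gcongr
    have hK2 : (1 + a) ^ J * ‖(L : ℂ) * κ (L * (t + y₀ / L - t'))‖ ≤ A1 * E * (L * (1 + (L * (t' - t)) ^ 2)⁻¹) := by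
      have e8 : (1 + a) ^ J * (A1 * E * (L / (1 + a) ^ (m + J + 2))) = A1 * E * (L / (1 + a) ^ (m + 2)) := by
        have e9 : (1 + a) ^ (m + J + 2) = (1 + a) ^ (m + 2) * (1 + a) ^ J := by
          rw [← pow_add]; congr 1; ring
        have e10 : (1 + a) ^ J ≠ 0 := by positivity
        rw [e9]
        field_simp
      calc (1 + a) ^ J * ‖(L : ℂ) * κ (L * (t + y₀ / L - t'))‖ ≤ (1 + a) ^ J * (A1 * E * (L / (1 + a) ^ (m + J + 2))) := by gcongr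
        _ = A1 * E * (L / (1 + a) ^ (m + 2)) := e8
        _ ≤ A1 * E * (L * (1 + (L * (t' - t)) ^ 2)⁻¹) := by
            refine mul_le_mul_of_nonneg_left ?_ hAE0
            exact S5b_W_ge L t t' hL0 (m + 2) (by omega)
    rw [norm_mul]
    set k0 : ℝ := ‖(L : ℂ) * κ (L * (t + y₀ / L - t'))‖ with hk0
    have hk00 : 0 ≤ k0 := norm_nonneg _
    obtain ⟨Q, hQ⟩ : ∃ Q : ℝ, Q = L * (1 + (L * (t' - t)) ^ 2)⁻¹ := ⟨_, rfl⟩
    have hQ0 : 0 ≤ Q := by rw [hQ]; positivity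
    rw [← hQ] at hK2 ⊢
    have hfin : (2 ^ (J + 1) * C₁ * (1 + |t|) ^ J * ν) * (A1 * E * Q) ≤ C₃ * (1 + |t|) ^ J / r * Q := by
      have q1 : (2 ^ (J + 1) * C₁ * (1 + |t|) ^ J * ν) * (A1 * E * Q) =
          C₃ * (1 + |t|) ^ J * Q * (E * ν) := by
        rw [hC₃]; ring
      have q2 : C₃ * (1 + |t|) ^ J / r * Q = C₃ * (1 + |t|) ^ J * Q * (1 / r) := by ring
      rw [q1, q2]
      exact mul_le_mul_of_nonneg_left hEν (by positivity)
    calc ‖Gtx r χ N U YU w - Gtx r χ N W YW w‖ * k0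
        ≤ (‖χ.LFunction w‖ * ‖AX r χ N U W w‖ + 2 * (C₁ * (2 ^ J * (1 + |t|) ^ J * (1 + a) ^ J) * ν)) * k0 := by gcongr
      _ = (‖χ.LFunction w‖ * ‖AX r χ N U W w‖) * k0 + (2 ^ (J + 1) * C₁ * (1 + |t|) ^ J * ν) * ((1 + a) ^ J * k0) := by
          rw [pow_succ]; ring
      _ ≤ (‖χ.LFunction w‖ * ‖AX r χ N U W w‖) * (A1 * E * kw r m t t') +
          (2 ^ (J + 1) * C₁ * (1 + |t|) ^ J * ν) * (A1 * E * Q) := by gcongr
      _ ≤ A1 * E * (‖χ.LFunction w‖ * ‖AX r χ N U W w‖ * kw r m t t') +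
          (C₃ * (1 + |t|) ^ J / r) * Q := by
          have q3 : (‖χ.LFunction w‖ * ‖AX r χ N U W w‖) * (A1 * E * kw r m t t') =
            A1 * E * (‖χ.LFunction w‖ * ‖AX r χ N U W w‖ * kw r m t t') := by ring
          rw [q3]
          linarith
  have hGts : ‖Gtx r χ N U YU s‖ ≤ A1 * E * (∫ t' : ℝ, ‖χ.LFunction (pt r 0 t')‖ * ‖AX r χ N U W (pt r 0 t')‖ * kw r m t t') +
      (C₃ * (1 + |t|) ^ J / r) * Real.pi := by
    rw [hdiff]
    refine (norm_integral_le_of_norm_le ((hmainint.const_mul (A1 * E)).add (hWi.const_mul _))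
      (Filter.Eventually.of_forall hpoint)).trans ?_
    simp only [Pi.add_apply]
    rw [integral_add (hmainint.const_mul (A1 * E)) (hWi.const_mul _), integral_const_mul, integral_const_mul, hWint]
  have hEs : ‖GG r χ N U s - Gtx r χ N U YU s‖ ≤ C₁ * 2 ^ J * (1 + |t|) ^ J / r := by
    have e0 := hGG r (by omega) χ hχ U hU0 N hN1 s hs1 hs2
    rw [← hYU, ← hν] at e0
    refine e0.trans ?_
    have e1 : (‖s‖ + 1) ^ J ≤ 2 ^ J * (1 + |t|) ^ J := by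
      rw [← mul_pow]
      gcongr
    calc C₁ * (‖s‖ + 1) ^ J * ν ≤ C₁ * (2 ^ J * (1 + |t|) ^ J) * (1 / r) := by gcongr
      _ = C₁ * 2 ^ J * (1 + |t|) ^ J / r := by ring
  have hI0 : 0 ≤ ∫ t' : ℝ, ‖χ.LFunction (pt r 0 t')‖ * ‖AX r χ N U W (pt r 0 t')‖ * kw r m t t' := by
    refine integral_nonneg fun t' => ?_
    have : 0 ≤ kw r m t t' := by unfold kw; rw [← hL]; positivity
    positivity
  set I₀ : ℝ := ∫ t' : ℝ, ‖χ.LFunction (pt r 0 t')‖ * ‖AX r χ N U W (pt r 0 t')‖ * kw r m t t' with hI₀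
  have htot : ‖GG r χ N U s‖ ≤ ‖GG r χ N U s - Gtx r χ N U YU s‖ + ‖Gtx r χ N U YU s‖ := by
    have : GG r χ N U s = (GG r χ N U s - Gtx r χ N U YU s) + Gtx r χ N U YU s := by ring
    calc ‖GG r χ N U s‖ = ‖(GG r χ N U s - Gtx r χ N U YU s) + Gtx r χ N U YU s‖ := by rw [← this]
      _ ≤ _ := norm_add_le _ _
  set τ : ℝ := (1 + |t|) ^ J / r with hτ
  have hτ0 : 0 ≤ τ := by positivity
  have f1 : C₁ * 2 ^ J * (1 + |t|) ^ J / r = C₁ * 2 ^ J * τ := by rw [hτ]; ring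
  have f2 : C₃ * (1 + |t|) ^ J / r = C₃ * τ := by rw [hτ]; ring
  have f3 : (A1 + C₁ * 2 ^ J + C₃ * Real.pi) * (1 + |t|) ^ J / r = (A1 + C₁ * 2 ^ J + C₃ * Real.pi) * τ := by rw [hτ]; ring
  rw [f3]
  rw [f1] at hEs
  rw [f2] at hGts
  have g3 : 0 ≤ A1 * τ := by positivity
  have g6 : 0 ≤ C₁ * 2 ^ J * (E * I₀) := by positivity
  have g7 : 0 ≤ C₃ * Real.pi * (E * I₀) := by positivity
  have g8 : (A1 + C₁ * 2 ^ J + C₃ * Real.pi) * E * I₀ + (A1 + C₁ * 2 ^ J + C₃ * Real.pi) * τ =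
      (A1 * E * I₀ + C₃ * τ * Real.pi) + C₁ * 2 ^ J * τ + (A1 * τ + C₁ * 2 ^ J * (E * I₀) +
        C₃ * Real.pi * (E * I₀)) := by ring
  rw [g8]
  linarith

end Pool.Agent.SO
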