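import Mathlib
import Pool.Agent.Lib.MP_9cfc0a_nt.SX.Defs3
import Pool.Agent.Lib.MP_9cfc0a_nt.SX.XL4
import Pool.Agent.Lib.MP_9cfc0a_nt.SX.XF
import Pool.Agent.Lib.MP_9cfc0a_nt.SX.XS5b
import Pool.Agent.Lib.MP_9cfc0a_nt.SX.XR1
import Pool.Agent.Lib.MP_9cfc0a_nt.Mg.G007

set_option autoImplicit false

namespace Pool.Agent.SO

open Complex MeasureTheory

/-- XR2. The lower bound at a good pair (uses XL4, XF, XS5b, XR1 and F3, R0, R1 of the first wave).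

PROOF. As `good_lower` (file SO/R2.lean). `T₀` from `local_lower_strip b 4 η`; `T ≥ T₀`, `R₀ ≥ T` and
`R ≥ R₀`, `c₀` from it; `J, C, r₁` from `separation_x η δ R m`; `C' = C + 1`, `L = log r`,
`m0 = MM r χ (pt r b t)`, `f z = L(χ, pz r t z) * m0`, `P z = (1/L) PP r χ N U (pz r t z)`. The hypotheses of
`local_lower_strip`: the bounds `exp (4T)`, `exp (4R)` on the two discs by `sq_le_circleAverage` and the first two
conditions of `goodX`; the symmetry of the zeros by `L_zero_symm` (`|re z| ≤ T < L/2` for large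
`r`; if `m0 = 0` it is trivial); the other three as in `good_lower`. So there is `z`, `‖z‖ ≤ R`, `-η ≤ re z`, with
`c₀ ≤ ‖m0‖ ‖GG r χ N U (pz r t z)‖/L`. `separation_x`:
`c₀ L ≤ C' e^(3ηU) ∫ ‖L m0‖ ‖AX‖ kw + C' 2^J ‖m0‖/r`, the last term is `≤ c₀ L/2` for `r ≥ r₃`
(`MM_le`). `weighted_cs` with `a = c₀ L e^(-3ηU)/(2 C')`, `K + 1`:
`∫ ‖AX‖² kw ≥ a²/(4(K+1)) = c₀² L² e^(-6ηU)/(16 C'² (K+1))`. -/
theorem good_lower_x (b η δ : ℝ) (hb : 1 ≤ b) (hη : 0 < η) (hη1 : η ≤ 1) (hδ : 0 < δ)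
    (hδ1 : δ ≤ 1) (m : ℕ) (hm : 4 ≤ m) :
    ∃ T₀ : ℝ, 1 ≤ T₀ ∧ ∀ T : ℝ, T₀ ≤ T → ∃ R₀ : ℝ, T ≤ R₀ ∧ ∀ R : ℝ, R₀ ≤ R → ∀ K : ℝ, 0 ≤ K →
    ∃ c : ℝ, 0 < c ∧ ∃ r₀ : ℕ, 3 ≤ r₀ ∧
    ∀ (r : ℕ) [NeZero r], r₀ ≤ r → ∀ χ ∈ prim r, ∀ t : ℝ, 0 ≤ t → t ≤ 1 →
    goodX r b T R K m χ t → ∀ U : ℝ, 0 ≤ U → ∀ N : ℕ, (r : ℝ) ^ (4 * U + 40) ≤ N →
    c * Real.exp (-(6 * η * U)) * (Real.log r) ^ 2 ≤
      ∫ t' : ℝ, ‖AX r χ N U ((1 + δ) * U + 11) (pt r 0 t')‖ ^ 2 * kw r m t t' := by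
  obtain ⟨T₀, hT₀, hloc⟩ := local_lower_strip b 4 η hb (by norm_num) hη hη1
  refine ⟨T₀, hT₀, fun T hT => ?_⟩
  obtain ⟨R₀, hTR₀, hloc2⟩ := hloc T hT
  refine ⟨R₀, hTR₀, fun R hR K hK => ?_⟩
  obtain ⟨c₀, hc₀, hlow⟩ := hloc2 R hR
  have hT1 : 1 ≤ T := hT₀.trans hT
  have hR1 : 1 ≤ R := hT1.trans (hTR₀.trans hR)
  have hR0 : 0 ≤ R := by linarith
  obtain ⟨J, C, r₁, hC, hr₁, hsep⟩ := separation_x η δ R hη hη1 hδ hδ1 hR0 m hm
  obtain ⟨r₂, hr₂, hleft⟩ := left_ge b hb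
  have hlim : Filter.Tendsto (fun r : ℕ => C * 2 ^ J * (r : ℝ) ^ (-(7 / 8 : ℝ))) Filter.atTop (nhds 0) := by
    have h1 := (tendsto_rpow_neg_atTop (show (0 : ℝ) < 7 / 8 by norm_num)).comp tendsto_natCast_atTop_atTop
    have h2 := h1.const_mul (C * 2 ^ J)
    rw [mul_zero] at h2
    exact h2
  obtain ⟨r₃, hr₃⟩ := Filter.eventually_atTop.mp (hlim.eventually (ge_mem_nhds (show (0 : ℝ) < c₀ / 2 by positivity)))
  have hlim2 : Filter.Tendsto (fun r : ℕ => Real.log (r : ℝ)) Filter.atTop Filter.atTop :=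
    Real.tendsto_log_atTop.comp tendsto_natCast_atTop_atTop
  obtain ⟨r₄, hr₄⟩ := Filter.eventually_atTop.mp (hlim2.eventually (Filter.eventually_gt_atTop (2 * T)))
  set C' : ℝ := C + 1 with hC'
  have hC'0 : 0 < C' := by positivity
  refine ⟨c₀ ^ 2 / (16 * C' ^ 2 * (K + 1)), by positivity, max (max 3 r₁) (max (max r₂ r₃) r₄),
    le_trans (le_max_left _ _) (le_max_left _ _), ?_⟩
  intro r _ hr χ hχp t ht0 ht1 hgood U hU0 N hN
  have hr3 : 3 ≤ r := (le_max_left _ _).trans ((le_max_left _ _).trans hr)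
  have hrr1 : r₁ ≤ r := (le_max_right _ _).trans ((le_max_left _ _).trans hr)
  have hrr23 : max r₂ r₃ ≤ r := (le_max_left _ _).trans ((le_max_right _ _).trans hr)
  have hrr2 : r₂ ≤ r := (le_max_left _ _).trans hrr23
  have hrr3 : r₃ ≤ r := (le_max_right _ _).trans hrr23
  have hrr4 : r₄ ≤ r := (le_max_right _ _).trans ((le_max_right _ _).trans hr)
  have hLT : 2 * T < Real.log r := hr₄ r hrr4
  have hr0 : (0 : ℝ) < r := by exact_mod_cast (by omega : 0 < r)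
  set L : ℝ := Real.log r with hL
  have hL1 : 1 ≤ L := by
    rw [hL, Real.le_log_iff_exp_le hr0]
    have h1 := Real.exp_one_lt_d9
    have h2 : (3 : ℝ) ≤ r := by exact_mod_cast hr3
    linarith
  have hL0 : 0 < L := by linarith
  have hprim : χ.IsPrimitive := by
    classical
    unfold prim at hχp
    exact (Finset.mem_filter.mp hχp).2
  have hχ : χ ≠ 1 := by
    rintro rfl
    have h1 : (1 : DirichletCharacter ℂ r).conductor = r := hprim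
    rw [DirichletCharacter.conductor_one] at h1
    omega
  have htabs : |t| ≤ 1 := by rw [abs_of_nonneg ht0]; exact ht1
  obtain ⟨G0, G1, G2, G3, G4⟩ := hgood
  set m0 : ℂ := MM r χ (pt r b t) with hm0
  set f : ℂ → ℂ := fun z => χ.LFunction (pz r t z) * m0 with hf
  set P : ℂ → ℂ := fun z => (1 / (L : ℂ)) * PP r χ N U (pz r t z) with hP
  have hfd : ∀ z, HasDerivAt f (deriv χ.LFunction (pz r t z) * m0 / (L : ℂ)) z := fun z =>
    deriv_L_pz r (by omega) χ hχ m0 t z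
  have hfe : Differentiable ℂ f := fun z => (hfd z).differentiableAt
  have hPe : Differentiable ℂ P := (PP_entire r χ N U t).const_mul _
  have hpb : pz r t (b : ℂ) = pt r b t := pz_real r t b
  have hpmb : pz r t (-(b : ℂ)) = pt r (-b) t := by
    rw [← pz_real r t (-b)]; push_cast; rfl
  -- (0), (1)
  have Hgen : ∀ S : ℝ, 1 ≤ S → Real.circleAverage (fun w => ‖χ.LFunction (pz r t w) * m0‖ ^ 2) 0 (S + 1)
      ≤ Real.exp (7 * S) → ∀ z ∈ Metric.closedBall (0 : ℂ) S, ‖f z‖ ≤ Real.exp (4 * S) := by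
    intro S hS1 hG z hz
    have hz' : ‖z‖ ≤ S := by rwa [mem_closedBall_zero_iff] at hz
    have h1 := sq_le_circleAverage f hfe S (Real.exp (7 * S)) hS1 hG z hz'
    have h2 : S + 1 ≤ Real.exp S := Real.add_one_le_exp S
    have h3 : (S + 1) * Real.exp (7 * S) ≤ Real.exp (4 * S) ^ 2 := by
      calc (S + 1) * Real.exp (7 * S) ≤ Real.exp S * Real.exp (7 * S) := by gcongr
        _ = Real.exp (4 * S) ^ 2 := by
            rw [← Real.exp_add, ← Real.exp_nat_mul]; congr 1; push_cast; ring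
    exact (pow_le_pow_iff_left₀ (norm_nonneg _) (Real.exp_pos _).le (by norm_num)).mp (h1.trans h3)
  have H0 := Hgen T hT1 G0
  have H1 := Hgen R hR1 G1
  -- symmetry of the zeros
  have Hsym : ∀ z ∈ Metric.closedBall (0 : ℂ) T, f z = 0 → f (-(starRingEnd ℂ) z) = 0 := by
    intro z hz h0
    have hz' : ‖z‖ ≤ T := by rwa [mem_closedBall_zero_iff] at hz
    have h1 : χ.LFunction (pz r t z) * m0 = 0 := h0
    show χ.LFunction (pz r t (-(starRingEnd ℂ) z)) * m0 = 0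
    rcases mul_eq_zero.mp h1 with h2 | h2
    · have h3 : |z.re| < Real.log r / 2 := by
        have := Complex.abs_re_le_norm z
        rw [← hL]
        linarith
      rw [L_zero_symm r (by omega) χ hprim t z h3 h2, zero_mul]
    · rw [h2, mul_zero]
  -- (2)
  have hfb : f (b : ℂ) = χ.LFunction (pt r b t) * m0 := by
    show χ.LFunction (pz r t (b : ℂ)) * m0 = _
    rw [hpb]
  have H2 : 1 / 2 ≤ ‖f (b : ℂ)‖ := by
    rw [hfb]
    have h1 : ‖(1 : ℂ)‖ ≤ ‖χ.LFunction (pt r b t) * m0 - 1‖ + ‖χ.LFunction (pt r b t) * m0‖ := by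
      have : (1 : ℂ) = -(χ.LFunction (pt r b t) * m0 - 1) + χ.LFunction (pt r b t) * m0 := by ring
      calc ‖(1 : ℂ)‖ = ‖-(χ.LFunction (pt r b t) * m0 - 1) + χ.LFunction (pt r b t) * m0‖ := by rw [← this]
        _ ≤ ‖-(χ.LFunction (pt r b t) * m0 - 1)‖ + ‖χ.LFunction (pt r b t) * m0‖ := norm_add_le _ _
        _ = _ := by rw [norm_neg]
    rw [norm_one] at h1
    linarith
  -- (3)
  have H3 : ‖deriv f (b : ℂ)‖ ≤ 1 / 16 := by
    rw [(hfd (b : ℂ)).deriv, hpb, norm_div, Complex.norm_real, Real.norm_of_nonneg hL0.le, div_le_iff₀ hL0]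
    linarith
  -- (4)
  have H4 : Real.exp (b / 2) * ‖f (b : ℂ)‖ ≤ ‖f (-(b : ℂ))‖ := by
    have h1 := hleft r hrr2 χ hprim t htabs
    have h2 : f (-(b : ℂ)) = χ.LFunction (pt r (-b) t) * m0 := by
      show χ.LFunction (pz r t (-(b : ℂ))) * m0 = _
      rw [hpmb]
    rw [hfb, h2, norm_mul, norm_mul, ← mul_assoc]
    exact mul_le_mul_of_nonneg_right h1 (norm_nonneg _)
  obtain ⟨z, hz, hzη, hzc⟩ := hlow f P hfe hPe H0 H1 Hsym H2 H3 H4
  have hz' : ‖z‖ ≤ R := by rwa [mem_closedBall_zero_iff] at hz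
  have hLc : (L : ℂ) ≠ 0 := by exact_mod_cast hL0.ne'
  have hexpr : deriv f z + P z * f z = -(m0 / (L : ℂ)) * GG r χ N U (pz r t z) := by
    rw [(hfd z).deriv]
    show deriv χ.LFunction (pz r t z) * m0 / (L : ℂ) + (1 / (L : ℂ)) * PP r χ N U (pz r t z) * (χ.LFunction (pz r t z) * m0) = _
    unfold GG
    field_simp
    ring
  rw [hexpr, norm_mul, norm_neg, norm_div, Complex.norm_real, Real.norm_of_nonneg hL0.le] at hzc
  have hs := hsep r hrr1 χ hχ U hU0 N hN t z hz' hzη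
  set E : ℝ := Real.exp (3 * η * U) with hE
  have hE1 : 1 ≤ E := by rw [hE]; exact Real.one_le_exp (by positivity)
  have hE0 : 0 < E := by linarith
  set I₀ : ℝ := ∫ t' : ℝ, ‖χ.LFunction (pt r 0 t')‖ * ‖AX r χ N U ((1 + δ) * U + 11) (pt r 0 t')‖ * kw r m t t' with hI₀
  have hkw : ∀ t' : ℝ, 0 ≤ kw r m t t' := by
    intro t'; unfold kw; rw [← hL]; positivity
  have hI0 : 0 ≤ I₀ := integral_nonneg fun t' => mul_nonneg (mul_nonneg (norm_nonneg _) (norm_nonneg _)) (hkw t')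
  have hm0b : ‖m0‖ ≤ (r : ℝ) ^ (1 / 8 : ℝ) := by
    refine MM_le r (by omega) χ _ ?_
    have : (pt r b t).re = 1 / 2 + b / L := by
      unfold pt
      rw [← hL]
      simp [Complex.add_re, Complex.div_ofReal_re]
    rw [this]
    positivity
  have hm00 : 0 ≤ ‖m0‖ := norm_nonneg _
  have herr : ‖m0‖ * (C * (1 + |t|) ^ J / r) ≤ c₀ / 2 := by
    have e1 : (1 + |t|) ^ J ≤ 2 ^ J := by
      have := abs_nonneg t
      exact pow_le_pow_left₀ (by linarith) (by linarith) J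
    have e2 : (r : ℝ) ^ (1 / 8 : ℝ) / r = (r : ℝ) ^ (-(7 / 8 : ℝ)) := by
      rw [show (-(7 / 8 : ℝ)) = 1 / 8 - 1 by norm_num, Real.rpow_sub hr0, Real.rpow_one]
    calc ‖m0‖ * (C * (1 + |t|) ^ J / r) ≤ (r : ℝ) ^ (1 / 8 : ℝ) * (C * 2 ^ J / r) := by gcongr
      _ = C * 2 ^ J * ((r : ℝ) ^ (1 / 8 : ℝ) / r) := by ring
      _ = C * 2 ^ J * (r : ℝ) ^ (-(7 / 8 : ℝ)) := by rw [e2]
      _ ≤ c₀ / 2 := hr₃ r hrr3
  have hmain : c₀ * L / 2 ≤ C' * (E * (‖m0‖ * I₀)) := by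
    have e1 : c₀ * L ≤ ‖m0‖ * ‖GG r χ N U (pz r t z)‖ := by
      have : ‖m0‖ / L * ‖GG r χ N U (pz r t z)‖ = ‖m0‖ * ‖GG r χ N U (pz r t z)‖ / L := by ring
      rw [this, le_div_iff₀ hL0] at hzc
      exact hzc
    have e2 : ‖m0‖ * ‖GG r χ N U (pz r t z)‖ ≤ ‖m0‖ * (C * E * I₀ + C * (1 + |t|) ^ J / r) := by gcongr
    have e3 : ‖m0‖ * (C * E * I₀ + C * (1 + |t|) ^ J / r) =
        C * (E * (‖m0‖ * I₀)) + ‖m0‖ * (C * (1 + |t|) ^ J / r) := by ring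
    have e4 : c₀ ≤ c₀ * L := by nlinarith
    have e5 : 0 ≤ E * (‖m0‖ * I₀) := by positivity
    rw [hC']
    nlinarith
  have hInt : ‖m0‖ * I₀ = ∫ t' : ℝ, ‖χ.LFunction (pt r 0 t') * m0‖ *
      ‖AX r χ N U ((1 + δ) * U + 11) (pt r 0 t')‖ * kw r m t t' := by
    rw [hI₀, ← integral_const_mul]
    congr 1
    funext t'
    rw [norm_mul]
    ring
  have ha : c₀ * L / (2 * C' * E) ≤ ∫ t' : ℝ, ‖χ.LFunction (pt r 0 t') * m0‖ *
      ‖AX r χ N U ((1 + δ) * U + 11) (pt r 0 t')‖ * kw r m t t' := by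
    rw [← hInt, div_le_iff₀ (by positivity)]
    nlinarith
  have hcs := weighted_cs (fun t' => ‖χ.LFunction (pt r 0 t') * m0‖)
    (fun t' => ‖AX r χ N U ((1 + δ) * U + 11) (pt r 0 t')‖)
    (fun t' => kw r m t t') (fun _ => norm_nonneg _) (fun _ => norm_nonneg _) hkw
    (int_L r (by omega) χ hχ m0 t m hm) (int_AX r (by omega) χ N U ((1 + δ) * U + 11) t m (by omega))
    (c₀ * L / (2 * C' * E)) (K + 1) (by positivity) (by positivity) (by linarith) ha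
  refine le_trans (le_of_eq ?_) hcs
  have hEE : Real.exp (-(6 * η * U)) = 1 / E ^ 2 := by
    rw [hE, ← Real.exp_nat_mul, one_div, ← Real.exp_neg]
    congr 1
    push_cast
    ring
  rw [hEE]
  field_simp
  ring

end Pool.Agent.SO
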