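import Mathlib
import Pool.Agent.Lib.MP_9cfc0a_nt.SX.Defs3
import Pool.Agent.Lib.MP_9cfc0a_nt.Mg.G008
import Pool.Agent.Lib.MP_9cfc0a_nt.Mg.G076
import Pool.Agent.Lib.MP_9cfc0a_nt.EMKey

set_option autoImplicit false

namespace Pool.Agent.SO

open Complex MeasureTheory Pool.Agent.EM

/-- The window in the variable `u = log x`. -/
noncomputable def wndx (r : ℕ) (U W u : ℝ) : ℝ :=
  Real.smoothTransition (u / Real.log r - U) - Real.smoothTransition (u / Real.log r - W)

/-- Its derivative, times `log r`. -/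
noncomputable def wndx' (r : ℕ) (U W u : ℝ) : ℝ :=
  deriv Real.smoothTransition (u / Real.log r - U) -
    deriv Real.smoothTransition (u / Real.log r - W)

lemma XP_wnd_cont (r : ℕ) (U W : ℝ) : Continuous (wndx r U W) := by
  unfold wndx
  exact (P1_sT_cont.comp (by fun_prop)).sub (P1_sT_cont.comp (by fun_prop))

lemma XP_wnd'_cont (r : ℕ) (U W : ℝ) : Continuous (wndx' r U W) := by
  unfold wndx'
  exact (P1_sT_deriv_cont.comp (by fun_prop)).sub (P1_sT_deriv_cont.comp (by fun_prop))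

lemma XP_wnd_zero (r : ℕ) (U W u : ℝ) (hW : U + 1 ≤ W) (h : W + 1 ≤ u / Real.log r) : wndx r U W u = 0 := by
  unfold wndx
  rw [Real.smoothTransition.one_of_one_le (by linarith), Real.smoothTransition.one_of_one_le (by linarith), sub_self]

lemma XP_wnd'_zero (r : ℕ) (U W u : ℝ) (hW : U + 1 ≤ W) (h : W + 1 < u / Real.log r) : wndx' r U W u = 0 := by
  unfold wndx'
  rw [P1_sT_deriv_zero _ (by linarith), P1_sT_deriv_zero _ (by linarith), sub_self]

lemma XP_wnd_deriv (r : ℕ) (U W u : ℝ) : HasDerivAt (wndx r U W) (wndx' r U W u / Real.log r) u := by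
  have h1 : HasDerivAt (fun u : ℝ => u / Real.log r - U) (1 / Real.log r) u :=
    ((hasDerivAt_id u).div_const _).sub_const _
  have h2 : HasDerivAt (fun u : ℝ => u / Real.log r - W) (1 / Real.log r) u :=
    ((hasDerivAt_id u).div_const _).sub_const _
  have h3 := (P1_sT_hasDeriv (u / Real.log r - U)).comp u h1
  have h4 := (P1_sT_hasDeriv (u / Real.log r - W)).comp u h2
  refine (h3.sub h4).congr_deriv ?_
  unfold wndx'
  ring

/-- the smooth function -/
noncomputable def XP_F (r : ℕ) (U W t u : ℝ) : ℂ := (wndx r U W u : ℂ) * Complex.exp (-(1 / 2 + t * I) * u)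

/-- its derivative -/
noncomputable def XP_F' (r : ℕ) (U W t u : ℝ) : ℂ :=
  ((wndx' r U W u / Real.log r : ℝ) : ℂ) * Complex.exp (-(1 / 2 + t * I) * u) +
    (wndx r U W u : ℂ) * (Complex.exp (-(1 / 2 + t * I) * u) * (-(1 / 2 + t * I)))

lemma XP_F_deriv (r : ℕ) (U W t u : ℝ) : HasDerivAt (XP_F r U W t) (XP_F' r U W t u) u := by
  have h1 : HasDerivAt (fun u : ℝ => (wndx r U W u : ℂ)) ((wndx' r U W u / Real.log r : ℝ) : ℂ) u :=
    (XP_wnd_deriv r U W u).ofReal_comp
  have h2 : HasDerivAt (fun u : ℝ => -(1 / 2 + (t : ℂ) * I) * (u : ℂ)) (-(1 / 2 + (t : ℂ) * I) * 1) u :=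
    ((hasDerivAt_id u).ofReal_comp).const_mul _
  have h3 := h2.cexp
  have h4 := h1.mul h3
  refine h4.congr_deriv ?_
  unfold XP_F'
  ring

lemma XP_F'_cont (r : ℕ) (U W t : ℝ) : Continuous (XP_F' r U W t) := by
  unfold XP_F'
  have h1 := XP_wnd_cont r U W
  have h2 := XP_wnd'_cont r U W
  fun_prop

/-- XP1. Partial summation for the window sum. PROOF. The proof of `AA_fourier` (file SO/P1.lean) with
`W` in place of `U + 10` (helper lemmas of that file may be used). -/
theorem AX_fourier (r : ℕ) (hr : 2 ≤ r) (χ : DirichletCharacter ℂ r) (N : ℕ) (U W : ℝ)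
    (hU : 0 ≤ U) (hW : U + 1 ≤ W) (hN : (r : ℝ) ^ (W + 1) ≤ N) (t : ℝ) :
    AX r χ N U W (pt r 0 t) =
      (1 / 2 + t * I) * (∫ u : ℝ, (psiC χ (Real.exp u) *
          ((Real.exp (-u / 2) * wndx r U W u : ℝ) : ℂ)) * Complex.exp (-((t : ℂ) * u * I))) -
      (1 / (Real.log r : ℂ)) * (∫ u : ℝ, (psiC χ (Real.exp u) *
          ((Real.exp (-u / 2) * wndx' r U W u : ℝ) : ℂ)) * Complex.exp (-((t : ℂ) * u * I))) := by
  have hlr : 0 < Real.log r := Real.log_pos (by exact_mod_cast (by omega : 1 < r))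
  have hr0 : (0 : ℝ) < r := by exact_mod_cast (by omega : 0 < r)
  have hNpos : (0 : ℝ) < N := lt_of_lt_of_le (Real.rpow_pos_of_pos hr0 _) hN
  set T : ℝ := Real.log N with hT
  have hTU : W + 1 ≤ T / Real.log r := by
    rw [le_div_iff₀ hlr, hT]
    have h1 := Real.log_le_log (Real.rpow_pos_of_pos hr0 _) hN
    rwa [Real.log_rpow hr0] at h1
  have hT0 : 0 ≤ T := Real.log_natCast_nonneg N
  have hgt : ∀ u, T < u → W + 1 < u / Real.log r := by
    intro u hu
    exact lt_of_le_of_lt hTU (div_lt_div_of_pos_right hu hlr)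
  have hFT : XP_F r U W t T = 0 := by
    unfold XP_F
    rw [XP_wnd_zero r U W T hW hTU]
    simp
  have hF'gt : ∀ u, T < u → XP_F' r U W t u = 0 := by
    intro u hu
    unfold XP_F'
    rw [XP_wnd_zero r U W u hW (hgt u hu).le, XP_wnd'_zero r U W u hW (hgt u hu)]
    simp
  -- one term
  have hterm : ∀ n ∈ Finset.Icc 1 N, XP_F r U W t (Real.log n) =
      -∫ u in Set.Icc 0 T, (Set.Ici (Real.log n)).indicator (XP_F' r U W t) u := by
    intro n hn
    obtain ⟨hn1, hnN⟩ := Finset.mem_Icc.mp hn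
    have hn0 : (0 : ℝ) < n := by exact_mod_cast hn1
    have hlog : Real.log n ≤ T := Real.log_le_log hn0 (by exact_mod_cast hnN)
    have hlog0 : 0 ≤ Real.log n := Real.log_natCast_nonneg n
    rw [setIntegral_indicator measurableSet_Ici]
    have h1 : Set.Icc 0 T ∩ Set.Ici (Real.log n) = Set.Icc (Real.log n) T := by
      ext u
      simp only [Set.mem_inter_iff, Set.mem_Icc, Set.mem_Ici]
      constructor
      · rintro ⟨⟨h1, h2⟩, h3⟩
        exact ⟨h3, h2⟩
      · rintro ⟨h1, h2⟩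
        exact ⟨⟨hlog0.trans h1, h2⟩, h1⟩
    rw [h1, integral_Icc_eq_integral_Ioc, ← intervalIntegral.integral_of_le hlog,
      intervalIntegral.integral_eq_sub_of_hasDerivAt (f := XP_F r U W t) (fun u _ => XP_F_deriv r U W t u)
        ((XP_F'_cont r U W t).intervalIntegrable _ _), hFT]
    ring
  have hAX : AX r χ N U W (pt r 0 t) = ∑ n ∈ Finset.Icc 1 N,
      (χ n * ((ArithmeticFunction.vonMangoldt n : ℝ) : ℂ)) * XP_F r U W t (Real.log n) := by
    unfold AX
    refine Finset.sum_congr rfl fun n hn => ?_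
    obtain ⟨hn1, hnN⟩ := Finset.mem_Icc.mp hn
    have hn0 : (n : ℂ) ≠ 0 := by exact_mod_cast (by omega : n ≠ 0)
    have h1 : (n : ℂ) ^ (-(pt r 0 t)) = Complex.exp (-(1 / 2 + t * I) * (Real.log n : ℝ)) := by
      rw [Complex.cpow_def_of_ne_zero hn0, ← Complex.natCast_log]
      congr 1
      unfold pt
      push_cast
      ring
    have h2 : th r U n - th r W n = wndx r U W (Real.log n) := by
      unfold th wndx
      congr 2
    rw [h1, h2]
    unfold XP_F
    push_cast
    ring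
  have hind : ∀ u ∈ Set.Icc (0 : ℝ) T, ∑ n ∈ Finset.Icc 1 N,
      (χ n * ((ArithmeticFunction.vonMangoldt n : ℝ) : ℂ)) * (Set.Ici (Real.log n)).indicator (XP_F' r U W t) u =
        psiC χ (Real.exp u) * XP_F' r U W t u := by
    intro u hu
    have h1 : ⌊Real.exp u⌋₊ ≤ N := by
      have h2 : Real.exp u ≤ N := (Real.le_log_iff_exp_le hNpos).mp hu.2
      exact_mod_cast (Nat.floor_le (Real.exp_pos u).le).trans h2
    unfold psiC
    rw [Finset.sum_mul]
    symm
    refine Finset.sum_subset_zero_on_sdiff (Finset.Icc_subset_Icc_right h1) ?_ ?_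
    · intro n hn
      rw [Finset.mem_sdiff, Finset.mem_Icc, Finset.mem_Icc] at hn
      obtain ⟨⟨hn1, hnN⟩, hn2⟩ := hn
      have h3 : ⌊Real.exp u⌋₊ < n := by
        by_contra h4
        exact hn2 ⟨hn1, by omega⟩
      have h4 : Real.exp u < n := (Nat.floor_lt (Real.exp_pos u).le).mp h3
      have h5 : u < Real.log n := (Real.lt_log_iff_exp_lt (by exact_mod_cast hn1)).mpr h4
      rw [Set.indicator_of_notMem (by simpa using h5), mul_zero]
    · intro n hn
      obtain ⟨hn1, hn2⟩ := Finset.mem_Icc.mp hn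
      have h4 : (n : ℝ) ≤ Real.exp u := (Nat.le_floor_iff (Real.exp_pos u).le).mp hn2
      have h5 : Real.log n ≤ u := (Real.log_le_iff_le_exp (by exact_mod_cast hn1)).mpr h4
      rw [Set.indicator_of_mem (by simpa using h5)]
  have hmain : AX r χ N U W (pt r 0 t) = -∫ u : ℝ, psiC χ (Real.exp u) * XP_F' r U W t u := by
    rw [hAX]
    have h1 : ∑ n ∈ Finset.Icc 1 N, (χ n * ((ArithmeticFunction.vonMangoldt n : ℝ) : ℂ)) * XP_F r U W t (Real.log n) =
        -∑ n ∈ Finset.Icc 1 N, ∫ u in Set.Icc 0 T, (χ n * ((ArithmeticFunction.vonMangoldt n : ℝ) : ℂ)) *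
          (Set.Ici (Real.log n)).indicator (XP_F' r U W t) u := by
      rw [← Finset.sum_neg_distrib]
      refine Finset.sum_congr rfl fun n hn => ?_
      rw [hterm n hn, integral_const_mul]
      ring
    have h5 : ∫ u in Set.Icc (0 : ℝ) T, psiC χ (Real.exp u) * XP_F' r U W t u =
        ∫ u : ℝ, psiC χ (Real.exp u) * XP_F' r U W t u := by
      refine setIntegral_eq_integral_of_forall_compl_eq_zero fun u hu => ?_
      rw [Set.mem_Icc, not_and_or] at hu
      rcases hu with hu | hu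
      · push Not at hu
        have h2 : ⌊Real.exp u⌋₊ = 0 := by
          rw [Nat.floor_eq_zero]
          have := Real.exp_lt_exp.mpr hu
          rwa [Real.exp_zero] at this
        unfold psiC
        rw [h2]
        simp
      · push Not at hu
        rw [hF'gt u hu, mul_zero]
    rw [h1, ← integral_finsetSum, ← h5]
    · congr 1
      exact setIntegral_congr_fun measurableSet_Icc hind
    · intro n hn
      have h2 : IntegrableOn (XP_F' r U W t) (Set.Icc 0 T) := (XP_F'_cont r U W t).continuousOn.integrableOn_Icc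
      exact (h2.indicator measurableSet_Ici).const_mul _
  have i1 : Integrable (fun u : ℝ => psiC χ (Real.exp u) *
      ((((Real.exp (-u / 2) * wndx r U W u : ℝ) : ℂ)) * Complex.exp (-((t : ℂ) * u * I)))) := by
    refine P1_int r χ _ ?_ T ?_
    · have h1 := XP_wnd_cont r U W
      fun_prop
    · intro u hu
      rw [XP_wnd_zero r U W u hW (hgt u hu).le]
      simp
  have i2 : Integrable (fun u : ℝ => psiC χ (Real.exp u) *
      ((((Real.exp (-u / 2) * wndx' r U W u : ℝ) : ℂ)) * Complex.exp (-((t : ℂ) * u * I)))) := by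
    refine P1_int r χ _ ?_ T ?_
    · have h1 := XP_wnd'_cont r U W
      fun_prop
    · intro u hu
      rw [XP_wnd'_zero r U W u hW (hgt u hu)]
      simp
  have e1 : (fun u : ℝ => (psiC χ (Real.exp u) *
      ((Real.exp (-u / 2) * wndx r U W u : ℝ) : ℂ)) * Complex.exp (-((t : ℂ) * u * I))) =
      fun u : ℝ => psiC χ (Real.exp u) *
      ((((Real.exp (-u / 2) * wndx r U W u : ℝ) : ℂ)) * Complex.exp (-((t : ℂ) * u * I))) := by
    funext u; ring
  have e2 : (fun u : ℝ => (psiC χ (Real.exp u) *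
      ((Real.exp (-u / 2) * wndx' r U W u : ℝ) : ℂ)) * Complex.exp (-((t : ℂ) * u * I))) =
      fun u : ℝ => psiC χ (Real.exp u) *
      ((((Real.exp (-u / 2) * wndx' r U W u : ℝ) : ℂ)) * Complex.exp (-((t : ℂ) * u * I))) := by
    funext u; ring
  rw [hmain, e1, e2, ← integral_neg, ← integral_const_mul, ← integral_const_mul,
    ← integral_sub (i1.const_mul _) (i2.const_mul _)]
  congr 1
  funext u
  have h1 : Complex.exp (-(1 / 2 + (t : ℂ) * I) * u) = ((Real.exp (-u / 2) : ℝ) : ℂ) * Complex.exp (-((t : ℂ) * u * I)) := by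
    rw [Complex.ofReal_exp, ← Complex.exp_add]
    congr 1
    push_cast
    ring
  unfold XP_F'
  rw [h1]
  push_cast
  ring

/-- XP2. Plancherel bound. PROOF. The proof of `plancherel_AA` (file SO/P2.lean) with `W` in place of
`U + 10` (the constant does not depend on `U, W`: `|wndx| ≤ 1`, `|wndx'| ≤ 2 M`). -/
theorem plancherel_AX : ∃ C : ℝ, 0 < C ∧ ∀ r : ℕ, 3 ≤ r → ∀ χ : DirichletCharacter ℂ r,
    ∀ (N : ℕ) (U W : ℝ), 0 ≤ U → U + 1 ≤ W → (r : ℝ) ^ (W + 1) ≤ N →
    Integrable (fun t : ℝ => ‖AX r χ N U W (pt r 0 t)‖ ^ 2 / (1 + |t|) ^ 4) ∧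
    ∫ t : ℝ, ‖AX r χ N U W (pt r 0 t)‖ ^ 2 / (1 + |t|) ^ 4 ≤
      C * ∫ x in Set.Ioc ((r : ℝ) ^ U) ((r : ℝ) ^ (W + 1)), ‖psiC χ x‖ ^ 2 / x ^ 2 := by
  obtain ⟨M, hM0, hM⟩ := P2_sT_deriv_bound
  refine ⟨4 * Real.pi * (1 + (2 * M) ^ 2), by positivity, ?_⟩
  intro r hr χ N U W hU hW hN
  have hr0 : (0 : ℝ) < r := by exact_mod_cast (by omega : 0 < r)
  have hlr1 : 1 ≤ Real.log r := by
    rw [Real.le_log_iff_exp_le hr0]
    have h1 := Real.exp_one_lt_d9
    have h2 : (3 : ℝ) ≤ r := by exact_mod_cast hr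
    linarith
  have hlr : 0 < Real.log r := by linarith
  set a : ℝ := U * Real.log r with ha
  set b : ℝ := (W + 1) * Real.log r with hb
  have ha0 : 0 ≤ a := by positivity
  have hab : a ≤ b := by rw [ha, hb]; nlinarith
  have hwc : Continuous (wndx r U W) := by
    unfold wndx
    exact (Real.smoothTransition.continuous.comp (by fun_prop)).sub (Real.smoothTransition.continuous.comp (by fun_prop))
  have hwc' : Continuous (wndx' r U W) := by
    unfold wndx'
    exact (P2_sT_deriv_cont.comp (by fun_prop)).sub (P2_sT_deriv_cont.comp (by fun_prop))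
  have hlt : ∀ u, u < a → u / Real.log r < U := by
    intro u hu
    rw [div_lt_iff₀ hlr]; exact hu
  have hgt : ∀ u, b < u → W + 1 < u / Real.log r := by
    intro u hu
    rw [lt_div_iff₀ hlr]; exact hu
  have hw1 : ∀ u, |wndx r U W u| ≤ 1 := by
    intro u
    unfold wndx
    have e1 := Real.smoothTransition.nonneg (u / Real.log r - U)
    have e2 := Real.smoothTransition.le_one (u / Real.log r - U)
    have e3 := Real.smoothTransition.nonneg (u / Real.log r - W)
    have e4 := Real.smoothTransition.le_one (u / Real.log r - W)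
    rw [abs_le]
    constructor <;> linarith
  have hw2 : ∀ u, |wndx' r U W u| ≤ 2 * M := by
    intro u
    unfold wndx'
    refine (abs_sub _ _).trans ?_
    linarith [hM (u / Real.log r - U), hM (u / Real.log r - W)]
  obtain ⟨i1, j1, b1⟩ := P2_l2 r χ (wndx r U W) hwc 1 a b ha0 hab hw1
    (fun u hu => by
      have := hlt u hu
      unfold wndx
      rw [Real.smoothTransition.zero_of_nonpos (by linarith), Real.smoothTransition.zero_of_nonpos (by linarith), sub_self])
    (fun u hu => by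
      have := hgt u hu
      unfold wndx
      rw [Real.smoothTransition.one_of_one_le (by linarith), Real.smoothTransition.one_of_one_le (by linarith), sub_self])
  obtain ⟨i2, j2, b2⟩ := P2_l2 r χ (wndx' r U W) hwc' (2 * M) a b ha0 hab hw2
    (fun u hu => by
      have := hlt u hu
      unfold wndx'
      rw [P2_sT_deriv_zero' _ (by linarith), P2_sT_deriv_zero' _ (by linarith), sub_self])
    (fun u hu => by
      have := hgt u hu
      unfold wndx'
      rw [P2_sT_deriv_zero _ (by linarith), P2_sT_deriv_zero _ (by linarith), sub_self])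
  have hea : Real.exp a = (r : ℝ) ^ U := by
    rw [ha, Real.rpow_def_of_pos hr0, mul_comm]
  have heb : Real.exp b = (r : ℝ) ^ (W + 1) := by
    rw [hb, Real.rpow_def_of_pos hr0, mul_comm]
  rw [hea, heb] at b1 b2
  obtain ⟨p1, q1⟩ := MC.C2.plancherel_real _ i1 j1
  obtain ⟨p2, q2⟩ := MC.C2.plancherel_real _ i2 j2
  set I0 : ℝ := ∫ x in Set.Ioc ((r : ℝ) ^ U) ((r : ℝ) ^ (W + 1)), ‖psiC χ x‖ ^ 2 / x ^ 2 with hI0
  have hpt : ∀ t : ℝ, ‖AX r χ N U W (pt r 0 t)‖ ^ 2 / (1 + |t|) ^ 4 ≤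
      2 * ‖∫ u : ℝ, (psiC χ (Real.exp u) *
          ((Real.exp (-u / 2) * wndx r U W u : ℝ) : ℂ)) * Complex.exp (-((t : ℂ) * u * I))‖ ^ 2 +
      2 * ‖∫ u : ℝ, (psiC χ (Real.exp u) *
          ((Real.exp (-u / 2) * wndx' r U W u : ℝ) : ℂ)) * Complex.exp (-((t : ℂ) * u * I))‖ ^ 2 := by
    intro t
    rw [AX_fourier r (by omega) χ N U W hU hW hN t]
    set A := ∫ u : ℝ, (psiC χ (Real.exp u) *
          ((Real.exp (-u / 2) * wndx r U W u : ℝ) : ℂ)) * Complex.exp (-((t : ℂ) * u * I))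
    set B := ∫ u : ℝ, (psiC χ (Real.exp u) *
          ((Real.exp (-u / 2) * wndx' r U W u : ℝ) : ℂ)) * Complex.exp (-((t : ℂ) * u * I))
    have ht : 0 ≤ |t| := abs_nonneg t
    have e1 : ‖(1 / 2 + (t : ℂ) * I) * A‖ ≤ (1 + |t|) * ‖A‖ := by
      rw [norm_mul]
      refine mul_le_mul_of_nonneg_right ?_ (norm_nonneg _)
      refine (norm_add_le _ _).trans ?_
      rw [norm_mul, Complex.norm_I, mul_one, Complex.norm_real, Real.norm_eq_abs]
      norm_num
    have e2 : ‖1 / (Real.log r : ℂ) * B‖ ≤ ‖B‖ := by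
      rw [norm_mul, norm_div, norm_one, Complex.norm_real, Real.norm_of_nonneg hlr.le]
      have : 1 / Real.log r ≤ 1 := (div_le_one hlr).mpr hlr1
      nlinarith [norm_nonneg B]
    have e3 : ‖(1 / 2 + (t : ℂ) * I) * A - 1 / (Real.log r : ℂ) * B‖ ≤ (1 + |t|) * ‖A‖ + ‖B‖ :=
      (norm_sub_le _ _).trans (add_le_add e1 e2)
    have e4 : ‖(1 / 2 + (t : ℂ) * I) * A - 1 / (Real.log r : ℂ) * B‖ ^ 2 ≤ 2 * ((1 + |t|) ^ 2 * ‖A‖ ^ 2) + 2 * ‖B‖ ^ 2 := by
      have := pow_le_pow_left₀ (norm_nonneg _) e3 2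
      nlinarith [sq_nonneg ((1 + |t|) * ‖A‖ - ‖B‖)]
    rw [div_le_iff₀ (by positivity)]
    refine e4.trans ?_
    have e5 : (1 + |t|) ^ 2 ≤ (1 + |t|) ^ 4 := pow_le_pow_right₀ (by linarith) (by norm_num)
    have e6 : 1 ≤ (1 + |t|) ^ 4 := one_le_pow₀ (by linarith)
    have e7 : 0 ≤ ‖A‖ ^ 2 := by positivity
    have e8 : 0 ≤ ‖B‖ ^ 2 := by positivity
    have e9 := mul_le_mul_of_nonneg_right e5 e7
    have e10 := mul_le_mul_of_nonneg_right e6 e8
    nlinarith
  have hmeas : AEStronglyMeasurable (fun t : ℝ => ‖AX r χ N U W (pt r 0 t)‖ ^ 2 / (1 + |t|) ^ 4) volume := by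
    have hc : Continuous (fun t : ℝ => AX r χ N U W (pt r 0 t)) := by
      unfold AX
      refine continuous_finsetSum _ fun n hn => ?_
      have hn0 : (n : ℂ) ≠ 0 := by
        have := (Finset.mem_Icc.mp hn).1
        exact_mod_cast (by omega : n ≠ 0)
      refine Continuous.mul continuous_const ?_
      refine Continuous.const_cpow ?_ (Or.inl hn0)
      unfold pt
      fun_prop
    have hc2 : Continuous (fun t : ℝ => ‖AX r χ N U W (pt r 0 t)‖ ^ 2 / (1 + |t|) ^ 4) := by
      refine (hc.norm.pow 2).div (by fun_prop) fun t => ?_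
      positivity
    exact hc2.aestronglyMeasurable
  have hint : Integrable (fun t : ℝ => ‖AX r χ N U W (pt r 0 t)‖ ^ 2 / (1 + |t|) ^ 4) := by
    refine Integrable.mono' ((p1.const_mul 2).add (p2.const_mul 2)) hmeas (Filter.Eventually.of_forall fun t => ?_)
    rw [Real.norm_of_nonneg (by positivity)]
    exact hpt t
  refine ⟨hint, ?_⟩
  have h1 := integral_mono hint ((p1.const_mul 2).add (p2.const_mul 2)) hpt
  refine h1.trans ?_
  simp only [Pi.add_apply]
  rw [integral_add (p1.const_mul 2) (p2.const_mul 2), integral_const_mul, integral_const_mul, q1, q2]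
  have hpi := Real.pi_pos
  calc 2 * (2 * Real.pi * ∫ u : ℝ, ‖psiC χ (Real.exp u) * ((Real.exp (-u / 2) * wndx r U W u : ℝ) : ℂ)‖ ^ 2) +
        2 * (2 * Real.pi * ∫ u : ℝ, ‖psiC χ (Real.exp u) * ((Real.exp (-u / 2) * wndx' r U W u : ℝ) : ℂ)‖ ^ 2)
      ≤ 2 * (2 * Real.pi * (1 ^ 2 * I0)) + 2 * (2 * Real.pi * ((2 * M) ^ 2 * I0)) := by gcongr
    _ = 4 * Real.pi * (1 + (2 * M) ^ 2) * I0 := by ring

end Pool.Agent.SO
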