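import Mathlib
import Pool.Agent.Lib.MP_9cfc0a_nt.SX.Defs3
import Pool.Agent.Lib.MP_9cfc0a_nt.SX.XP
import Pool.Agent.Lib.MP_9cfc0a_nt.SX.XR1
import Pool.Agent.Lib.MP_9cfc0a_nt.Mg.G008

set_option autoImplicit false

namespace Pool.Agent.SO

open Complex MeasureTheory Pool.Agent.EM

/-- XR4a. PROOF. As `window_of_grid` (file SO/R4a.lean), with `AX`, `plancherel_AX`, and a fixed `N`. -/
theorem window_of_grid_x : ∃ C : ℝ, 0 < C ∧ ∀ (r m : ℕ) (c : ℝ), 3 ≤ r → 6 ≤ m → 0 ≤ c →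
    ∀ (χ : DirichletCharacter ℂ r) (U W : ℝ) (N : ℕ), 0 ≤ U → U + 1 ≤ W →
    (r : ℝ) ^ (W + 1) ≤ N → ∀ S : Finset ℕ,
    S ⊆ Finset.range ⌊Real.log r⌋₊ → ⌊Real.log r⌋₊ ≤ 2 * S.card →
    (∀ j ∈ S, c * (Real.log r) ^ 2 ≤
      ∫ t' : ℝ, ‖AX r χ N U W (pt r 0 t')‖ ^ 2 * kw r m ((j : ℝ) / (⌊Real.log r⌋₊ : ℝ)) t') →
    c * (Real.log r) ^ 2 ≤
      C * ∫ x in Set.Ioc ((r : ℝ) ^ U) ((r : ℝ) ^ (W + 1)), ‖psiC χ x‖ ^ 2 / x ^ 2 := by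
  obtain ⟨C₁, hC₁, hgrid⟩ := grid_sum
  obtain ⟨C₂, hC₂, hplan⟩ := plancherel_AX
  refine ⟨4 * C₁ * C₂, by positivity, fun r m c hr hm hc χ U W N hU hUW hN S hS hcard h => ?_⟩
  have hrR : (3 : ℝ) ≤ r := by exact_mod_cast hr
  have hL1 : 1 ≤ Real.log (r : ℝ) := by
    rw [Real.le_log_iff_exp_le (by linarith)]
    have := Real.exp_one_lt_d9
    linarith
  obtain ⟨hi, hp⟩ := hplan r hr χ N U W hU hUW hN
  obtain ⟨V, hV⟩ : ∃ V : ℝ, V = ∫ x in Set.Ioc ((r : ℝ) ^ U) ((r : ℝ) ^ (W + 1)),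
    ‖psiC χ x‖ ^ 2 / x ^ 2 := ⟨_, rfl⟩
  rw [← hV] at hp ⊢
  have h1 : (S.card : ℝ) * (c * (Real.log r) ^ 2) ≤
      ∫ t' : ℝ, ∑ j ∈ S, ‖AX r χ N U W (pt r 0 t')‖ ^ 2 *
        kw r m ((j : ℝ) / (⌊Real.log r⌋₊ : ℝ)) t' := by
    rw [integral_finsetSum S fun j _ => int_AX r (by omega) χ N U W _ m (by omega),
      ← nsmul_eq_mul, ← Finset.sum_const]
    exact Finset.sum_le_sum fun j hj => h j hj
  have h2 : ∫ t' : ℝ, ∑ j ∈ S, ‖AX r χ N U W (pt r 0 t')‖ ^ 2 *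
        kw r m ((j : ℝ) / (⌊Real.log r⌋₊ : ℝ)) t' ≤
      ∫ t' : ℝ, C₁ * Real.log r * (‖AX r χ N U W (pt r 0 t')‖ ^ 2 / (1 + |t'|) ^ 4) := by
    refine integral_mono (integrable_finsetSum S fun j _ =>
      int_AX r (by omega) χ N U W _ m (by omega)) (hi.const_mul _) fun t' => ?_
    change ∑ j ∈ S, ‖AX r χ N U W (pt r 0 t')‖ ^ 2 *
        kw r m ((j : ℝ) / (⌊Real.log r⌋₊ : ℝ)) t' ≤
      C₁ * Real.log r * (‖AX r χ N U W (pt r 0 t')‖ ^ 2 / (1 + |t'|) ^ 4)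
    rw [← Finset.mul_sum]
    refine (mul_le_mul_of_nonneg_left (hgrid r m hr hm S hS t') (by positivity)).trans_eq ?_
    ring
  rw [integral_const_mul] at h2
  have h3 : C₁ * Real.log r * ∫ t' : ℝ, ‖AX r χ N U W (pt r 0 t')‖ ^ 2 / (1 + |t'|) ^ 4 ≤
      C₁ * Real.log r * (C₂ * V) := mul_le_mul_of_nonneg_left hp (by positivity)
  have h4 : (S.card : ℝ) * (c * (Real.log r) ^ 2) ≤ C₁ * Real.log r * (C₂ * V) :=
    h1.trans (h2.trans h3)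
  -- `#S ≥ L / 4`
  have h5 : Real.log r / 4 ≤ S.card := by
    have h6 : (⌊Real.log r⌋₊ : ℝ) ≤ 2 * S.card := by exact_mod_cast hcard
    have h7 : Real.log r < (⌊Real.log r⌋₊ : ℝ) + 1 := Nat.lt_floor_add_one _
    have h8 : (1 : ℝ) ≤ (⌊Real.log r⌋₊ : ℝ) := by
      have : 1 ≤ ⌊Real.log r⌋₊ := Nat.le_floor (by rwa [Nat.cast_one])
      exact_mod_cast this
    linarith
  have h9 : Real.log r / 4 * (c * (Real.log r) ^ 2) ≤ C₁ * Real.log r * (C₂ * V) :=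
    (mul_le_mul_of_nonneg_right h5 (by positivity)).trans h4
  have h10 : Real.log r * (c * (Real.log r) ^ 2) ≤ Real.log r * (4 * C₁ * C₂ * V) := by
    linarith
  exact le_of_mul_le_mul_left h10 (by linarith)

end Pool.Agent.SO
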