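import Mathlib
import Pool.Agent.Lib.MP_9cfc0a_nt.SX.Defs3
import Pool.Agent.Lib.MP_9cfc0a_nt.SX.XQ3
import Pool.Agent.Lib.MP_9cfc0a_nt.Mg.G004
import Pool.Agent.Lib.MP_9cfc0a_nt.SX.XR2
import Pool.Agent.Lib.MP_9cfc0a_nt.SX.XR4a

set_option autoImplicit false

namespace Pool.Agent.SO

open Complex MeasureTheory Pool.Agent.EM

/-- XR4b. The theorem for primitive characters, uniform in `U ≥ 0`.

PROOF. As `primitive_lower` (file SO/R4b.lean). `m` from `few_bad_x`; `b, R₁` from it with `ε/2`; `T₀` from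
`good_lower_x b η δ m`; `T = max R₁ T₀`, `R₀` from `good_lower_x`, `R = max R₁ R₀`; `K, r₁` from
`few_bad_x`; `c, r₂` from `good_lower_x`; `C` from `window_of_grid_x`; answer `c/C`. For each `U ≥ 0` use
`N = ⌈r^(4U+40)⌉₊`, `W = (1+δ)U + 11` (so `W + 1 = (1+δ)U + 12 ≤ 2U + 12`), and `window_of_grid_x` with
`c exp (-(6ηU))` in place of `c`. The set of good characters does not depend on `U`. -/
theorem primitive_lower_x (ε η δ : ℝ) (hε : 0 < ε) (hη : 0 < η) (hη1 : η ≤ 1) (hδ : 0 < δ)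
    (hδ1 : δ ≤ 1) : ∃ c : ℝ, 0 < c ∧ ∃ r₀ : ℕ, 3 ≤ r₀ ∧
    ∀ (r : ℕ) [NeZero r], r₀ ≤ r → ∀ T : Finset (DirichletCharacter ℂ r), T ⊆ prim r →
    (∀ χ ∈ T, ∃ U : ℝ, 0 ≤ U ∧
      ∫ x in Set.Ioc ((r : ℝ) ^ U) ((r : ℝ) ^ ((1 + δ) * U + 12)), ‖psiC χ x‖ ^ 2 / x ^ 2 <
        c * Real.exp (-(6 * η * U)) * (Real.log r) ^ 2) →
    (T.card : ℝ) ≤ ε * NN r := by
  classical
  obtain ⟨m, hm, hfb⟩ := few_bad_x
  obtain ⟨b, hb, R₁, hR₁, hfb⟩ := hfb (ε / 2) (by linarith)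
  obtain ⟨T₀, hT₀, hgl⟩ := good_lower_x b η δ hb hη hη1 hδ hδ1 m (by omega)
  obtain ⟨R₀, hR₀, hgl⟩ := hgl (max R₁ T₀) (le_max_right _ _)
  obtain ⟨K, hK, r₁, hr₁, hfb⟩ := hfb (max R₁ T₀) (le_max_left _ _) (max R₁ R₀) (le_max_left _ _)
  obtain ⟨c, hc, r₂, hr₂, hgl⟩ := hgl (max R₁ R₀) (le_max_right _ _) K hK
  obtain ⟨C, hC, hw⟩ := window_of_grid_x
  refine ⟨c / C, div_pos hc hC, max r₁ r₂, hr₂.trans (le_max_right _ _), ?_⟩
  intro r _ hr T hT hbad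
  have hr1 : r₁ ≤ r := (le_max_left _ _).trans hr
  have hr2 : r₂ ≤ r := (le_max_right _ _).trans hr
  have hr3 : 3 ≤ r := hr₂.trans hr2
  have hlog : 1 ≤ Real.log r := by
    have h1 : Real.exp 1 ≤ (r : ℝ) := by
      have h2 : Real.exp 1 < 3 := lt_trans Real.exp_one_lt_d9 (by norm_num)
      have h3 : (3 : ℝ) ≤ r := by exact_mod_cast hr3
      linarith
    have h4 : (0 : ℝ) < r := by exact_mod_cast (by omega : 0 < r)
    rw [Real.le_log_iff_exp_le h4]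
    exact h1
  set J : ℕ := ⌊Real.log r⌋₊ with hJ
  have hJ0 : 0 < J := Nat.floor_pos.2 hlog
  have hJ0' : (0 : ℝ) < J := by exact_mod_cast hJ0
  let P : DirichletCharacter ℂ r → ℕ → Prop := fun χ j =>
    ¬ goodX r b (max R₁ T₀) (max R₁ R₀) K m χ ((j : ℝ) / (J : ℝ))
  have ht : ∀ j < J, 0 ≤ (j : ℝ) / (J : ℝ) ∧ (j : ℝ) / (J : ℝ) ≤ 1 := by
    intro j hj
    refine ⟨by positivity, ?_⟩
    rw [div_le_one hJ0']
    exact_mod_cast hj.le
  have h1 : ∀ j < J, (((T.filter (fun x => P x j)).card : ℕ) : ℝ) ≤ ε / 2 * NN r := by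
    intro j hj
    refine hfb r hr1 _ (ht j hj).1 (ht j hj).2 _ ((Finset.filter_subset _ _).trans hT) ?_
    intro χ hχ
    exact (Finset.mem_filter.1 hχ).2
  have h2 := half_grid T J hJ0 P (ε / 2 * NN r) h1
  have h3 : T.filter (fun x => J < 2 * ((Finset.range J).filter (fun j => P x j)).card) = T := by
    rw [Finset.filter_eq_self]
    intro χ hχ
    by_contra hlt
    rw [not_lt] at hlt
    obtain ⟨U, hU0, hU⟩ := hbad χ hχ
    set S : Finset ℕ := (Finset.range J).filter (fun j => ¬ P χ j) with hS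
    have hcard : ((Finset.range J).filter (fun j => P χ j)).card + S.card = J := by
      rw [hS, Finset.card_filter_add_card_filter_not, Finset.card_range]
    have h4 : J ≤ 2 * S.card := by omega
    have hr0 : (1 : ℝ) ≤ r := by exact_mod_cast (by omega : 1 ≤ r)
    have hdU : δ * U ≤ 1 * U := mul_le_mul_of_nonneg_right hδ1 hU0
    have hdU0 : 0 ≤ δ * U := mul_nonneg hδ.le hU0
    have hN : (r : ℝ) ^ (4 * U + 40) ≤ (⌈(r : ℝ) ^ (4 * U + 40)⌉₊ : ℕ) := Nat.le_ceil _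
    have hN2 : (r : ℝ) ^ (((1 + δ) * U + 11) + 1) ≤ (⌈(r : ℝ) ^ (4 * U + 40)⌉₊ : ℕ) := by
      refine le_trans ?_ hN
      apply Real.rpow_le_rpow_of_exponent_le hr0
      nlinarith
    have h5 := hw r m (c * Real.exp (-(6 * η * U))) hr3 hm (by positivity) χ U
      ((1 + δ) * U + 11) ⌈(r : ℝ) ^ (4 * U + 40)⌉₊ hU0 (by nlinarith) hN2 S
      (Finset.filter_subset _ _) h4 (by
      intro j hj
      rw [hS, Finset.mem_filter, Finset.mem_range] at hj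
      have hg : goodX r b (max R₁ T₀) (max R₁ R₀) K m χ ((j : ℝ) / (J : ℝ)) := not_not.1 hj.2
      exact hgl r hr2 χ (hT hχ) _ (ht j hj.1).1 (ht j hj.1).2 hg U hU0 _ hN)
    rw [show ((1 + δ) * U + 11) + 1 = (1 + δ) * U + 12 by ring] at h5
    have h6 : c / C * Real.exp (-(6 * η * U)) * (Real.log r) ^ 2 ≤
        ∫ x in Set.Ioc ((r : ℝ) ^ U) ((r : ℝ) ^ ((1 + δ) * U + 12)), ‖psiC χ x‖ ^ 2 / x ^ 2 := by
      rw [div_mul_eq_mul_div, div_mul_eq_mul_div, div_le_iff₀ hC, mul_comm _ C]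
      exact h5
    exact absurd hU (not_lt.2 h6)
  rw [h3] at h2
  linarith

end Pool.Agent.SO
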