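import Mathlib
import Pool.Agent.Lib.MP_9cfc0a_nt.SX.Defs3
import Pool.Agent.Lib.MP_9cfc0a_nt.Mg.G009
import Pool.Agent.Lib.MP_9cfc0a_nt.SX.XR4b

set_option autoImplicit false

namespace Pool.Agent.SO

open Complex MeasureTheory Pool.Agent.EM

/-- XA3. PROOF. As `bad_count` (file SO/A3.lean), with `primitive_lower_x`. -/
theorem bad_count_x (ε η δ : ℝ) (hε : 0 < ε) (hη : 0 < η) (hη1 : η ≤ 1) (hδ : 0 < δ)
    (hδ1 : δ ≤ 1) : ∃ c : ℝ, 0 < c ∧ ∃ q₀ : ℕ, 3 ≤ q₀ ∧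
    ∀ (q : ℕ) [NeZero q], q₀ ≤ q → ∀ S : Finset (DirichletCharacter ℂ q),
    (∀ χ ∈ S, (χ.conductor : ℝ) < (q : ℝ) ^ (9 / 20 : ℝ) ∨ ∃ U : ℝ, 0 ≤ U ∧
      ∫ x in Set.Ioc ((χ.conductor : ℝ) ^ U) ((χ.conductor : ℝ) ^ ((1 + δ) * U + 12)),
        ‖psiC χ.primitiveCharacter x‖ ^ 2 / x ^ 2 <
          c * Real.exp (-(6 * η * U)) * (Real.log χ.conductor) ^ 2) →
    (S.card : ℝ) ≤ ε * (q.totient : ℝ) := by
  classical
  obtain ⟨c, hc, r₀, hr₀, hprim⟩ := primitive_lower_x (ε / 4) η δ (by positivity) hη hη1 hδ hδ1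
  obtain ⟨C1, hC1, hsum⟩ := sum_NN
  obtain ⟨C2, hC2, htot⟩ := totient_lower
  obtain ⟨q1, hq1⟩ := A3_large (9 / 20) r₀ (by norm_num)
  obtain ⟨q2, hq2⟩ := A3_large (9 / 100) (16 * C2 / ε) (by norm_num)
  obtain ⟨q3, hq3⟩ := A3_large (8 / 100) (C1 * C2) (by norm_num)
  refine ⟨c, hc, max (max q1 q2) (max q3 3), by omega, ?_⟩
  intro q _ hq S hS
  have hqq1 : q1 ≤ q := by omega
  have hqq2 : q2 ≤ q := by omega
  have hqq3 : q3 ≤ q := by omega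
  have hq3' : 3 ≤ q := by omega
  have hqr : (3 : ℝ) ≤ q := by exact_mod_cast hq3'
  have hq0 : (0 : ℝ) < q := by linarith
  have hq1' : (1 : ℝ) ≤ q := by linarith
  have e1 := hq1 q hqq1
  have e2 := hq2 q hqq2
  have e3 := hq3 q hqq3
  have ht := htot q (by omega)
  have hφ0 : (0 : ℝ) ≤ (Nat.totient q : ℝ) := Nat.cast_nonneg _
  -- small conductors
  have hA : 4 * (q : ℝ) ^ (9 / 10 : ℝ) ≤ ε / 4 * (Nat.totient q : ℝ) := by
    have h1 : (q : ℝ) ^ (99 / 100 : ℝ) = (q : ℝ) ^ (9 / 100 : ℝ) * (q : ℝ) ^ (9 / 10 : ℝ) := by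
      rw [← Real.rpow_add hq0]
      norm_num
    rw [h1] at ht
    have h2 : 16 * C2 / ε * (q : ℝ) ^ (9 / 10 : ℝ) ≤ (q : ℝ) ^ (9 / 100 : ℝ) * (q : ℝ) ^ (9 / 10 : ℝ) :=
      mul_le_mul_of_nonneg_right e2 (by positivity)
    have h3 : 16 * C2 / ε * (q : ℝ) ^ (9 / 10 : ℝ) ≤ C2 * (Nat.totient q : ℝ) := h2.trans ht
    have hC2' : 0 < C2 := by linarith
    have h4 : 16 * C2 / ε * (q : ℝ) ^ (9 / 10 : ℝ) = C2 * (16 / ε * (q : ℝ) ^ (9 / 10 : ℝ)) := by ring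
    rw [h4] at h3
    have h5 := le_of_mul_le_mul_left h3 hC2'
    have h6 : ε / 4 * (16 / ε * (q : ℝ) ^ (9 / 10 : ℝ)) ≤ ε / 4 * (Nat.totient q : ℝ) :=
      mul_le_mul_of_nonneg_left h5 (by positivity)
    have h7 : ε / 4 * (16 / ε * (q : ℝ) ^ (9 / 10 : ℝ)) = 4 * (q : ℝ) ^ (9 / 10 : ℝ) := by
      field_simp
      ring
    linarith
  have hBq : C1 * (q : ℝ) ^ (91 / 100 : ℝ) ≤ (Nat.totient q : ℝ) := by
    have h1 : (q : ℝ) ^ (99 / 100 : ℝ) = (q : ℝ) ^ (8 / 100 : ℝ) * (q : ℝ) ^ (91 / 100 : ℝ) := by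
      rw [← Real.rpow_add hq0]
      norm_num
    rw [h1] at ht
    have h2 : C1 * C2 * (q : ℝ) ^ (91 / 100 : ℝ) ≤ (q : ℝ) ^ (8 / 100 : ℝ) * (q : ℝ) ^ (91 / 100 : ℝ) :=
      mul_le_mul_of_nonneg_right e3 (by positivity)
    have h3 : C2 * (C1 * (q : ℝ) ^ (91 / 100 : ℝ)) ≤ C2 * (Nat.totient q : ℝ) := by
      have h4 : C2 * (C1 * (q : ℝ) ^ (91 / 100 : ℝ)) = C1 * C2 * (q : ℝ) ^ (91 / 100 : ℝ) := by ring
      rw [h4]
      exact h2.trans ht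
    exact le_of_mul_le_mul_left h3 (by linarith)
  set R : ℝ := (q : ℝ) ^ (9 / 20 : ℝ) with hR
  have hR1 : 1 ≤ R := Real.one_le_rpow hq1' (by norm_num)
  have hsmall : ((S.filter (fun χ => (χ.conductor : ℝ) < R)).card : ℝ) ≤ ε / 4 * (Nat.totient q : ℝ) := by
    have h1 := small_conductor q ⌈R⌉₊ (S.filter (fun χ => (χ.conductor : ℝ) < R))
      (fun χ hχ => Nat.lt_ceil.mpr (Finset.mem_filter.mp hχ).2)
    have h2 : ((S.filter (fun χ => (χ.conductor : ℝ) < R)).card : ℝ) ≤ (⌈R⌉₊ : ℝ) ^ 2 := by exact_mod_cast h1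
    have h3 : (⌈R⌉₊ : ℝ) ≤ 2 * R := by
      have h4 := (Nat.ceil_lt_add_one (by linarith : 0 ≤ R)).le
      linarith
    have h5 : (⌈R⌉₊ : ℝ) ^ 2 ≤ (2 * R) ^ 2 := pow_le_pow_left₀ (Nat.cast_nonneg _) h3 2
    have h6 : R ^ 2 = (q : ℝ) ^ (9 / 10 : ℝ) := by
      rw [hR, ← Real.rpow_natCast, ← Real.rpow_mul hq0.le]
      norm_num
    have h7 : (2 * R) ^ 2 = 4 * (q : ℝ) ^ (9 / 10 : ℝ) := by
      rw [mul_pow, h6]
      norm_num
    linarith
  -- large conductors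
  let Bad : (r : ℕ) → DirichletCharacter ℂ r → Prop := fun r ψ => ∃ U : ℝ, 0 ≤ U ∧
      ∫ x in Set.Ioc ((r : ℝ) ^ U) ((r : ℝ) ^ ((1 + δ) * U + 12)), ‖psiC ψ x‖ ^ 2 / x ^ 2 <
        c * Real.exp (-(6 * η * U)) * (Real.log r) ^ 2
  have hcount := induced_count Bad q R (S.filter (fun χ => ¬ (χ.conductor : ℝ) < R)) (by
    intro χ hχ
    have h1 := Finset.mem_filter.mp hχ
    refine ⟨not_lt.mp h1.2, ?_⟩
    rcases hS χ h1.1 with h2 | h2
    · exact absurd h2 h1.2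
    · exact h2)
  have hlarge : ((S.filter (fun χ => ¬ (χ.conductor : ℝ) < R)).card : ℝ) ≤ ε / 2 * (Nat.totient q : ℝ) := by
    have h1 : ((S.filter (fun χ => ¬ (χ.conductor : ℝ) < R)).card : ℝ) ≤
        ∑ r ∈ q.divisors.filter (fun r : ℕ => R ≤ (r : ℝ)),
          (Set.ncard {ψ : DirichletCharacter ℂ r | ψ.IsPrimitive ∧ Bad r ψ} : ℝ) := by
      exact_mod_cast hcount
    have h2 : ∀ r ∈ q.divisors.filter (fun r : ℕ => R ≤ (r : ℝ)),
        (Set.ncard {ψ : DirichletCharacter ℂ r | ψ.IsPrimitive ∧ Bad r ψ} : ℝ) ≤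
          ε / 4 * (if h : r ≠ 0 then (haveI : NeZero r := ⟨h⟩; NN r) else 0) := by
      intro r hr
      have h3 := Finset.mem_filter.mp hr
      have hr0 : r ≠ 0 := by
        intro h0
        rw [h0] at h3
        have h4 := h3.2
        rw [Nat.cast_zero] at h4
        linarith
      haveI : NeZero r := ⟨hr0⟩
      rw [dif_pos hr0]
      have hfin : ({ψ : DirichletCharacter ℂ r | ψ.IsPrimitive ∧ Bad r ψ}).Finite := Set.toFinite _
      rw [Set.ncard_eq_toFinset_card _ hfin]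
      have hr₀r : r₀ ≤ r := by
        have h5 : (r₀ : ℝ) ≤ (r : ℝ) := e1.trans h3.2
        exact_mod_cast h5
      apply hprim r hr₀r hfin.toFinset
      · intro ψ hψ
        rw [A3_mem_prim]
        exact ((Set.Finite.mem_toFinset hfin).mp hψ).1
      · intro ψ hψ
        exact ((Set.Finite.mem_toFinset hfin).mp hψ).2
    have h3 : ∑ r ∈ q.divisors.filter (fun r : ℕ => R ≤ (r : ℝ)),
          (Set.ncard {ψ : DirichletCharacter ℂ r | ψ.IsPrimitive ∧ Bad r ψ} : ℝ) ≤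
        ∑ r ∈ q.divisors, ε / 4 * (if h : r ≠ 0 then (haveI : NeZero r := ⟨h⟩; NN r) else 0) := by
      apply (Finset.sum_le_sum h2).trans
      apply Finset.sum_le_sum_of_subset_of_nonneg (Finset.filter_subset _ _)
      intro r _ _
      apply mul_nonneg (by positivity)
      split_ifs with h
      · haveI : NeZero r := ⟨h⟩
        exact A3_NN_nonneg r
      · exact le_rfl
    rw [← Finset.mul_sum] at h3
    have h4 := hsum q
    have h5 : ε / 4 * ∑ r ∈ q.divisors, (if h : r ≠ 0 then (haveI : NeZero r := ⟨h⟩; NN r) else 0) ≤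
        ε / 4 * (2 * (Nat.totient q : ℝ)) := by
      apply mul_le_mul_of_nonneg_left _ (by positivity)
      linarith
    have h6 : ε / 4 * (2 * (Nat.totient q : ℝ)) = ε / 2 * (Nat.totient q : ℝ) := by ring
    linarith
  have hcard : (S.card : ℝ) = ((S.filter (fun χ => (χ.conductor : ℝ) < R)).card : ℝ) +
      ((S.filter (fun χ => ¬ (χ.conductor : ℝ) < R)).card : ℝ) := by
    have h1 := Finset.card_filter_add_card_filter_not (s := S) (fun χ => (χ.conductor : ℝ) < R)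
    exact_mod_cast h1.symm
  rw [hcard]
  have h9 : 0 ≤ ε * (Nat.totient q : ℝ) := by positivity
  linarith

end Pool.Agent.SO
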