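import Mathlib
import Pool.Agent.Lib.MP_9cfc0a_nt.Mg.G015

set_option autoImplicit false

namespace Pool.Agent.SO

open Complex MeasureTheory Pool.Agent.EM

/-- XA4a. Change of variables from `U` to `X`, for one character (uses A1 `induced_lower`; compare
`one_char` in SO/A4a.lean).

PROOF. `r = χ.conductor ∣ q`, `q^(9/20) ≤ r ≤ q`, `l = log r ≥ (9/20) log q > 0`. Let `U = log X/l ≥ 0`; `r^U = X`,
`r^((1+δ)U+12) = X^(1+δ) r^12 ≤ X^(1+δ) q^12`, `U ≤ (20/9) log X/log q`,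
`exp (-(6ηU)) ≥ exp (-(40/3) η log X/log q) ≥ E := exp (-(14 η log X/log q))`. By `h`,
`∫_{Ioc X (X^(1+δ) r^12)} ‖psiC χ*‖²/x² ≥ c E (81/400) (log q)² ≥ (c/5) E (log q)²`, and the same for the larger
`Ioc X (X^(1+δ) q^12)`. `induced_lower`: `∫ ‖psiC χ‖²/x² ≥ (c/10) E (log q)² - 128 (log q)² X^(-1/2)`. Finally
`X^(-1/2) ≤ X^(-1/4) E ≤ q^(-1/4) E` because `E = X^(-14 η/log q) ≥ X^(-1/4)` (`hq1`), and `hq2`. -/
theorem one_char_x (η δ c : ℝ) (hη : 0 < η) (hδ : 0 < δ) (hc : 0 < c) (q : ℕ) [NeZero q]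
    (hq3 : 3 ≤ q) (hq1 : 56 * η ≤ Real.log q)
    (hq2 : 128 * (q : ℝ) ^ (-(1 / 4) : ℝ) ≤ c / 20) (χ : DirichletCharacter ℂ q)
    (h1 : (q : ℝ) ^ (9 / 20 : ℝ) ≤ (χ.conductor : ℝ))
    (h : ∀ U : ℝ, 0 ≤ U → c * Real.exp (-(6 * η * U)) * (Real.log χ.conductor) ^ 2 ≤
      ∫ x in Set.Ioc ((χ.conductor : ℝ) ^ U) ((χ.conductor : ℝ) ^ ((1 + δ) * U + 12)),
        ‖psiC χ.primitiveCharacter x‖ ^ 2 / x ^ 2)
    (X : ℝ) (hX : (q : ℝ) ≤ X) :
    c / 20 * Real.exp (-(14 * η * Real.log X / Real.log q)) * (Real.log q) ^ 2 ≤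
      ∫ x in Set.Ioc X (X ^ (1 + δ) * (q : ℝ) ^ 12), ‖psiC χ x‖ ^ 2 / x ^ 2 := by
  have hq3' : (3 : ℝ) ≤ (q : ℝ) := by exact_mod_cast hq3
  have hq0 : (0 : ℝ) < q := by linarith
  have hlq : 0 < Real.log q := Real.log_pos (by linarith)
  have hX0 : 0 < X := by linarith
  have hX1' : 1 ≤ X := by linarith
  have hrq : (χ.conductor : ℝ) ≤ q := by
    exact_mod_cast Nat.le_of_dvd (Nat.pos_of_ne_zero (NeZero.ne q)) (DirichletCharacter.conductor_dvd_level χ)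
  set r : ℝ := (χ.conductor : ℝ) with hr
  have hqp : 0 < (q : ℝ) ^ (9 / 20 : ℝ) := Real.rpow_pos_of_pos hq0 _
  have hr0 : 0 < r := by linarith
  have hlr : 9 / 20 * Real.log q ≤ Real.log r := by
    have h2 := Real.log_le_log hqp h1
    rw [Real.log_rpow hq0] at h2
    exact h2
  have hlr0 : 0 < Real.log r := by linarith
  have hlX : 0 < Real.log X := Real.log_pos (by linarith)
  have hU0 : 0 ≤ Real.log X / Real.log r := by positivity
  have hU1 : Real.log X / Real.log r ≤ 20 / 9 * (Real.log X / Real.log q) := by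
    rw [div_le_iff₀ hlr0]
    have h2 : 20 / 9 * (Real.log X / Real.log q) * (9 / 20 * Real.log q) ≤
        20 / 9 * (Real.log X / Real.log q) * Real.log r :=
      mul_le_mul_of_nonneg_left hlr (by positivity)
    have h3 : 20 / 9 * (Real.log X / Real.log q) * (9 / 20 * Real.log q) = Real.log X := by
      field_simp
    linarith
  have h2 := h (Real.log X / Real.log r) hU0
  have h3 : r ^ (Real.log X / Real.log r) = X := by
    rw [Real.rpow_def_of_pos hr0, mul_div_cancel₀ _ hlr0.ne', Real.exp_log hX0]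
  have h4 : r ^ ((1 + δ) * (Real.log X / Real.log r) + 12) = X ^ (1 + δ) * r ^ 12 := by
    rw [Real.rpow_add hr0, mul_comm (1 + δ), Real.rpow_mul hr0.le, h3]
    congr 1
    exact_mod_cast Real.rpow_natCast r 12
  rw [h3, h4] at h2
  have hXd : 0 < X ^ (1 + δ) := Real.rpow_pos_of_pos hX0 _
  have h5 : X ^ (1 + δ) * r ^ 12 ≤ X ^ (1 + δ) * (q : ℝ) ^ 12 :=
    mul_le_mul_of_nonneg_left (pow_le_pow_left₀ hr0.le hrq 12) hXd.le
  have h6 : (∫ x in Set.Ioc X (X ^ (1 + δ) * r ^ 12), ‖psiC χ.primitiveCharacter x‖ ^ 2 / x ^ 2) ≤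
      ∫ x in Set.Ioc X (X ^ (1 + δ) * (q : ℝ) ^ 12), ‖psiC χ.primitiveCharacter x‖ ^ 2 / x ^ 2 := by
    apply setIntegral_mono_set
      (integrable_psiC_sq_window χ.primitiveCharacter X (X ^ (1 + δ) * (q : ℝ) ^ 12) hX1')
    · apply Filter.Eventually.of_forall
      intro x
      show 0 ≤ ‖psiC χ.primitiveCharacter x‖ ^ 2 / x ^ 2
      positivity
    · exact (Set.Ioc_subset_Ioc_right h5).eventuallyLE
  obtain ⟨E, hE⟩ : ∃ E, E = Real.exp (-(14 * η * Real.log X / Real.log q)) := ⟨_, rfl⟩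
  have hE0 : 0 < E := by rw [hE]; exact Real.exp_pos _
  rw [← hE]
  have hE1 : E ≤ Real.exp (-(6 * η * (Real.log X / Real.log r))) := by
    rw [hE]
    apply Real.exp_le_exp.2
    have h7 : 6 * η * (Real.log X / Real.log r) ≤ 6 * η * (20 / 9 * (Real.log X / Real.log q)) :=
      mul_le_mul_of_nonneg_left hU1 (by positivity)
    have h8 : 0 ≤ η * (Real.log X / Real.log q) := by positivity
    have h9 : 14 * η * Real.log X / Real.log q = 14 * (η * (Real.log X / Real.log q)) := by ring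
    rw [h9]
    nlinarith
  have h7 : c / 5 * E * (Real.log q) ^ 2 ≤
      c * Real.exp (-(6 * η * (Real.log X / Real.log r))) * (Real.log r) ^ 2 := by
    have h8 : (9 / 20 * Real.log q) ^ 2 ≤ (Real.log r) ^ 2 := pow_le_pow_left₀ (by positivity) hlr 2
    have h9 : c * E * (9 / 20 * Real.log q) ^ 2 ≤
        c * Real.exp (-(6 * η * (Real.log X / Real.log r))) * (Real.log r) ^ 2 :=
      mul_le_mul (mul_le_mul_of_nonneg_left hE1 hc.le) h8 (by positivity) (by positivity)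
    have h11 : c * E * (9 / 20 * Real.log q) ^ 2 = 81 / 400 * (c * E * (Real.log q) ^ 2) := by ring
    have h12 : c / 5 * E * (Real.log q) ^ 2 = 1 / 5 * (c * E * (Real.log q) ^ 2) := by ring
    have h13 : 0 ≤ c * E * (Real.log q) ^ 2 := by positivity
    linarith
  have h12 := induced_lower q χ X (X ^ (1 + δ) * (q : ℝ) ^ 12) (c / 5 * E * (Real.log q) ^ 2) hX1'
    (by linarith)
  have h13 : X ^ (-(1 / 4) : ℝ) ≤ (q : ℝ) ^ (-(1 / 4) : ℝ) :=
    Real.rpow_le_rpow_of_nonpos hq0 hX (by norm_num)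
  have h14 : X ^ (-(1 / 4) : ℝ) ≤ E := by
    rw [hE, Real.rpow_def_of_pos hX0]
    apply Real.exp_le_exp.2
    have h15 : 14 * η * Real.log X / Real.log q ≤ 1 / 4 * Real.log X := by
      rw [div_le_iff₀ hlq]
      have := mul_le_mul_of_nonneg_right hq1 hlX.le
      nlinarith
    linarith
  have h15 : X ^ (-(1 / 2) : ℝ) = X ^ (-(1 / 4) : ℝ) * X ^ (-(1 / 4) : ℝ) := by
    rw [← Real.rpow_add hX0]
    norm_num
  have hp4 : 0 < X ^ (-(1 / 4) : ℝ) := Real.rpow_pos_of_pos hX0 _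
  have hq4 : 0 < (q : ℝ) ^ (-(1 / 4) : ℝ) := Real.rpow_pos_of_pos hq0 _
  have h16 : 128 * (Real.log q) ^ 2 * X ^ (-(1 / 2) : ℝ) ≤ c / 20 * E * (Real.log q) ^ 2 := by
    have h17 : X ^ (-(1 / 2) : ℝ) ≤ (q : ℝ) ^ (-(1 / 4) : ℝ) * E := by
      rw [h15]
      exact mul_le_mul h13 h14 hp4.le hq4.le
    have h18 : 128 * X ^ (-(1 / 2) : ℝ) ≤ c / 20 * E := by
      calc 128 * X ^ (-(1 / 2) : ℝ) ≤ 128 * ((q : ℝ) ^ (-(1 / 4) : ℝ) * E) := by linarith
        _ = 128 * (q : ℝ) ^ (-(1 / 4) : ℝ) * E := by ring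
        _ ≤ c / 20 * E := mul_le_mul_of_nonneg_right hq2 hE0.le
    have h19 := mul_le_mul_of_nonneg_right h18 (sq_nonneg (Real.log q))
    have h20 : 128 * (Real.log q) ^ 2 * X ^ (-(1 / 2) : ℝ) =
        128 * X ^ (-(1 / 2) : ℝ) * (Real.log q) ^ 2 := by ring
    rw [h20]
    exact h19
  have h21 : c / 5 * E * (Real.log q) ^ 2 / 2 = c / 20 * E * (Real.log q) ^ 2 +
      c / 20 * E * (Real.log q) ^ 2 := by ring
  linarith

end Pool.Agent.SO
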