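import Mathlib
import Pool.Agent.Lib.MP_9cfc0a_nt.EMFinal
import Pool.Agent.Lib.MP_9cfc0a_nt.Mg.G009
import Pool.Agent.Lib.MP_9cfc0a_nt.SX.XA3
import Pool.Agent.Lib.MP_9cfc0a_nt.SX.XA4

set_option autoImplicit false

namespace Pool.Agent.SO

open Complex MeasureTheory Pool.Agent.EM

private theorem XA5_core (ε η δ : ℝ) (hε : 0 < ε) (hη : 0 < η) (hη1 : η ≤ 1) (hδ : 0 < δ)
    (hδ1 : δ ≤ 1) :
    ∃ c : ℝ, 0 < c ∧ ∃ q₀ : ℕ, 3 ≤ q₀ ∧
    ∀ (q : ℕ) [NeZero q], q₀ ≤ q → ∃ S : Finset (DirichletCharacter ℂ q),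
      (1 - ε) * (q.totient : ℝ) ≤ (S.card : ℝ) ∧ (∀ χ ∈ S, χ ≠ 1) ∧
      ∀ χ ∈ S, ∀ X : ℝ, (q : ℝ) ≤ X →
        c * Real.exp (-(14 * η * Real.log X / Real.log q)) * (Real.log q) ^ 2 ≤
          ∫ x in Set.Ioc X (X ^ (1 + δ) * (q : ℝ) ^ 12), ‖psiC χ x‖ ^ 2 / x ^ 2 := by
  classical
  obtain ⟨c₁, hc₁, q₁, hq₁, h₁⟩ := bad_count_x ε η δ hε hη hη1 hδ hδ1
  refine ⟨c₁ / 20, by linarith, max q₁ (max ⌈(2560 / c₁) ^ 4⌉₊ ⌈Real.exp (56 * η)⌉₊),
    hq₁.trans (le_max_left _ _), ?_⟩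
  intro q _ hq
  have hqq₁ : q₁ ≤ q := (le_max_left _ _).trans hq
  have hq3 : 3 ≤ q := hq₁.trans hqq₁
  have hq1 : (1 : ℝ) < q := by exact_mod_cast (by omega : 1 < q)
  have hq0 : (0 : ℝ) < q := by linarith
  have hqc : (2560 / c₁) ^ 4 ≤ (q : ℝ) := by
    refine (Nat.le_ceil _).trans ?_
    exact_mod_cast ((le_max_left _ _).trans (le_max_right q₁ _)).trans hq
  have hqe : Real.exp (56 * η) ≤ (q : ℝ) := by
    refine (Nat.le_ceil _).trans ?_
    exact_mod_cast ((le_max_right _ _).trans (le_max_right q₁ _)).trans hq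
  have hqe2 : 56 * η ≤ Real.log q := (Real.le_log_iff_exp_le hq0).2 hqe
  have hsmall : 128 * (q : ℝ) ^ (-(1 / 4) : ℝ) ≤ c₁ / 20 := by
    have h2 : 2560 / c₁ ≤ (q : ℝ) ^ (1 / 4 : ℝ) := by
      have h4 : (0 : ℝ) ≤ 2560 / c₁ := by positivity
      have h5 := Real.rpow_le_rpow (by positivity) hqc (show (0 : ℝ) ≤ 1 / 4 by norm_num)
      rw [← Real.rpow_natCast, ← Real.rpow_mul h4] at h5
      norm_num at h5
      norm_num
      exact h5
    have h3 : (0 : ℝ) < (q : ℝ) ^ (1 / 4 : ℝ) := by positivity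
    rw [Real.rpow_neg hq0.le, ← div_eq_mul_inv, div_le_iff₀ h3]
    calc (128 : ℝ) = c₁ / 20 * (2560 / c₁) := by
          field_simp
          norm_num
      _ ≤ c₁ / 20 * (q : ℝ) ^ (1 / 4 : ℝ) := mul_le_mul_of_nonneg_left h2 (by positivity)
  set bad : DirichletCharacter ℂ q → Prop := fun χ =>
    (χ.conductor : ℝ) < (q : ℝ) ^ (9 / 20 : ℝ) ∨ ∃ U : ℝ, 0 ≤ U ∧
      ∫ x in Set.Ioc ((χ.conductor : ℝ) ^ U) ((χ.conductor : ℝ) ^ ((1 + δ) * U + 12)),
        ‖psiC χ.primitiveCharacter x‖ ^ 2 / x ^ 2 <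
          c₁ * Real.exp (-(6 * η * U)) * (Real.log χ.conductor) ^ 2 with hbad
  refine ⟨Finset.univ.filter (fun χ => ¬ bad χ), ?_, ?_, ?_⟩
  · have h2 := h₁ q hqq₁ (Finset.univ.filter bad) (fun χ hχ => (Finset.mem_filter.1 hχ).2)
    have h3 : (Finset.univ.filter bad).card + (Finset.univ.filter (fun χ => ¬ bad χ)).card =
        q.totient := by
      rw [Finset.card_filter_add_card_filter_not, Finset.card_univ, ← Nat.card_eq_fintype_card,
        DirichletCharacter.card_eq_totient_of_hasEnoughRootsOfUnity]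
    have h4 : ((Finset.univ.filter bad).card : ℝ) +
        ((Finset.univ.filter (fun χ => ¬ bad χ)).card : ℝ) = (q.totient : ℝ) := by
      exact_mod_cast h3
    linarith
  · intro χ hχ h1
    have h2 := (Finset.mem_filter.1 hχ).2
    apply h2
    left
    rw [h1, DirichletCharacter.conductor_one, Nat.cast_one]
    exact Real.one_lt_rpow hq1 (by norm_num)
  · intro χ hχ X hX
    have h2 := (Finset.mem_filter.1 hχ).2
    simp only [hbad] at h2
    push Not at h2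
    exact one_char_x η δ c₁ hη hδ hc₁ q hq3 hqe2 hsmall χ h2.1 (fun U hU0 => h2.2 U hU0) X hX

/-- XA5a. The theorem for characters (uses XA3, XA4; compare `sharp_order` in SO/A4b.lean).

PROOF. Apply `bad_count_x ε (min (η/14) 1) (min δ 1)`... : first reduce to `η ≤ 1`, `δ ≤ 1`: with `η' = min η 1 / 14`,
`δ' = min δ 1` the statement for `(η', δ')` implies the one for `(η, δ)`:
`exp (-(14 η' log X/log q)) ≥ exp (-(η log X/log q))` and `X^(1+δ') ≤ X^(1+δ)` (`X ≥ 1`), the integral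
over the larger window is larger. Then as `sharp_order`: `S` = the characters which do not satisfy the
alternative of `bad_count_x`; `one_char_x`. -/
theorem sharp_order_x (ε η δ : ℝ) (hε : 0 < ε) (hη : 0 < η) (hδ : 0 < δ) :
    ∃ c : ℝ, 0 < c ∧ ∃ q₀ : ℕ, 3 ≤ q₀ ∧
    ∀ (q : ℕ) [NeZero q], q₀ ≤ q → ∃ S : Finset (DirichletCharacter ℂ q),
      (1 - ε) * (q.totient : ℝ) ≤ (S.card : ℝ) ∧ (∀ χ ∈ S, χ ≠ 1) ∧
      ∀ χ ∈ S, ∀ X : ℝ, (q : ℝ) ≤ X →
        c * Real.exp (-(η * Real.log X / Real.log q)) * (Real.log q) ^ 2 ≤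
          ∫ x in Set.Ioc X (X ^ (1 + δ) * (q : ℝ) ^ 12), ‖psiC χ x‖ ^ 2 / x ^ 2 := by
  obtain ⟨c, hc, q₀, hq₀, h⟩ := XA5_core ε (min η 1 / 14) (min δ 1) hε
    (by have := lt_min hη one_pos; positivity)
    (by have := min_le_right η 1; linarith) (lt_min hδ one_pos) (min_le_right δ 1)
  refine ⟨c, hc, q₀, hq₀, ?_⟩
  intro q _ hq
  obtain ⟨S, hS1, hS2, hS3⟩ := h q hq
  refine ⟨S, hS1, hS2, ?_⟩
  intro χ hχ X hX
  have hq3 : 3 ≤ q := hq₀.trans hq
  have hq1 : (1 : ℝ) < q := by exact_mod_cast (by omega : 1 < q)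
  have hq0 : (0 : ℝ) < q := by linarith
  have hlq : 0 < Real.log q := Real.log_pos hq1
  have hX1 : 1 ≤ X := by linarith
  have hlX : 0 ≤ Real.log X := Real.log_nonneg hX1
  have h1 := hS3 χ hχ X hX
  have h2 : Real.exp (-(η * Real.log X / Real.log q)) ≤
      Real.exp (-(14 * (min η 1 / 14) * Real.log X / Real.log q)) := by
    apply Real.exp_le_exp.2
    apply neg_le_neg
    apply div_le_div_of_nonneg_right _ hlq.le
    apply mul_le_mul_of_nonneg_right _ hlX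
    have := min_le_left η 1
    linarith
  have h3 : c * Real.exp (-(η * Real.log X / Real.log q)) * (Real.log q) ^ 2 ≤
      c * Real.exp (-(14 * (min η 1 / 14) * Real.log X / Real.log q)) * (Real.log q) ^ 2 :=
    mul_le_mul_of_nonneg_right (mul_le_mul_of_nonneg_left h2 hc.le) (by positivity)
  refine h3.trans (h1.trans ?_)
  apply setIntegral_mono_set (integrable_psiC_sq_window χ X (X ^ (1 + δ) * (q : ℝ) ^ 12) hX1)
  · apply Filter.Eventually.of_forall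
    intro x
    show 0 ≤ ‖psiC χ x‖ ^ 2 / x ^ 2
    positivity
  · apply (Set.Ioc_subset_Ioc_right _).eventuallyLE
    apply mul_le_mul_of_nonneg_right _ (by positivity)
    apply Real.rpow_le_rpow_of_exponent_le hX1
    have := min_le_left δ 1
    linarith

/-- XA5b. The theorem for the variance. PROOF. From XA5a with `ε = 1/2` exactly as `variance_sharp`
(file SO/A4c.lean). -/
theorem variance_sharp_x (η δ : ℝ) (hη : 0 < η) (hδ : 0 < δ) : ∃ c : ℝ, 0 < c ∧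
    ∃ q₀ : ℕ, 3 ≤ q₀ ∧ ∀ q : ℕ, q₀ ≤ q → ∀ X : ℝ, (q : ℝ) ≤ X →
      c * Real.exp (-(η * Real.log X / Real.log q)) * (Real.log q) ^ 2 ≤
        ∫ x in Set.Ioc X (X ^ (1 + δ) * (q : ℝ) ^ 12), V x q / x ^ 2 := by
  obtain ⟨c₁, hc₁, q₀, hq₀, h₁⟩ := sharp_order_x (1 / 2) η δ (by norm_num) hη hδ
  refine ⟨c₁ / 2, by linarith, q₀, hq₀, ?_⟩
  intro q hq X hX1
  have hq3 : 3 ≤ q := hq₀.trans hq
  have : NeZero q := ⟨by omega⟩
  have hq1 : (1 : ℝ) < q := by exact_mod_cast (by omega : 1 < q)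
  have hX : 1 ≤ X := by linarith
  obtain ⟨S, hS1, hS2, hS3⟩ := h₁ q hq
  have hφ : (0 : ℝ) < (q.totient : ℝ) := by
    exact_mod_cast Nat.totient_pos.2 (by omega)
  set Y := X ^ (1 + δ) * (q : ℝ) ^ 12 with hY
  set E := Real.exp (-(η * Real.log X / Real.log q)) with hE
  have hE0 : 0 < E := Real.exp_pos _
  have hup : ∑ χ ∈ S, ∫ x in Set.Ioc X Y, ‖psiC χ x‖ ^ 2 / x ^ 2 ≤
      (q.totient : ℝ) * ∫ x in Set.Ioc X Y, V x q / x ^ 2 := by
    rw [← integral_finsetSum _ (fun χ _ => integrable_psiC_sq_window χ X Y hX),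
      ← integral_const_mul]
    refine setIntegral_mono_on (integrable_finsetSum _ fun χ _ =>
        integrable_psiC_sq_window χ X Y hX)
      ((integrable_V_window q X Y hX).const_mul _) measurableSet_Ioc fun x hx => ?_
    have hx1 : 1 ≤ x := by linarith [hx.1]
    have h2 := variance_upper q x S hS2
    rw [← Finset.sum_div, ← mul_div_assoc]
    exact div_le_div_of_nonneg_right h2 (by positivity)
  have hlow : (S.card : ℝ) * (c₁ * E * (Real.log q) ^ 2) ≤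
      ∑ χ ∈ S, ∫ x in Set.Ioc X Y, ‖psiC χ x‖ ^ 2 / x ^ 2 := by
    rw [← nsmul_eq_mul]
    exact Finset.card_nsmul_le_sum _ _ _ (fun χ hχ => hS3 χ hχ X hX1)
  have hL : 0 ≤ c₁ * E * (Real.log q) ^ 2 := by positivity
  have h3 : (1 - 1 / 2) * (q.totient : ℝ) * (c₁ * E * (Real.log q) ^ 2) ≤
      (S.card : ℝ) * (c₁ * E * (Real.log q) ^ 2) := mul_le_mul_of_nonneg_right hS1 hL
  have h4 : (q.totient : ℝ) * (c₁ / 2 * E * (Real.log q) ^ 2) ≤
      (q.totient : ℝ) * ∫ x in Set.Ioc X Y, V x q / x ^ 2 := by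
    calc (q.totient : ℝ) * (c₁ / 2 * E * (Real.log q) ^ 2) =
          (1 - 1 / 2) * (q.totient : ℝ) * (c₁ * E * (Real.log q) ^ 2) := by ring
      _ ≤ _ := h3.trans (hlow.trans hup)
  exact le_of_mul_le_mul_left h4 hφ

end Pool.Agent.SO
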